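import Pool.Agent.Helper98.U5.Count

/-!
# The linear bound (end of section 7)
-/

set_option linter.unusedSectionVars false

namespace U5Dis

open Finset Classical Pool.Agent.Helper1.PG

variable {V F : Type} [Fintype V] [Fintype F] {Γ : SimpleGraph V}

section

variable {D : PlaneData Γ F} {o : V} {a d : V → ℕ}

theorem sum_deg (D : PlaneData Γ F) : ∑ v, D.deg v = 2 * Nat.card Γ.edgeSet := by
  have h1 : ∀ v, D.deg v = Γ.degree v := by
    intro v
    rw [← card_nbrs D v, ← SimpleGraph.card_neighborFinset_eq_degree]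
    congr 1
    ext w
    simp
  have h2 : ∑ v, D.deg v = 2 * #Γ.edgeFinset := by
    rw [← Γ.sum_degrees_eq_twice_card_edges]
    exact sum_congr rfl (fun v _ => h1 v)
  have h3 : Nat.card Γ.edgeSet = #Γ.edgeFinset := by
    rw [Nat.card_eq_fintype_card, SimpleGraph.edgeFinset_card]
  rw [h2, h3]

/-- the potential computed in `Γ` -/
noncomputable def pG (Γ : SimpleGraph V) (o : V) (a : V → ℕ) : ℤ :=
  (Nat.card Γ.edgeSet : ℤ) - ((univ.filter (fun v => v ≠ o ∧ 1 ≤ a v)).card : ℤ) +
    ∑ v ∈ univ.filter (fun v => v ≠ o), (a v : ℤ) - 3 * ((univ.filter (fun v => v ≠ o)).card : ℤ)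

variable (H : DC D o a d)

include H in
theorem deg_o : D.deg o = (univ.filter (fun v => v ≠ o ∧ 1 ≤ a v)).card := by
  rw [← card_nbrs D o]
  congr 1
  ext w
  simp only [mem_filter, mem_univ, true_and]
  constructor
  · intro h
    exact ⟨h.ne', (H.adj_o w h.ne').1 h.symm⟩
  · rintro ⟨h1, h2⟩
    exact ((H.adj_o w h1).2 h2).symm

include H in
/-- (E) -/
theorem eqE : Tot D o a d = 10 * (pG Γ o a - 3) := by
  rw [tot_eq H]
  have h1 : ∀ v ∈ univ.filter (fun v => v ≠ o), chg a d v = 10 * ((D.deg v : ℤ) + a v) - 60 := by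
    intro v hv
    rw [mem_filter] at hv
    have h2 := H.deg_eq v hv.2
    unfold chg
    split_ifs at h2 ⊢ with h3 <;> omega
  rw [sum_congr rfl h1, sum_sub_distrib, ← mul_sum, sum_add_distrib, sum_const, nsmul_eq_mul]
  have h2 := sum_deg D
  have h3 := deg_o H
  have h4 : ∑ v, (D.deg v : ℤ) = ∑ v ∈ univ.filter (fun v => v ≠ o), (D.deg v : ℤ) + D.deg o := by
    rw [filter_ne' univ o, sum_erase_eq_sub (mem_univ o)]
    ring
  have h5 : ∑ v, (D.deg v : ℤ) = 2 * Nat.card Γ.edgeSet := by exact_mod_cast h2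
  have h6 : tau D = 3 * Fintype.card V - 6 - Nat.card Γ.edgeSet := D.euler
  have h7 : ((univ.filter (fun v => v ≠ o)).card : ℤ) + 1 = Fintype.card V := by
    rw [filter_ne' univ o, card_erase_of_mem (mem_univ o), card_univ]
    have : 0 < Fintype.card V := Fintype.card_pos_iff.2 ⟨o⟩
    omega
  rw [h3] at h4
  unfold pG
  rw [h6]
  linarith

include H in
/-- (E') -/
theorem eqE' : ∑ v ∈ univ.filter (fun v => v ≠ o), ((a v : ℤ) - if 1 ≤ a v then 1 else 0) =
    pG Γ o a + 3 + tau D := by
  have h6 : tau D = 3 * Fintype.card V - 6 - Nat.card Γ.edgeSet := D.euler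
  have h7 : ((univ.filter (fun v => v ≠ o)).card : ℤ) + 1 = Fintype.card V := by
    rw [filter_ne' univ o, card_erase_of_mem (mem_univ o), card_univ]
    have : 0 < Fintype.card V := Fintype.card_pos_iff.2 ⟨o⟩
    omega
  have h8 : ∑ v ∈ univ.filter (fun v => v ≠ o), (if 1 ≤ a v then (1 : ℤ) else 0) =
      ((univ.filter (fun v => v ≠ o ∧ 1 ≤ a v)).card : ℤ) := by
    rw [← sum_filter, filter_filter, sum_const]
    simp
  rw [sum_sub_distrib, h8, h6]
  unfold pG
  linarith

include H in
/-- The linear bound. -/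
theorem count_bound (r : ℕ) (hflat : ∀ v, v ≠ o → NFk D o a d r v) :
    ((univ.filter (fun v => v ≠ o)).card : ℤ) ≤
      50 ^ (3 + r) * (15750487 * (pG Γ o a - 3) + 42) := by
  have hE := eqE H
  have hE' := eqE' H
  have hVnn : ∀ v ∈ univ.filter (fun v => v ≠ o), 0 ≤ finV D o a d v := by
    intro v hv
    rw [mem_filter] at hv
    exact finV_nonneg H hv.2
  -- sums over positive objects
  set SV := ∑ v ∈ univ.filter (fun v => v ≠ o ∧ PosV D o a d v), (D.deg v + 1) with hSV
  set SF := ∑ f ∈ univ.filter (fun f => 1 ≤ finF D o a d f), D.len f with hSF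
  have hSV' : (SV : ℤ) ≤ 6 * ∑ v ∈ univ.filter (fun v => v ≠ o), finV D o a d v := by
    rw [hSV, mul_sum]
    push_cast
    calc ∑ v ∈ univ.filter (fun v => v ≠ o ∧ PosV D o a d v), ((D.deg v : ℤ) + 1)
        ≤ ∑ v ∈ univ.filter (fun v => v ≠ o ∧ PosV D o a d v), 6 * finV D o a d v := by
          apply sum_le_sum
          intro v hv
          rw [mem_filter] at hv
          exact posV_deg H hv.2.2
      _ ≤ ∑ v ∈ univ.filter (fun v => v ≠ o), 6 * finV D o a d v := by
          apply sum_le_sum_of_subset_of_nonneg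
          · intro v hv
            rw [mem_filter] at hv ⊢
            exact ⟨hv.1, hv.2.1⟩
          · intro v hv _
            have := hVnn v hv
            omega
  have hSF' : (SF : ℤ) ≤ 6 * ∑ f, finF D o a d f := by
    rw [hSF, mul_sum]
    push_cast
    calc ∑ f ∈ univ.filter (fun f => 1 ≤ finF D o a d f), (D.len f : ℤ)
        ≤ ∑ f ∈ univ.filter (fun f => 1 ≤ finF D o a d f), 6 * finF D o a d f := by
          apply sum_le_sum
          intro f hf
          rw [mem_filter] at hf
          exact (len_le f).1 hf.2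
      _ ≤ ∑ f, 6 * finF D o a d f := by
          apply sum_le_sum_of_subset_of_nonneg (filter_subset _ _)
          intro f _ _
          have := finF_nonneg H f
          omega
  have hT1 : (SV : ℤ) + SF ≤ 6 * Tot D o a d := by
    unfold Tot
    linarith
  have hTot : 0 ≤ Tot D o a d := by
    have : (0 : ℤ) ≤ (SV : ℤ) + SF := by positivity
    linarith
  -- number of needy vertices
  have hneedy : ((univ.filter (fun v => Needy o a d v)).card : ℤ) ≤ 2500 * (6 * Tot D o a d) := by
    have h1 : (univ.filter (fun v => Needy o a d v)).card ≤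
        (univ.filter (fun v => Bk D o a d (PosV D o a d) 2 v)).card := by
      apply card_le_card
      intro v hv
      rw [mem_filter] at hv ⊢
      exact ⟨hv.1, (needy_main H hv.2).2⟩
    have h2 := card_Bk (D := D) (o := o) (a := a) (d := d) (P1 := PosV D o a d)
      (fun v hv hp => deg_le_six H hv hp) 2
    have h3 : (univ.filter (fun v => Needy o a d v)).card ≤ 50 ^ 2 * (SV + SF) :=
      le_trans h1 h2
    have h4 : ((univ.filter (fun v => Needy o a d v)).card : ℤ) ≤ 50 ^ 2 * ((SV : ℤ) + SF) := by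
      exact_mod_cast h3
    linarith
  -- the excess of the faces
  have htau : tau D ≤ SF + 15 * ((univ.filter (fun v => Needy o a d v)).card : ℤ) := by
    have h1 : ∀ f, ((D.len f : ℤ) - 3) ≤ (if 1 ≤ finF D o a d f then (D.len f : ℤ) else 0) +
        3 * (if (finF D o a d f ≤ 0 ∧ 4 ≤ D.len f) then 1 else 0) := by
      intro f
      have h3 := D.three_le_len f
      by_cases hp : 1 ≤ finF D o a d f
      · rw [if_pos hp, if_neg (by omega)]; omega
      · rw [if_neg hp]
        by_cases h4 : 4 ≤ D.len f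
        · rw [if_pos ⟨by omega, h4⟩]
          have := (len_le (D := D) (o := o) (a := a) (d := d) f).2 (by omega)
          omega
        · rw [if_neg (by omega)]; omega
    have h2 : (univ.filter (fun f => finF D o a d f ≤ 0 ∧ 4 ≤ D.len f)).card ≤
        5 * (univ.filter (fun v => Needy o a d v)).card := by
      have hsub : univ.filter (fun f => finF D o a d f ≤ 0 ∧ 4 ≤ D.len f) ⊆
          (univ.filter (fun v => Needy o a d v)).biUnion
            (fun v => univ.filter (fun f => Von D f v)) := by
        intro f hf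
        rw [mem_filter] at hf
        obtain ⟨v, hv1, hv2⟩ := exists_needy hf.2.2 hf.2.1
        rw [mem_biUnion]
        exact ⟨v, by simp [hv2], by simp [hv1]⟩
      refine le_trans (card_le_card hsub) (le_trans card_biUnion_le ?_)
      have h3 : ∀ v ∈ univ.filter (fun v => Needy o a d v),
          (univ.filter (fun f => Von D f v)).card ≤ 5 := by
        intro v hv
        rw [mem_filter] at hv
        rw [card_faces_at, needy_deg H hv.2]
      refine le_trans (sum_le_sum h3) ?_
      rw [sum_const, smul_eq_mul, mul_comm]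
    have h2' : ((univ.filter (fun f => finF D o a d f ≤ 0 ∧ 4 ≤ D.len f)).card : ℤ) ≤
        5 * ((univ.filter (fun v => Needy o a d v)).card : ℤ) := by exact_mod_cast h2
    have h3 : tau D ≤ ∑ f, ((if 1 ≤ finF D o a d f then (D.len f : ℤ) else 0) +
        3 * (if (finF D o a d f ≤ 0 ∧ 4 ≤ D.len f) then 1 else 0)) :=
      sum_le_sum (fun f _ => h1 f)
    have h4 : ∑ f, ((if 1 ≤ finF D o a d f then (D.len f : ℤ) else 0) +
        3 * (if (finF D o a d f ≤ 0 ∧ 4 ≤ D.len f) then (1 : ℤ) else 0)) =
        SF + 3 * ((univ.filter (fun f => finF D o a d f ≤ 0 ∧ 4 ≤ D.len f)).card : ℤ) := by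
      rw [sum_add_distrib, ← mul_sum, hSF]
      push_cast
      rw [sum_filter, card_filter]
      push_cast
      rfl
    rw [h4] at h3
    linarith
  -- the set A2
  have hA2 : ((univ.filter (fun v => v ≠ o ∧ 2 ≤ a v)).card : ℤ) ≤ pG Γ o a + 3 + tau D := by
    rw [← hE', card_filter]
    push_cast
    rw [sum_filter]
    apply sum_le_sum
    intro v _
    by_cases hv : v = o
    · simp [hv]
    · rw [if_pos hv]
      split_ifs <;> omega
  -- everything is near
  have hall : (univ.filter (fun v => v ≠ o)).card ≤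
      (univ.filter (fun v => Bk D o a d (Src D o a d) (3 + r) v)).card := by
    apply card_le_card
    intro v hv
    rw [mem_filter] at hv ⊢
    exact ⟨hv.1, near_all H hv.2 (hflat v hv.2)⟩
  have hcard := card_Bk (D := D) (o := o) (a := a) (d := d) (P1 := Src D o a d)
      (fun v hv hp => deg_le_six H hv (fun h => hp (Or.inl h))) (3 + r)
  have hsrc : ∑ v ∈ univ.filter (fun v => v ≠ o ∧ Src D o a d v), (D.deg v + 1) ≤
      SV + 7 * (univ.filter (fun v => v ≠ o ∧ 2 ≤ a v)).card := by
    have h1 : ∀ v, (if (v ≠ o ∧ Src D o a d v) then D.deg v + 1 else 0) ≤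
        (if (v ≠ o ∧ PosV D o a d v) then D.deg v + 1 else 0) +
          7 * (if (v ≠ o ∧ 2 ≤ a v) then 1 else 0) := by
      intro v
      by_cases hv : v = o
      · simp [hv]
      · by_cases hp : PosV D o a d v
        · rw [if_pos ⟨hv, Or.inl hp⟩, if_pos ⟨hv, hp⟩]; omega
        · by_cases h2 : 2 ≤ a v
          · rw [if_pos ⟨hv, Or.inr h2⟩, if_pos (show v ≠ o ∧ 2 ≤ a v from ⟨hv, h2⟩)]
            have := deg_le_six H hv hp
            omega
          · rw [if_neg]
            · omega
            · rintro ⟨-, h | h⟩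
              · exact hp h
              · exact h2 h
    rw [hSV, sum_filter, sum_filter, card_filter, mul_sum, ← sum_add_distrib]
    exact sum_le_sum (fun v _ => h1 v)
  have hfin : ((univ.filter (fun v => v ≠ o)).card : ℤ) ≤ 50 ^ (3 + r) *
      ((SV : ℤ) + 7 * ((univ.filter (fun v => v ≠ o ∧ 2 ≤ a v)).card : ℤ) + SF) := by
    have h1 := le_trans hall (le_trans hcard (Nat.mul_le_mul_left (50 ^ (3 + r))
      (Nat.add_le_add_right hsrc SF)))
    exact_mod_cast h1
  refine le_trans hfin ?_
  apply mul_le_mul_of_nonneg_left _ (by positivity)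
  linarith

end

end U5Dis
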