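import Pool.Agent.Helper98.U5.Assembly
import Pool.Agent.Helper42.U5.DCout
import Pool.Agent.Helper42.U5.Sec5
import Pool.Agent.Helper15.U5.Bridge
import Pool.Agent.Helper15.U5.GoodOfCrt
import Pool.Agent.Helper1.PG.Minor

/-!
# Theorem `T_lin`
-/

set_option autoImplicit false
set_option linter.unusedSectionVars false

namespace Pool.Agent.U5

open SimpleGraph Finset Pool.Agent.Helper36.BL Pool.Agent.Helper1.PG
open scoped Classical

/-- A flat ball of radius `r` around a vertex of `S` is impossible in a critical graph. -/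
def NoFlat (Cl : Cls) (c0 : ℝ) (r : ℕ) : Prop :=
  ∀ (q : ℝ) (V : Type) [Fintype V], Par Cl c0 q V → ∀ (m : ℕ) (B H : SimpleGraph V) (S : Finset V),
    Crt Cl c0 q m B H → Data B H S → CutFree 3 H S → ∀ s ∈ act H S, FlatB H s r →
      (∀ v, (∃ p : H.Walk s v, p.length ≤ r + 1) → v ∈ S) → False

/-- The statement proved by the certificate: if the ball of radius `r` around `c` is flat, then
`c0 P(X) ≤ P(H)` for a proper subgraph `X` which differs from `H` only near `c`. -/
def PatchRed (Cl : Cls) (c0 : ℝ) (r : ℕ) : Prop :=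
  ∀ (q : ℝ) (V : Type) [Fintype V], Par Cl c0 q V → 5 - c0 < q → ∀ (H : SimpleGraph V) (c : V),
    Cl.mem H → FlatB H c r → ∃ X : SimpleGraph V, X < H ∧
      (∀ x y, H.Adj x y → ¬ X.Adj x y → (∃ p : H.Walk c x, p.length ≤ r + 1) ∨
        (∃ p : H.Walk c y, p.length ≤ r + 1)) ∧ c0 * P q X ≤ P q H

theorem noFlat_of_patch {Cl : Cls} {c0 : ℝ} {r : ℕ} (h : PatchRed Cl c0 r) : NoFlat Cl c0 r := by
  intro q V _ hp m B H S hc hd _ s _ hf hS
  obtain ⟨X, hX, hn, hP⟩ := h q V hp (hc.q_close hp).1 H s hc.mem hf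
  have hBX : B ≤ X := by
    intro x y hxy
    by_contra hcon
    rcases hn x y (hd.le hxy) hcon with h1 | h1
    · exact hd.iso x (hS x h1) y hxy
    · exact hd.iso y (hS y h1) x hxy.symm
  have := hc.small hp hBX hX
  linarith

section

variable {V : Type} [Fintype V] {B H : SimpleGraph V} {S : Finset V} {F : Type} [Fintype F]

/-- all vertices near a vertex far from non-flat vertices are in `S` -/
lemma ball_of_not_NFk (D : PlaneData (gam H S) F) : ∀ (k : ℕ) (s : {s : V // s ∈ act H S}),
    ¬ U5Dis.NFk D none (aG H S) (dG H S) k (some s) →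
    ∀ v, (∃ p : H.Walk s.1 v, p.length ≤ k + 1) → v ∈ S := by
  have flat0 : ∀ (k : ℕ) (s : {s : V // s ∈ act H S}),
      ¬ U5Dis.NFk D none (aG H S) (dG H S) k (some s) →
      U5Dis.Flat D none (aG H S) (dG H S) (some s) := by
    intro k
    induction k with
    | zero =>
      intro s h
      by_contra h'
      exact h h'
    | succ k ih =>
      intro s h
      exact ih s (fun h' => h (Or.inl h'))
  have hnb : ∀ (k : ℕ) (s : {s : V // s ∈ act H S}),
      ¬ U5Dis.NFk D none (aG H S) (dG H S) k (some s) → ∀ w, H.Adj s.1 w → w ∈ S := by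
    intro k s h w hadj
    by_contra hw
    have h1 := aV_pos.2 ⟨w, hw, hadj⟩
    have h2 : aV H S s = 0 := (flat0 k s h).2.1
    omega
  intro k
  induction k with
  | zero =>
    rintro s h v ⟨p, hp⟩
    cases p with
    | nil => exact (mem_act.1 s.2).1
    | @cons _ w _ hadj p =>
      have : w = v := SimpleGraph.Walk.eq_of_length_eq_zero (by simpa using hp)
      rw [← this]
      exact hnb 0 s h w hadj
  | succ k ih =>
    rintro s h v ⟨p, hp⟩
    cases p with
    | nil => exact (mem_act.1 s.2).1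
    | @cons _ w _ hadj p =>
      have hwS := hnb (k + 1) s h w hadj
      have hwa := adj_act hadj hwS
      have h3 : ¬ U5Dis.NFk D none (aG H S) (dG H S) k (some ⟨w, hwa⟩) := by
        intro h'
        apply h
        exact Or.inr ⟨some ⟨w, hwa⟩, by simp, hadj, h'⟩
      exact ih ⟨w, hwa⟩ h3 v ⟨p, by simpa using hp⟩

lemma card_filter_ne_none (H : SimpleGraph V) (S : Finset V)
    (Q : Option {s : V // s ∈ act H S} → Prop) (R : V → Prop)
    (hQR : ∀ s : {s : V // s ∈ act H S}, Q (some s) ↔ R s.1)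
    (inst : DecidablePred (fun v : Option {s : V // s ∈ act H S} => v ≠ none ∧ Q v)) :
    (@Finset.filter _ (fun v : Option {s : V // s ∈ act H S} => v ≠ none ∧ Q v) inst
      univ).card = ((act H S).filter R).card := by
  symm
  apply Finset.card_bij (fun t ht => some ⟨t, (Finset.mem_filter.1 ht).1⟩)
  · intro t ht
    refine Finset.mem_filter.2 ⟨Finset.mem_univ _, by simp, ?_⟩
    exact (hQR ⟨t, (Finset.mem_filter.1 ht).1⟩).2 (Finset.mem_filter.1 ht).2
  · intro t ht t' ht' h
    exact congrArg Subtype.val (Option.some_injective _ h)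
  · rintro (_ | t) ht
    · exact absurd rfl (Finset.mem_filter.1 ht).2.1
    · exact ⟨t.1, Finset.mem_filter.2 ⟨t.2, (hQR t).1 (Finset.mem_filter.1 ht).2.2⟩, rfl⟩

lemma filter_ne_none (H : SimpleGraph V) (S : Finset V)
    (inst : DecidablePred (fun v : Option {s : V // s ∈ act H S} => v ≠ none)) :
    @Finset.filter _ (fun v : Option {s : V // s ∈ act H S} => v ≠ none) inst univ =
      univ.map Function.Embedding.some := by
  ext v
  rcases v with _ | v <;> simp

lemma card_ne_none (H : SimpleGraph V) (S : Finset V)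
    (inst : DecidablePred (fun v : Option {s : V // s ∈ act H S} => v ≠ none)) :
    (@Finset.filter _ (fun v : Option {s : V // s ∈ act H S} => v ≠ none) inst univ).card =
      (act H S).card := by
  rw [filter_ne_none, Finset.card_map, Finset.card_univ, Fintype.card_coe]

lemma sum_ne_none (H : SimpleGraph V) (S : Finset V)
    (inst : DecidablePred (fun v : Option {s : V // s ∈ act H S} => v ≠ none)) :
    ∑ v ∈ @Finset.filter _ (fun v : Option {s : V // s ∈ act H S} => v ≠ none) inst univ,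
      (aG H S v : ℤ) = ∑ s ∈ act H S, (aV H S s : ℤ) := by
  rw [filter_ne_none, Finset.sum_map, ← Finset.sum_coe_sort (act H S)]
  rfl

/-- the two potentials agree -/
lemma pG_eq (hd : Data B H S) (nc : NoChord B H S) :
    U5Dis.pG (gam H S) none (aG H S) = pot B H S := by
  rw [pot_gam hd nc]
  unfold U5Dis.pG
  rw [card_ne_none, sum_ne_none,
    card_filter_ne_none H S (fun v => 1 ≤ aG H S v) (fun s => 1 ≤ aV H S s) (fun _ => Iff.rfl)]
  congr!

end

/-- the constant `c₁` -/
def cc1 (r : ℕ) : ℕ := 50 ^ (3 + r) * 100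

/-- the constant `η` -/
noncomputable def eta0 (r : ℕ) : ℝ := 1 / (50 ^ (3 + r) * 20000000)

lemma prm0 (r : ℕ) : Prm (eta0 r) (cc1 r) := by
  have h1 : (1 : ℝ) ≤ 50 ^ (3 + r) := one_le_pow₀ (by norm_num)
  have h2 : 1 ≤ 50 ^ (3 + r) := Nat.one_le_pow _ _ (by norm_num)
  have h0 : (0 : ℝ) < 50 ^ (3 + r) * 20000000 := by positivity
  refine ⟨by unfold eta0; positivity, by unfold cc1; omega, ?_⟩
  unfold eta0 cc1
  rw [one_div, inv_mul_le_iff₀ h0]
  push_cast
  linarith

/-- **Theorem `T_lin`**, for a class with plane data and without flat balls. -/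
theorem tLin {Cl : Cls} {c0 : ℝ} {r : ℕ}
    (hPl : ∀ {V : Type} {G : SimpleGraph V}, Cl.mem G → Pl G) (hnf : NoFlat Cl c0 r) :
    TLin Cl c0 (eta0 r) (cc1 r) := by
  have hprm := prm0 r
  intro q V _ hp m
  induction m with
  | zero =>
    intro B H S hc _
    exact (hc.not_zero).elim
  | succ m ih =>
    intro B H S hc hd
    have hG := good_of_crt hp hc hd ih
    by_cases nc : NoChord B H S
    swap
    · exact hG.chord nc
    have hn := hG.n_pos nc
    by_cases hn1 : (act H S).card = 1
    · exact hG.one nc hn1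
    have hn2 : 2 ≤ (act H S).card := by omega
    by_cases hconn : ∀ s ∈ act H S, ∀ t ∈ act H S,
      Relation.ReflTransGen (fun p q => H.Adj p q ∧ p ∈ act H S ∧ q ∈ act H S) s t
    swap
    · exact hG.of_not_conn hprm nc hconn
    have h2c := twoC_gam hG.cut hconn
    have hcard : 3 ≤ Fintype.card (Option {s : V // s ∈ act H S}) := by
      rw [Fintype.card_option, Fintype.card_coe]
      omega
    obtain ⟨F, iF, ⟨D⟩⟩ := exists_planeData hcard h2c ((hPl hc.mem).minor hd.minor)
    have hout := Helper15.U5.outcome_of_good hprm hG nc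
    have h3 := three_le_pot' D hd nc hG.deg5 hG.cut hout
    have h3R : (3 : ℝ) ≤ (pot B H S : ℝ) := by exact_mod_cast h3
    by_contra hlt
    push Not at hlt
    have hbig : cc1 r < (act H S).card := by
      by_contra hle
      rw [phi_two hn2, psi_zero (not_lt.1 hle)] at hlt
      linarith
    have hdc := dc_of_outcome D hG.deg5 hG.cut (fun u z z' y hr => (hout u z z' y hr).2 hlt hbig)
    have hflat : ∀ v, v ≠ none → U5Dis.NFk D none (aG H S) (dG H S) r v := by
      intro v hv
      obtain ⟨s, rfl⟩ := ne_none hv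
      by_contra hcon
      exact hnf q V hp (m + 1) B H S hc hd hG.cut s.1 s.2 (flatB_of_not_NFk D hG.cut r s hcon)
        (ball_of_not_NFk D r s hcon)
    have hcb := U5Dis.count_bound hdc r hflat
    rw [pG_eq hd nc, card_ne_none] at hcb
    have hcbR : ((act H S).card : ℝ) ≤
        50 ^ (3 + r) * (15750487 * ((pot B H S : ℝ) - 3) + 42) := by exact_mod_cast hcb
    rw [phi_two hn2] at hlt
    unfold psi at hlt
    have hcast : (((act H S).card - cc1 r : ℕ) : ℝ) = ((act H S).card : ℝ) - (cc1 r : ℝ) := by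
      rw [Nat.cast_sub hbig.le]
    rw [hcast] at hlt
    have h50 : (0 : ℝ) < 50 ^ (3 + r) := by positivity
    have hc1 : (cc1 r : ℝ) = 50 ^ (3 + r) * 100 := by unfold cc1; push_cast; ring
    rw [hc1] at hlt
    unfold eta0 at hlt
    set x : ℝ := 50 ^ (3 + r) with hx
    set n : ℝ := ((act H S).card : ℝ) with hnn
    set p : ℝ := (pot B H S : ℝ) with hpp
    have h4 : p - 3 < (n - x * 100) / (x * 20000000) := by
      have : 1 / (x * 20000000) * (n - x * 100) = (n - x * 100) / (x * 20000000) := by ring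
      linarith
    rw [lt_div_iff₀ (by positivity)] at h4
    nlinarith

/-- **Uniform gap**: for a class of plane graphs with at most `3 n` edges whose flat patches
are reducible. -/
theorem uniform_gap_of_noFlat (Cl : Cls)
    (hsp : ∀ (V : Type) [Fintype V] (G : SimpleGraph V), Cl.mem G → U5Fin.MinorSparse G)
    (hPl : ∀ {V : Type} {G : SimpleGraph V}, Cl.mem G → Pl G) {c0 : ℝ} (hc0 : 0 < c0) {r : ℕ}
    (hnf : NoFlat Cl c0 r) :
    ∃ ε : ℝ, 0 < ε ∧ ∀ q : ℝ, 5 - ε < q → q < 5 → ∀ (V : Type) [Fintype V] (G : SimpleGraph V),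
      Cl.mem G → 0 < P q G :=
  uniform_gap Cl hsp hc0 (prm0 r) (tLin hPl hnf)

theorem uniform_gap_of_patch (Cl : Cls)
    (hsp : ∀ (V : Type) [Fintype V] (G : SimpleGraph V), Cl.mem G → U5Fin.MinorSparse G)
    (hPl : ∀ {V : Type} {G : SimpleGraph V}, Cl.mem G → Pl G) {c0 : ℝ} (hc0 : 0 < c0) {r : ℕ}
    (hpatch : PatchRed Cl c0 r) :
    ∃ ε : ℝ, 0 < ε ∧ ∀ q : ℝ, 5 - ε < q → q < 5 → ∀ (V : Type) [Fintype V] (G : SimpleGraph V),
      Cl.mem G → 0 < P q G :=
  uniform_gap_of_noFlat Cl hsp hPl hc0 (noFlat_of_patch hpatch)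

end Pool.Agent.U5
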