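import Pool.Agent.Helper98.U5.Fin
import Pool.Agent.Helper15.HF.Star

/-!
# Bridges: `SparseMinors 3` gives `MinorSparse`; `SConn` is connectedness of the induced graph
-/

set_option linter.unusedSectionVars false

namespace U5Fin

open Finset Classical Pool.Agent.Helper36.BL Pool.Agent.Helper15.HF

variable {V : Type} [Fintype V]

theorem sconn_induce {G : SimpleGraph V} {S : Finset V} (h : SConn G S) :
    (G.induce (S : Set V)).Connected := by
  obtain ⟨⟨x0, hx0⟩, hS⟩ := h
  have key : ∀ x y, (res G S).Reachable x y → ∀ (hx : x ∈ (S : Set V)) (hy : y ∈ (S : Set V)),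
      (G.induce (S : Set V)).Reachable ⟨x, hx⟩ ⟨y, hy⟩ := by
    rintro x y ⟨p⟩
    induction p with
    | nil => intro _ _; exact SimpleGraph.Reachable.refl _
    | @cons a b c hadj p ih =>
      intro hx hy
      have hb : b ∈ (S : Set V) := hadj.2.2
      have : (G.induce (S : Set V)).Adj ⟨a, hx⟩ ⟨b, hb⟩ := hadj.1
      exact this.reachable.trans (ih hb hy)
  refine { preconnected := ?_, nonempty := ⟨⟨x0, hx0⟩⟩ }
  rintro ⟨x, hx⟩ ⟨y, hy⟩
  exact key x y (hS x hx y hy) hx hy

theorem induce_sconn {G : SimpleGraph V} {S : Finset V} (h : (G.induce (S : Set V)).Connected) :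
    SConn G S := by
  obtain ⟨⟨x0, hx0⟩⟩ := h.nonempty
  refine ⟨⟨x0, hx0⟩, fun x hx y hy => ?_⟩
  obtain ⟨p⟩ := h.preconnected ⟨x, hx⟩ ⟨y, hy⟩
  have key : ∀ u v : (S : Set V), (G.induce (S : Set V)).Walk u v → (res G S).Reachable u v := by
    intro u v p
    induction p with
    | nil => exact SimpleGraph.Reachable.refl _
    | @cons a b c hadj p ih =>
      have : (res G S).Adj a b := ⟨hadj, a.2, b.2⟩
      exact this.reachable.trans ih
  exact key _ _ p

theorem sconn_iff {G : SimpleGraph V} {S : Finset V} :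
    SConn G S ↔ (G.induce (S : Set V)).Connected := ⟨sconn_induce, induce_sconn⟩

theorem sconn_univ {G : SimpleGraph V} (h : G.Connected) : SConn G univ := by
  obtain ⟨x0⟩ := h.nonempty
  refine ⟨⟨x0, mem_univ _⟩, fun x _ y _ => ?_⟩
  refine (h.preconnected x y).mono ?_
  intro a b hab
  exact ⟨hab, mem_univ _, mem_univ _⟩

theorem connLab_induce {G : SimpleGraph V} {l : V → V} (hl : ConnLab G l) (x : V) :
    (G.induce {z | l z = l x}).Connected := by
  have key : ∀ u v, (within G l).Reachable u v →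
      ∀ (hu : u ∈ {z | l z = l x}) (hv : v ∈ {z | l z = l x}),
      (G.induce {z | l z = l x}).Reachable ⟨u, hu⟩ ⟨v, hv⟩ := by
    rintro u v ⟨p⟩
    induction p with
    | nil => intro _ _; exact SimpleGraph.Reachable.refl _
    | @cons a b c hadj p ih =>
      intro ha hc
      have hb : b ∈ {z | l z = l x} := hadj.2.symm.trans ha
      have : (G.induce {z | l z = l x}).Adj ⟨a, ha⟩ ⟨b, hb⟩ := hadj.1
      exact this.reachable.trans (ih hb hc)
  refine { preconnected := ?_, nonempty := ⟨⟨x, rfl⟩⟩ }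
  rintro ⟨u, hu⟩ ⟨v, hv⟩
  exact key u v (hl u v (hu.trans hv.symm)) hu hv

/-- The hypothesis of `fin` follows from `SparseMinors 3`. -/
theorem minorSparse_of_sparseMinors {G : SimpleGraph V} (h : SparseMinors 3 G) :
    MinorSparse G := by
  intro l hl S
  set W : Type := {a : V // a ∈ S ∧ a ∈ Set.range l} with hW
  set H : SimpleGraph W :=
    { Adj := fun a b => LAdj G l a b
      symm := ⟨fun a b hab => ⟨hab.1.symm, by
        obtain ⟨x, y, hx, hy, hxy⟩ := hab.2
        exact ⟨y, x, hy, hx, hxy.symm⟩⟩⟩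
      loopless := ⟨fun a ha => ha.1 rfl⟩ } with hH
  have hminor : IsMinor H G := by
    refine ⟨fun a => {z | l z = a}, ?_, ?_, ?_⟩
    · rintro ⟨a, ha, x, rfl⟩
      exact connLab_induce hl x
    · intro a b hab
      rw [Set.disjoint_left]
      intro z hz hz'
      exact hab (Subtype.ext (hz.symm.trans hz'))
    · rintro a b ⟨_, x, y, hx, hy, hxy⟩
      exact ⟨x, hx, y, hy, hxy⟩
  have h1 := h W H hminor
  have h2 : ∑ x : W, H.degree x = 2 * #H.edgeFinset := H.sum_degrees_eq_twice_card_edges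
  have h3 : Nat.card H.edgeSet = #H.edgeFinset := by
    rw [Nat.card_eq_fintype_card, SimpleGraph.edgeFinset_card]
  have h4 : Fintype.card W ≤ S.card := by
    rw [← Fintype.card_coe S]
    exact Fintype.card_le_of_injective (fun a => (⟨a.1, a.2.1⟩ : S)) (fun a b hab => by
      simp only [Subtype.mk.injEq] at hab
      exact Subtype.ext hab)
  have h5 : ((S ×ˢ S).filter (fun p => LAdj G l p.1 p.2)).card ≤ ∑ x : W, H.degree x := by
    have h6 : ∑ x : W, H.degree x =
        ((univ : Finset (W × W)).filter (fun p => H.Adj p.1 p.2)).card := by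
      rw [card_filter, Fintype.sum_prod_type]
      apply sum_congr rfl
      intro x _
      rw [← card_filter, ← SimpleGraph.card_neighborFinset_eq_degree]
      congr 1
      ext y
      simp
    rw [h6]
    have hrange : ∀ p ∈ (S ×ˢ S).filter (fun p => LAdj G l p.1 p.2),
        (p.1 ∈ S ∧ p.1 ∈ Set.range l) ∧ (p.2 ∈ S ∧ p.2 ∈ Set.range l) := by
      intro p hp
      rw [mem_filter, mem_product] at hp
      obtain ⟨⟨h7, h8⟩, -, x, y, hx, hy, -⟩ := hp
      exact ⟨⟨h7, x, hx⟩, ⟨h8, y, hy⟩⟩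
    refine card_le_card_of_surjOn (fun p : W × W => (p.1.1, p.2.1)) ?_
    intro p hp
    have hp' := hrange p hp
    rw [mem_coe, mem_filter] at hp
    refine ⟨(⟨p.1, hp'.1⟩, ⟨p.2, hp'.2⟩), ?_, rfl⟩
    simp only [coe_filter, mem_univ, true_and, Set.mem_ofPred_eq]
    exact hp.2
  rw [h2, ← h3] at h5
  omega

/-- `e2` counts the edges meeting `K` twice. -/
theorem e2_eq (G : SimpleGraph V) (K : Finset V) :
    e2 G K = 2 * (G.edgeFinset.filter (fun e => ∃ v ∈ K, v ∈ e)).card := by
  -- the graph of the edges meeting K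
  set H : SimpleGraph V :=
    { Adj := fun a b => G.Adj a b ∧ (a ∈ K ∨ b ∈ K)
      symm := ⟨fun a b hab => ⟨hab.1.symm, hab.2.symm⟩⟩
      loopless := ⟨fun a ha => G.loopless.irrefl _ ha.1⟩ } with hH
  have h1 : e2 G K = ∑ x : V, H.degree x := by
    unfold e2
    rw [card_filter, Fintype.sum_prod_type]
    apply sum_congr rfl
    intro x _
    rw [← card_filter, ← SimpleGraph.card_neighborFinset_eq_degree]
    congr 1
    ext y
    simp [hH]
  rw [h1, H.sum_degrees_eq_twice_card_edges]
  congr 2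
  ext e
  induction e using Sym2.ind with
  | _ a b =>
    simp only [SimpleGraph.mem_edgeFinset, SimpleGraph.mem_edgeSet, mem_filter, Sym2.mem_iff, hH]
    constructor
    · rintro ⟨h, h'⟩
      refine ⟨h, ?_⟩
      rcases h' with h' | h'
      · exact ⟨a, h', Or.inl rfl⟩
      · exact ⟨b, h', Or.inr rfl⟩
    · rintro ⟨h, v, hv, rfl | rfl⟩
      · exact ⟨h, Or.inl hv⟩
      · exact ⟨h, Or.inr hv⟩

end U5Fin
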