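import Pool.Agent.Helper98.U5.Chain

/-!
# From `T_lin` to a uniform gap below five
-/

set_option autoImplicit false
set_option linter.unusedSectionVars false

namespace Pool.Agent.U5

open SimpleGraph Finset Polynomial Pool.Agent.Helper36.BL
open scoped Classical

/-- colourings of a disjoint union -/
lemma cnt_union {V : Type} [Fintype V] (G : SimpleGraph V) (K : Finset V)
    (h : ∀ x y, G.Adj x y → (x ∈ K ↔ y ∈ K)) (N : ℕ) :
    cnt G N = cnt (G.comap (Subtype.val : {x // x ∈ K} → V)) N *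
      cnt (G.comap (Subtype.val : {x // x ∉ K} → V)) N := by
  unfold cnt
  rw [← Finset.card_product]
  refine Finset.card_bij' (fun c _ => (fun x => c x.1, fun x => c x.1))
    (fun c _ => fun x => if hx : x ∈ K then c.1 ⟨x, hx⟩ else c.2 ⟨x, hx⟩) ?_ ?_ ?_ ?_
  · intro c hc
    rw [mem_cols] at hc
    rw [Finset.mem_product, mem_cols, mem_cols]
    exact ⟨fun x y hxy => hc _ _ hxy, fun x y hxy => hc _ _ hxy⟩
  · intro c hc
    rw [Finset.mem_product, mem_cols, mem_cols] at hc
    rw [mem_cols]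
    intro x y hxy
    by_cases hx : x ∈ K
    · have hy : y ∈ K := (h x y hxy).1 hx
      rw [dif_pos hx, dif_pos hy]
      exact hc.1 _ _ hxy
    · have hy : y ∉ K := fun hy => hx ((h x y hxy).2 hy)
      rw [dif_neg hx, dif_neg hy]
      exact hc.2 _ _ hxy
  · intro c _
    funext x
    by_cases hx : x ∈ K
    · simp [hx]
    · simp [hx]
  · rintro ⟨c1, c2⟩ _
    simp only [Prod.mk.injEq]
    constructor
    · funext x
      rw [dif_pos x.2]
    · funext x
      rw [dif_neg x.2]

lemma cp_union {V : Type} [Fintype V] (G : SimpleGraph V) (K : Finset V)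
    (h : ∀ x y, G.Adj x y → (x ∈ K ↔ y ∈ K)) :
    cp G = cp (G.comap (Subtype.val : {x // x ∈ K} → V)) *
      cp (G.comap (Subtype.val : {x // x ∉ K} → V)) := by
  apply poly_ext
  intro N
  rw [Polynomial.eval_mul, cp_eval, cp_eval, cp_eval, cnt_union G K h N]
  push_cast
  rfl

lemma minor_comap {V : Type} (G : SimpleGraph V) (p : V → Prop) :
    IsMinor (G.comap (Subtype.val : {x // p x} → V)) G :=
  IsMinor.of_inj Subtype.val Subtype.val_injective (fun _ _ h => h)

/-- a minimal counterexample is connected -/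
lemma min_conn {Cl : Cls} {q : ℝ} {V : Type} [Fintype V] (hyp : Hyp Cl q (Fintype.card V))
    {G : SimpleGraph V} (hG : Cl.mem G) (h0 : P q G ≤ 0) : G.Connected := by
  have hne : Nonempty V := by
    by_contra hcon
    rw [not_nonempty_iff] at hcon
    have : P q G = 1 := by
      unfold P
      rw [cp_of_isEmpty G hcon]
      simp
    linarith
  refine { preconnected := ?_, nonempty := hne }
  intro u v
  by_contra hcon
  set K : Finset V := univ.filter (fun y => G.Reachable u y) with hK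
  have huK : u ∈ K := by rw [hK, Finset.mem_filter]; exact ⟨mem_univ _, Reachable.refl _⟩
  have hvK : v ∉ K := by rw [hK, Finset.mem_filter]; exact fun h => hcon h.2
  have hcl : ∀ x y, G.Adj x y → (x ∈ K ↔ y ∈ K) := by
    intro x y hxy
    rw [hK, Finset.mem_filter, Finset.mem_filter]
    constructor
    · rintro ⟨_, h⟩; exact ⟨mem_univ _, h.trans hxy.reachable⟩
    · rintro ⟨_, h⟩; exact ⟨mem_univ _, h.trans hxy.symm.reachable⟩
  have h1 : 0 < P q (G.comap (Subtype.val : {x // x ∈ K} → V)) :=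
    hyp _ _ (Cl.minor (minor_comap G (fun x => x ∈ K)) hG)
      (Fintype.card_subtype_lt (x := v) hvK)
  have h2 : 0 < P q (G.comap (Subtype.val : {x // x ∉ K} → V)) :=
    hyp _ _ (Cl.minor (minor_comap G (fun x => x ∉ K)) hG)
      (Fintype.card_subtype_lt (x := u) (by simpa using huK))
  have h3 : P q G = P q (G.comap (Subtype.val : {x // x ∈ K} → V)) *
      P q (G.comap (Subtype.val : {x // x ∉ K} → V)) := by
    unfold P
    rw [cp_union G K hcl, Polynomial.eval_mul]
  have := mul_pos h1 h2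
  linarith

/-- number of edges meeting `K` -/
lemma e2_eq_two_ned (V : Type) [Fintype V] (G : SimpleGraph V) (K : Finset V) :
    U5Fin.e2 G K = 2 * ned G (dl G K) := by
  rw [U5Fin.e2_eq]
  congr 1
  unfold ned
  rw [← Set.ncard_coe_finset]
  congr 1
  ext e
  induction e using Sym2.ind with
  | _ a b =>
    simp only [coe_filter, mem_edgeFinset, Set.mem_ofPred_eq, Set.mem_sdiff,
      mem_edgeSet, dl_adj, Sym2.mem_iff]
    constructor
    · rintro ⟨h, v, hv, rfl | rfl⟩
      · exact ⟨h, fun h' => h'.2.1 hv⟩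
      · exact ⟨h, fun h' => h'.2.2 hv⟩
    · rintro ⟨h, h'⟩
      refine ⟨h, ?_⟩
      by_cases ha : a ∈ K
      · exact ⟨a, ha, Or.inl rfl⟩
      · by_cases hb : b ∈ K
        · exact ⟨b, hb, Or.inr rfl⟩
        · exact absurd ⟨h, ha, hb⟩ h'

lemma e2_le_card (V : Type) [Fintype V] (G : SimpleGraph V) (K : Finset V) :
    U5Fin.e2 G K ≤ 2 * (K.card * (K.card + (U5Fin.nbr G K).card)) := by
  have hsub : (univ : Finset (V × V)).filter (fun p => G.Adj p.1 p.2 ∧ (p.1 ∈ K ∨ p.2 ∈ K)) ⊆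
      K ×ˢ (K ∪ U5Fin.nbr G K) ∪ (K ∪ U5Fin.nbr G K) ×ˢ K := by
    intro p hp
    simp only [Finset.mem_filter, mem_univ, true_and] at hp
    have hn : ∀ x y, G.Adj x y → x ∈ K → y ∈ K ∪ U5Fin.nbr G K := by
      intro x y hxy hx
      rw [Finset.mem_union]
      by_cases hy : y ∈ K
      · exact Or.inl hy
      · right
        unfold U5Fin.nbr
        rw [Finset.mem_filter]
        exact ⟨mem_univ _, hy, x, hx, hxy⟩
    rw [Finset.mem_union, Finset.mem_product, Finset.mem_product]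
    rcases hp.2 with h | h
    · exact Or.inl ⟨h, hn _ _ hp.1 h⟩
    · exact Or.inr ⟨hn _ _ hp.1.symm h, h⟩
  unfold U5Fin.e2
  refine le_trans (card_le_card hsub) (le_trans (card_union_le _ _) ?_)
  rw [card_product, card_product]
  have h1 := card_union_le K (U5Fin.nbr G K)
  have h2 := Nat.mul_le_mul_left K.card h1
  have h3 := Nat.mul_comm (K ∪ U5Fin.nbr G K).card K.card
  omega

lemma cs_pos98 {c0 : ℝ} (hc0 : 0 < c0) (m : ℕ) : 0 < cs c0 m := lt_min hc0 (by positivity)

lemma iter_pos98 {f : ℝ → ℝ} (hf : ∀ x, 0 < x → 0 < f x) (n : ℕ) {x : ℝ} (hx : 0 < x) :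
    0 < f^[n] x := by
  induction n with
  | zero => exact hx
  | succ n ih =>
    rw [Function.iterate_succ_apply']
    exact hf _ ih

lemma th_pos98 {c0 : ℝ} (hc0 : 0 < c0) : ∀ (m : ℕ) (l : ℝ), 0 < l → 0 < th c0 m l
  | 0, l, hl => mul_pos (cs_pos98 hc0 0) hl
  | m + 1, l, hl => by
    have ih := th_pos98 hc0 m
    refine lt_min (mul_pos hl (ih l hl)) (lt_min (mul_pos (cs_pos98 hc0 _) hl) ?_)
    have := iter_pos98 (f := fun x => min x (th c0 m x)) (fun x hx => lt_min hx (ih x hx)) (m + 1)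
      (show 0 < l / 2 by linarith)
    positivity

lemma st_pos98 {c0 : ℝ} (hc0 : 0 < c0) (m : ℕ) : 0 < st c0 m :=
  iter_pos98 (f := fun x => min x (th c0 m x))
    (fun x hx => lt_min hx (th_pos98 hc0 m x hx)) (m + 1) (by norm_num)

/-- small graphs have no zeros near five -/
lemma small_pos {Cl : Cls} {q : ℝ} {N : ℕ} (hN2 : 2 ≤ N) (hq : 5 - 4 / (3 * (N : ℝ)) < q)
    {V : Type} [Fintype V] {G : SimpleGraph V} (hG : Cl.mem G) (hV : Fintype.card V ≤ N) :
    0 < P q G := by
  refine pos_core N hN2 q hq _ V G rfl (Cl.k5 hG) ?_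
  intro W _ H hH _
  obtain ⟨B, hB1, hB2, _⟩ := hH
  have hne : ∀ w, ∃ x, x ∈ B w := fun w => by
    obtain ⟨⟨x, hx⟩⟩ := (hB1 w).nonempty
    exact ⟨x, hx⟩
  choose f hf using hne
  have hinj : Function.Injective f := by
    intro w w' hww
    by_contra hne'
    exact Set.disjoint_left.1 (hB2 w w' hne') (hf w) (by rw [hww]; exact hf w')
  have : Nat.card W ≤ Nat.card V := Nat.card_le_card_of_injective f hinj
  rw [Nat.card_eq_fintype_card (α := V)] at this
  omega

/-- `phi` is at least linear -/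
lemma phi_linear {η : ℝ} {c1 : ℕ} (hpr : Prm η c1) {n : ℕ} (hn : 1 ≤ n) :
    min (η / 2) (1 / ((c1 : ℝ) + 1)) * n ≤ phi η c1 n := by
  set e := min (η / 2) (1 / ((c1 : ℝ) + 1)) with he
  have h1 : e ≤ η / 2 := min_le_left _ _
  have h2 : e ≤ 1 / ((c1 : ℝ) + 1) := min_le_right _ _
  have hc : (0 : ℝ) < (c1 : ℝ) + 1 := by positivity
  have h2' : e * ((c1 : ℝ) + 1) ≤ 1 := by
    rw [le_div_iff₀ hc] at h2
    exact h2
  have hη := hpr.pos
  have h0 : 0 ≤ e := le_min (by linarith) (by positivity)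
  have hnR : (1 : ℝ) ≤ n := by exact_mod_cast hn
  rcases Nat.lt_or_ge (2 * c1) n with h3 | h3
  · have hn2 : 2 ≤ n := by have := hpr.ten; omega
    rw [phi_two hn2]
    unfold psi
    have h4 : ((n - c1 : ℕ) : ℝ) = (n : ℝ) - c1 := by
      rw [Nat.cast_sub (by omega)]
    rw [h4]
    have h5 : (2 * (c1 : ℝ)) < n := by exact_mod_cast h3
    nlinarith
  · have h5 : (n : ℝ) ≤ 2 * c1 := by exact_mod_cast h3
    have h6 : e * n ≤ 2 := by nlinarith
    rcases Nat.lt_or_ge n 2 with h7 | h7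
    · have : n = 1 := by omega
      rw [this, phi_one]
      rw [this] at h6
      exact_mod_cast h6
    · rw [phi_two h7]
      have := psi_nonneg hpr n
      linarith

/-- **Assembly.** `T_lin` for a minor closed class of `K₅`-minor-free graphs with at most `3 n`
edges gives a uniform gap below five. -/
theorem uniform_gap (Cl : Cls)
    (hsp : ∀ (V : Type) [Fintype V] (G : SimpleGraph V), Cl.mem G → U5Fin.MinorSparse G)
    {c0 η : ℝ} {c1 : ℕ} (hc0 : 0 < c0) (hpr : Prm η c1) (hT : TLin Cl c0 η c1) :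
    ∃ ε : ℝ, 0 < ε ∧ ∀ q : ℝ, 5 - ε < q → q < 5 → ∀ (V : Type) [Fintype V] (G : SimpleGraph V),
      Cl.mem G → 0 < P q G := by
  set e := min (η / 2) (1 / ((c1 : ℝ) + 1)) with he
  have hη := hpr.pos
  have he0 : 0 < e := lt_min (by linarith) (by positivity)
  have he1 : e ≤ 1 := by
    refine le_trans (min_le_right _ _) ?_
    rw [div_le_one (by positivity)]
    have : (0 : ℝ) ≤ c1 := Nat.cast_nonneg _
    linarith
  obtain ⟨s, hs⟩ := U5Fin.fin e he0 he1
  set m : ℕ := s * (s + s) with hm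
  have hst : 0 < st c0 m := st_pos98 hc0 m
  refine ⟨min (st c0 m) (4 / (3 * ((s + 2 : ℕ) : ℝ))), lt_min hst (by positivity), ?_⟩
  intro q hq hq5
  have hq1 : 5 - st c0 m < q := by
    have := min_le_left (st c0 m) (4 / (3 * ((s + 2 : ℕ) : ℝ)))
    linarith
  have hq2 : 5 - 4 / (3 * ((s + 2 : ℕ) : ℝ)) < q := by
    have := min_le_right (st c0 m) (4 / (3 * ((s + 2 : ℕ) : ℝ)))
    linarith
  by_contra hcon
  push Not at hcon
  -- minimal number of vertices
  have hex : ∃ n : ℕ, ∃ (V : Type) (_ : Fintype V) (G : SimpleGraph V), Fintype.card V = n ∧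
      Cl.mem G ∧ P q G ≤ 0 := by
    obtain ⟨V, iV, G, h1, h2⟩ := hcon
    exact ⟨Fintype.card V, V, iV, G, rfl, h1, h2⟩
  obtain ⟨V, iV, G0, hV, hG0, hP0⟩ := Nat.find_spec hex
  have hyp : Hyp Cl q (Fintype.card V) := by
    intro W iW X hX hlt
    rw [hV] at hlt
    by_contra hneg
    exact Nat.find_min hex hlt ⟨W, iW, X, rfl, hX, not_lt.1 hneg⟩
  -- edge minimal
  obtain ⟨G, hGmem, hGmin⟩ : ∃ G : SimpleGraph V, (Cl.mem G ∧ P q G ≤ 0) ∧
      ∀ X, X < G → ¬ (Cl.mem X ∧ P q X ≤ 0) := by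
    have hwf : WellFounded ((· < ·) : SimpleGraph V → SimpleGraph V → Prop) := wellFounded_lt
    obtain ⟨G, hG, hmin⟩ := hwf.has_min {X : SimpleGraph V | Cl.mem X ∧ P q X ≤ 0}
      ⟨G0, hG0, hP0⟩
    exact ⟨G, hG, fun X hX hX' => hmin X hX' hX⟩
  obtain ⟨hG, h0⟩ := hGmem
  have hmin : ∀ X, X < G → 0 < P q X := by
    intro X hX
    by_contra hneg
    exact hGmin X hX ⟨Cl.minor (IsMinor.of_le hX.le) hG, not_lt.1 hneg⟩
  have hpar : Par Cl c0 q V := ⟨hc0, hq5, hyp⟩
  have hconn := min_conn hyp hG h0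
  -- large
  have hbig : s + 2 < Fintype.card V := by
    by_contra hle
    have := small_pos (by omega) hq2 hG (not_lt.1 hle)
    linarith
  have hnt : Nontrivial V := Fintype.one_lt_card_iff_nontrivial.1 (by omega)
  obtain ⟨v, hv⟩ := hconn.exists_connected_induce_compl_singleton_of_finite_nontrivial
  obtain ⟨K, hK1, hK2, hK3, hK4, hK5⟩ := hs V G (hsp V G hG) (U5Fin.sconn_univ hconn)
    ⟨v, by
      apply U5Fin.induce_sconn
      have : ((univ.erase v : Finset V) : Set V) = {v}ᶜ := by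
        ext x; simp
      rw [this]
      exact hv⟩ (by omega)
  -- all vertices of K are active
  have hactG : act G K = K := by
    ext x
    rw [mem_act]
    constructor
    · exact fun h => h.1
    · intro hx
      refine ⟨hx, ?_⟩
      obtain ⟨y, hy⟩ := exists_ne x
      obtain ⟨p⟩ := hconn.preconnected x y
      cases p with
      | nil => exact absurd rfl hy
      | cons hadj _ => exact ⟨_, hadj⟩
  have hKpos : 1 ≤ K.card := card_pos.2 hK3.1
  -- base
  have hne : dl G K ≠ G := by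
    intro h
    obtain ⟨x, hx⟩ := hK3.1
    have hx' : x ∈ act G K := by rw [hactG]; exact hx
    obtain ⟨_, y, hxy⟩ := mem_act.1 hx'
    rw [← h] at hxy
    exact hxy.2.1 hx
  have hle : dl G K ≤ G := fun x y h => h.1
  have htwo := e2_eq_two_ned V G K
  have hm' : ned G (dl G K) ≤ m := by
    have h1 := e2_le_card V G K
    rw [htwo] at h1
    have h2 : K.card * (K.card + (U5Fin.nbr G K).card) ≤ s * (s + s) :=
      Nat.mul_le_mul hK1 (Nat.add_le_add hK1 hK2)
    omega
  have hKc : ((dl G K).induce {x | x ∉ K}).Connected := by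
    have h1 := U5Fin.sconn_induce hK4
    have h2 : ((Kᶜ : Finset V) : Set V) = {x | x ∉ K} := by ext x; simp
    rw [h2] at h1
    refine h1.mono ?_
    intro x y hxy
    exact ⟨hxy, x.2, y.2⟩
  have hchain := chain hpr hT hpar hq1 hG h0 hmin _ (dl G K) K rfl hm' hle hne
    (fun x hx y hxy => hxy.2.1 hx) hKc
  rw [hactG] at hchain
  have hlin := phi_linear hpr hKpos
  have h5 : (U5Fin.e2 G K : ℝ) = 2 * (ned G (dl G K) : ℝ) := by
    rw [htwo]; push_cast; ring
  rw [h5] at hK5
  have : e * (K.card : ℝ) ≤ phi η c1 K.card := hlin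
  nlinarith

end Pool.Agent.U5
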