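import Pool.Agent.U5.Frame
import Pool.Agent.U5.Small
import Pool.Agent.Helper98.U5.Bridge

/-!
# From `T_lin` to bounded sets in the minimal counterexample (module T-N)
-/

set_option autoImplicit false
set_option linter.unusedSectionVars false

namespace Pool.Agent.U5

open SimpleGraph Finset Pool.Agent.Helper36.BL
open scoped Classical

/-- Theorem `T_lin` as a statement. -/
def TLin (Cl : Cls) (c0 η : ℝ) (c1 : ℕ) : Prop :=
  ∀ (q : ℝ) (V : Type) [Fintype V], Par Cl c0 q V → ∀ (m : ℕ) (B H : SimpleGraph V) (S : Finset V),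
    Crt Cl c0 q m B H → Data B H S → phi η c1 (act H S).card ≤ (pot B H S : ℝ)

section

variable {V : Type} [Fintype V]

lemma ned_add {B H G : SimpleGraph V} (h1 : B ≤ H) (h2 : H ≤ G) :
    ned G B = ned G H + ned H B := by
  unfold ned
  have e1 : B.edgeSet ⊆ H.edgeSet := edgeSet_mono h1
  have e2 : H.edgeSet ⊆ G.edgeSet := edgeSet_mono h2
  have e3 : G.edgeSet \ B.edgeSet = (G.edgeSet \ H.edgeSet) ∪ (H.edgeSet \ B.edgeSet) := by
    ext x
    simp only [Set.mem_sdiff, Set.mem_union]
    constructor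
    · rintro ⟨h3, h4⟩
      by_cases h5 : x ∈ H.edgeSet
      · exact Or.inr ⟨h5, h4⟩
      · exact Or.inl ⟨h3, h5⟩
    · rintro (⟨h3, h4⟩ | ⟨h3, h4⟩)
      · exact ⟨h3, fun h5 => h4 (e1 h5)⟩
      · exact ⟨e2 h3, h4⟩
  rw [e3, Set.ncard_union_eq]
  · rw [Set.disjoint_left]
    rintro x ⟨_, h3⟩ ⟨h4, _⟩
    exact h3 h4

lemma ned_pos98 {B H : SimpleGraph V} (h1 : B ≤ H) (h2 : B ≠ H) : 0 < ned H B := by
  unfold ned
  rw [Set.ncard_pos (Set.toFinite _)]
  by_contra h
  rw [Set.not_nonempty_iff_eq_empty, Set.sdiff_eq_empty] at h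
  exact h2 (le_antisymm h1 (edgeSet_subset_edgeSet.1 h))

/-- A graph without edges at `S'` is connected off `S'` if all vertices off `S'` are connected. -/
lemma conn_induce {H : SimpleGraph V} {S' : Finset V} (hne : ∃ x, x ∉ S')
    (hiso : ∀ s ∈ S', ∀ x, ¬ H.Adj s x) (hr : ∀ x y, x ∉ S' → y ∉ S' → H.Reachable x y) :
    (H.induce {x | x ∉ S'}).Connected := by
  have key : ∀ x y, H.Reachable x y → ∀ (hx : x ∈ {x | x ∉ S'}) (hy : y ∈ {x | x ∉ S'}),
      (H.induce {x | x ∉ S'}).Reachable ⟨x, hx⟩ ⟨y, hy⟩ := by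
    rintro x y ⟨p⟩
    induction p with
    | nil => intro _ _; exact Reachable.refl _
    | @cons u v w hadj p ih =>
      intro hx hy
      have hv : v ∈ {x | x ∉ S'} := fun h => hiso v h u hadj.symm
      have h1 : (H.induce {x | x ∉ S'}).Adj ⟨u, hx⟩ ⟨v, hv⟩ := hadj
      exact h1.reachable.trans (ih hv hy)
  obtain ⟨x0, hx0⟩ := hne
  refine { preconnected := ?_, nonempty := ⟨⟨x0, hx0⟩⟩ }
  rintro ⟨x, hx⟩ ⟨y, hy⟩
  exact key x y (hr x y hx hy) hx hy

variable {Cl : Cls} {c0 q : ℝ}

/-- a critical graph is connected off its inactive vertices -/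
lemma crt_conn (hp : Par Cl c0 q V) {m : ℕ} {B H : SimpleGraph V} (h : Crt Cl c0 q m B H)
    {S : Finset V} (hd : Data B H S) : (H.induce {x | x ∉ S \ act H S}).Connected := by
  have hB : ∀ x y, x ∉ S → y ∉ S → H.Reachable x y := by
    intro x y hx hy
    have h1 := hd.conn.preconnected ⟨x, hx⟩ ⟨y, hy⟩
    have h2 := h1.map (Embedding.induce (G := B) {x | x ∉ S}).toHom
    exact Reachable.mono hd.le h2
  have hout : ∀ x, x ∈ act H S → ∃ y, y ∉ S ∧ H.Reachable x y := by
    intro x hx
    by_contra hcon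
    push Not at hcon
    set K : Finset V := univ.filter (fun y => H.Reachable x y) with hK
    have hKS : ∀ y ∈ K, y ∈ S := by
      intro y hy
      by_contra hyS
      exact hcon y hyS (Finset.mem_filter.1 hy).2
    refine Crt.cut hp h ∅ K (by simp) (by simp) (by simp) (fun s hs => hd.iso s (hKS s hs)) ?_ ?_
    · refine ⟨x, ?_, (mem_act.1 hx).2⟩
      rw [hK, Finset.mem_filter]
      exact ⟨mem_univ _, Reachable.refl _⟩
    · intro s hs y hsy
      left
      rw [hK, Finset.mem_filter] at hs ⊢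
      exact ⟨mem_univ _, hs.2.trans hsy.reachable⟩
  have hout' : ∀ x, x ∉ S \ act H S → ∃ y, y ∉ S ∧ H.Reachable x y := by
    intro x hx
    by_cases hxS : x ∈ S
    · apply hout
      by_contra h1
      exact hx (Finset.mem_sdiff.2 ⟨hxS, h1⟩)
    · exact ⟨x, hxS, Reachable.refl _⟩
  refine conn_induce ?_ ?_ ?_
  · obtain ⟨⟨x0, hx0⟩⟩ := hd.conn.nonempty
    exact ⟨x0, fun h => hx0 (Finset.mem_sdiff.1 h).1⟩
  · intro s hs x hsx
    rw [Finset.mem_sdiff] at hs
    exact hs.2 (mem_act.2 ⟨hs.1, x, hsx⟩)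
  · intro x y hx hy
    obtain ⟨x', hx', h1⟩ := hout' x hx
    obtain ⟨y', hy', h2⟩ := hout' y hy
    exact h1.trans ((hB x' y' hx' hy').trans h2.symm)

/-- The chain of critical graphs from `B` to the minimal counterexample `G`. -/
theorem chain {η : ℝ} {c1 : ℕ} (hpr : Prm η c1) (hT : TLin Cl c0 η c1) (hp : Par Cl c0 q V)
    {m : ℕ} (hq : 5 - st c0 m < q) {G : SimpleGraph V} (hG : Cl.mem G) (h0 : P q G ≤ 0)
    (hmin : ∀ X, X < G → 0 < P q X) :
    ∀ (k : ℕ) (B : SimpleGraph V) (S : Finset V), ned G B = k → k ≤ m → B ≤ G → B ≠ G →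
      (∀ s ∈ S, ∀ x, ¬ B.Adj s x) → (B.induce {x | x ∉ S}).Connected →
      phi η c1 (act G S).card ≤ (ned G B : ℝ) - 3 * ((act G S).card : ℝ) := by
  intro k
  induction k using Nat.strong_induction_on with
  | _ k ih =>
  intro B S hk hkm hBG hne hiso hconn
  have hB : 0 < P q B := hmin B (lt_of_le_of_ne hBG hne)
  obtain ⟨H, hHG, hH⟩ := exists_crt hp hq hBG hG (by omega) hB h0
  have hd : Data B H S := ⟨hH.le, hiso, hconn⟩
  have h1 := hT q V hp m B H S hH hd
  unfold pot at h1
  push_cast at h1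
  by_cases hHG' : H = G
  · rw [hHG'] at h1
    exact h1
  · have hadd := ned_add hH.le hHG
    have hpos := ned_pos98 hH.le hH.ne
    have h2 := ih (ned G H) (by omega) H (S \ act H S) rfl (by omega) hHG hHG'
      (by
        intro s hs x hsx
        rw [Finset.mem_sdiff] at hs
        exact hs.2 (mem_act.2 ⟨hs.1, x, hsx⟩))
      (crt_conn hp hH hd)
    have hsub : act H S ⊆ act G S := by
      intro s hs
      rw [mem_act] at hs ⊢
      obtain ⟨h3, x, h4⟩ := hs
      exact ⟨h3, x, hHG h4⟩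
    have hact : act G (S \ act H S) = act G S \ act H S := by
      ext s
      simp only [mem_act, Finset.mem_sdiff]
      tauto
    have hcard : (act G S).card = (act G (S \ act H S)).card + (act H S).card := by
      rw [hact, Finset.card_sdiff_add_card_eq_card hsub]
    have hphi : phi η c1 (act G S).card ≤
        phi η c1 (act G (S \ act H S)).card + phi η c1 (act H S).card := by
      rw [hcard]
      rcases Nat.eq_zero_or_pos (act G (S \ act H S)).card with h5 | h5
      · rw [h5, Nat.zero_add, phi_zero]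
        linarith
      · rcases Nat.eq_zero_or_pos (act H S).card with h6 | h6
        · rw [h6, Nat.add_zero, phi_zero]
          linarith
        · exact phi_add hpr h5 h6
    have e1 : (ned G B : ℝ) = ned G H + ned H B := by exact_mod_cast hadd
    have e2 : ((act G S).card : ℝ) = (act G (S \ act H S)).card + (act H S).card := by
      exact_mod_cast hcard
    rw [e1, e2]
    linarith

end

end Pool.Agent.U5
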