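import Pool.Agent.Helper1.PG.Data

/-!
# Corners and local rotations from `PlaneData`
-/

namespace U5Dis

open Finset Classical Pool.Agent.Helper1.PG

variable {V F : Type} [Fintype V] [Fintype F] {Γ : SimpleGraph V} (D : PlaneData Γ F)

instance instNZdeg (v : V) : NeZero (D.deg v) := ⟨by have := D.two_le_deg v; omega⟩

instance instNZlen (f : F) : NeZero (D.len f) := ⟨by have := D.three_le_len f; omega⟩

/-- `v` lies on `f` -/
def Von (f : F) (v : V) : Prop := ∃ w, D.on f v w

theorem zmod_one_ne {n : ℕ} (hn : 2 ≤ n) : (1 : ZMod n) ≠ 0 := by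
  intro h
  have h1 := (ZMod.natCast_eq_zero_iff 1 n).1 (by simpa using h)
  have := Nat.dvd_one.1 h1
  omega

theorem zmod_two_ne {n : ℕ} (hn : 3 ≤ n) : (2 : ZMod n) ≠ 0 := by
  intro h
  have h1 := (ZMod.natCast_eq_zero_iff 2 n).1 (by simpa using h)
  have := Nat.le_of_dvd two_pos h1
  omega

theorem on_corner (v : V) (m : ZMod (D.deg v)) (w : V) :
    D.on (D.fc v m) v w ↔ w = D.nb v m ∨ w = D.nb v (m + 1) := by
  constructor
  · intro h
    obtain ⟨j, rfl⟩ := (D.adj_iff v w).1 (D.on_adj _ _ _ h)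
    rw [D.on_iff] at h
    rcases h with h | h
    · left; rw [D.fc_inj v h]
    · right
      have := D.fc_inj v h
      rw [this, sub_add_cancel]
  · rintro (rfl | rfl)
    · rw [D.on_iff]; exact Or.inl rfl
    · rw [D.on_iff]; right; rw [add_sub_cancel_right]

theorem on_face (f : F) (i : ZMod (D.len f)) (w : V) :
    D.on f (D.vx f i) w ↔ w = D.vx f (i - 1) ∨ w = D.vx f (i + 1) := by
  rw [D.on_vx]
  constructor
  · rintro ⟨j, ⟨h1, h2⟩ | ⟨h1, h2⟩⟩
    · right; rw [h2, D.vx_inj f h1]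
    · left
      have := D.vx_inj f h2
      rw [h1, this, add_sub_cancel_right]
  · rintro (rfl | rfl)
    · exact ⟨i - 1, Or.inr ⟨rfl, by rw [sub_add_cancel]⟩⟩
    · exact ⟨i, Or.inl ⟨rfl, rfl⟩⟩

theorem von_iff_fc (f : F) (v : V) : Von D f v ↔ ∃ m, D.fc v m = f := by
  constructor
  · rintro ⟨w, h⟩
    obtain ⟨j, rfl⟩ := (D.adj_iff v w).1 (D.on_adj _ _ _ h)
    rw [D.on_iff] at h
    rcases h with h | h
    · exact ⟨j, h.symm⟩
    · exact ⟨j - 1, h.symm⟩
  · rintro ⟨m, rfl⟩
    exact ⟨D.nb v m, by rw [D.on_iff]; exact Or.inl rfl⟩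

theorem von_iff_vx (f : F) (v : V) : Von D f v ↔ ∃ i, D.vx f i = v := by
  constructor
  · rintro ⟨w, h⟩
    rw [D.on_vx] at h
    obtain ⟨i, ⟨h1, -⟩ | ⟨-, h1⟩⟩ := h
    · exact ⟨i, h1.symm⟩
    · exact ⟨i + 1, h1.symm⟩
  · rintro ⟨i, rfl⟩
    exact ⟨D.vx f (i + 1), (on_face D f i _).2 (Or.inr rfl)⟩

theorem on_symm' {f : F} {u v : V} (h : D.on f u v) : D.on f v u := D.on_symm _ _ _ h

theorem on_ne {f : F} {u v : V} (h : D.on f u v) : u ≠ v := (D.on_adj _ _ _ h).ne

/-- summation over the corners at a vertex -/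
theorem sum_fc (v : V) (φ : F → ℤ) :
    ∑ m, φ (D.fc v m) = ∑ f ∈ univ.filter (fun f => Von D f v), φ f := by
  rw [← sum_image (s := univ) (g := D.fc v) (f := φ) (fun x _ y _ h => D.fc_inj v h)]
  apply sum_congr _ (fun _ _ => rfl)
  ext f
  simp only [mem_image, mem_univ, true_and, mem_filter]
  exact (von_iff_fc D f v).symm

theorem sum_vx (f : F) (φ : V → ℤ) :
    ∑ i, φ (D.vx f i) = ∑ v ∈ univ.filter (fun v => Von D f v), φ v := by
  rw [← sum_image (s := univ) (g := D.vx f) (f := φ) (fun x _ y _ h => D.vx_inj f h)]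
  apply sum_congr _ (fun _ _ => rfl)
  ext v
  simp only [mem_image, mem_univ, true_and, mem_filter]
  exact (von_iff_vx D f v).symm

/-- double counting of corners -/
theorem sum_corners (φ : V → F → ℤ) :
    ∑ v, ∑ f ∈ univ.filter (fun f => Von D f v), φ v f =
      ∑ f, ∑ v ∈ univ.filter (fun v => Von D f v), φ v f := by
  simp_rw [sum_filter]
  rw [sum_comm]

theorem card_faces_at (v : V) : (univ.filter (fun f => Von D f v)).card = D.deg v := by
  have : univ.filter (fun f => Von D f v) = univ.image (D.fc v) := by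
    ext f
    simp only [mem_filter, mem_univ, true_and, mem_image]
    exact von_iff_fc D f v
  rw [this, card_image_of_injective _ (D.fc_inj v), card_univ, ZMod.card]

theorem card_face_verts (f : F) : (univ.filter (fun v => Von D f v)).card = D.len f := by
  have : univ.filter (fun v => Von D f v) = univ.image (D.vx f) := by
    ext v
    simp only [mem_filter, mem_univ, true_and, mem_image]
    exact von_iff_vx D f v
  rw [this, card_image_of_injective _ (D.vx_inj f), card_univ, ZMod.card]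

theorem card_nbrs (v : V) : (univ.filter (fun w => Γ.Adj v w)).card = D.deg v := by
  have : univ.filter (fun w => Γ.Adj v w) = univ.image (D.nb v) := by
    ext w
    simp only [mem_filter, mem_univ, true_and, mem_image]
    exact D.adj_iff v w
  rw [this, card_image_of_injective _ (D.nb_inj v), card_univ, ZMod.card]

/-- on a triangular face all pairs of vertices are adjacent -/
theorem tri_adj {f : F} (hf : D.len f = 3) {u v w : V} (h1 : D.on f u v) (h2 : D.on f u w)
    (hvw : v ≠ w) : D.on f v w := by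
  obtain ⟨i, rfl⟩ := (von_iff_vx D f u).1 ⟨v, h1⟩
  rw [on_face] at h1 h2
  have key : D.on f (D.vx f (i - 1)) (D.vx f (i + 1)) := by
    rw [on_face]
    left
    congr 1
    have h3 : (3 : ZMod (D.len f)) = 0 := by
      have := (ZMod.natCast_eq_zero_iff 3 (D.len f)).2 (by rw [hf])
      simpa using this
    linear_combination h3
  rcases h1 with rfl | rfl <;> rcases h2 with rfl | rfl
  · exact absurd rfl hvw
  · exact key
  · exact on_symm' D key
  · exact absurd rfl hvw

/-- A local rotation at `v`, indexed by the integers. -/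
structure IsRot (v : V) (z : ℤ → V) (g : ℤ → F) : Prop where
  zeq : ∀ i j, z i = z j ↔ (D.deg v : ℤ) ∣ i - j
  geq : ∀ i j, g i = g j ↔ (D.deg v : ℤ) ∣ i - j
  adj : ∀ w, Γ.Adj v w ↔ ∃ i, z i = w
  onz : ∀ i w, D.on (g i) v w ↔ w = z i ∨ w = z (i + 1)
  von : ∀ f, Von D f v → ∃ i, g i = f

theorem cast_eq_iff {n : ℕ} (i j : ℤ) : ((i : ℤ) : ZMod n) = ((j : ℤ) : ZMod n) ↔
    (n : ℤ) ∣ i - j := by
  rw [ZMod.intCast_eq_intCast_iff_dvd_sub, ← dvd_neg, neg_sub]

theorem rot_pos (v : V) (k : ZMod (D.deg v)) :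
    IsRot D v (fun i => D.nb v (k + (i : ZMod (D.deg v))))
      (fun i => D.fc v (k + (i : ZMod (D.deg v)))) := by
  refine ⟨?_, ?_, ?_, ?_, ?_⟩
  · intro i j
    rw [(D.nb_inj v).eq_iff, add_right_inj, cast_eq_iff]
  · intro i j
    rw [(D.fc_inj v).eq_iff, add_right_inj, cast_eq_iff]
  · intro w
    rw [D.adj_iff]
    constructor
    · rintro ⟨i, rfl⟩
      refine ⟨((i - k : ZMod (D.deg v)).cast : ℤ), ?_⟩
      simp
    · rintro ⟨i, rfl⟩
      exact ⟨_, rfl⟩
  · intro i w
    rw [on_corner]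
    push_cast
    rw [add_assoc]
  · intro f hf
    obtain ⟨m, rfl⟩ := (von_iff_fc D f v).1 hf
    refine ⟨((m - k : ZMod (D.deg v)).cast : ℤ), ?_⟩
    simp

theorem rot_neg (v : V) (k : ZMod (D.deg v)) :
    IsRot D v (fun i => D.nb v (k - (i : ZMod (D.deg v))))
      (fun i => D.fc v (k - (i : ZMod (D.deg v)) - 1)) := by
  refine ⟨?_, ?_, ?_, ?_, ?_⟩
  · intro i j
    rw [(D.nb_inj v).eq_iff, sub_right_inj, cast_eq_iff]
  · intro i j
    rw [(D.fc_inj v).eq_iff, sub_left_inj, sub_right_inj, cast_eq_iff]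
  · intro w
    rw [D.adj_iff]
    constructor
    · rintro ⟨i, rfl⟩
      refine ⟨((k - i : ZMod (D.deg v)).cast : ℤ), ?_⟩
      simp
    · rintro ⟨i, rfl⟩
      exact ⟨_, rfl⟩
  · intro i w
    rw [on_corner]
    push_cast
    rw [sub_add_cancel, or_comm, sub_sub]
  · intro f hf
    obtain ⟨m, rfl⟩ := (von_iff_fc D f v).1 hf
    refine ⟨((k - m - 1 : ZMod (D.deg v)).cast : ℤ), ?_⟩
    simp only [ZMod.intCast_cast, ZMod.cast_id', id_eq]
    congr 1
    ring

theorem IsRot.shift {v : V} {z : ℤ → V} {g : ℤ → F} (h : IsRot D v z g) (s : ℤ) :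
    IsRot D v (fun i => z (i + s)) (fun i => g (i + s)) := by
  refine ⟨?_, ?_, ?_, ?_, ?_⟩
  · intro i j
    rw [h.zeq]
    ring_nf
  · intro i j
    rw [h.geq]
    ring_nf
  · intro w
    rw [h.adj]
    constructor
    · rintro ⟨i, rfl⟩
      exact ⟨i - s, by simp⟩
    · rintro ⟨i, rfl⟩
      exact ⟨_, rfl⟩
  · intro i w
    rw [h.onz]
    rw [show i + s + 1 = i + 1 + s by ring]
  · intro f hf
    obtain ⟨i, rfl⟩ := h.von f hf
    exact ⟨i - s, by simp⟩

/-- there is a local rotation starting at a given neighbour and a given face at it -/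
theorem exists_rot {v x : V} {f : F} (h : D.on f v x) :
    ∃ z g, IsRot D v z g ∧ z 0 = x ∧ g 0 = f := by
  obtain ⟨j, rfl⟩ := (D.adj_iff v x).1 (D.on_adj _ _ _ h)
  rw [D.on_iff] at h
  rcases h with rfl | rfl
  · exact ⟨_, _, rot_pos D v j, by simp, by simp⟩
  · exact ⟨_, _, rot_neg D v j, by simp, by simp⟩

theorem exists_rot' (v : V) : ∃ z g, IsRot D v z g := ⟨_, _, rot_pos D v 0⟩

theorem IsRot.vadj {v : V} {z : ℤ → V} {g : ℤ → F} (h : IsRot D v z g) (i : ℤ) :
    Γ.Adj v (z i) := (h.adj _).2 ⟨i, rfl⟩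

theorem IsRot.on1 {v : V} {z : ℤ → V} {g : ℤ → F} (h : IsRot D v z g) (i : ℤ) :
    D.on (g i) v (z i) := (h.onz _ _).2 (Or.inl rfl)

theorem IsRot.on2 {v : V} {z : ℤ → V} {g : ℤ → F} (h : IsRot D v z g) (i : ℤ) :
    D.on (g i) v (z (i + 1)) := (h.onz _ _).2 (Or.inr rfl)

/-- the two faces at the edge `v (z i)` -/
theorem IsRot.faces {v : V} {z : ℤ → V} {g : ℤ → F} (h : IsRot D v z g) (i : ℤ) (f : F)
    (hf : D.on f v (z i)) : f = g i ∨ f = g (i - 1) := by
  obtain ⟨j, rfl⟩ := h.von f ⟨_, hf⟩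
  rw [h.onz] at hf
  rcases hf with hf | hf
  · left
    rw [h.zeq] at hf
    rw [h.geq, ← dvd_neg, neg_sub]
    exact hf
  · right
    rw [h.zeq] at hf
    rw [h.geq, ← dvd_neg, show -(j - (i - 1)) = i - (j + 1) by ring]
    exact hf

/-- sum over the faces at a vertex of degree five -/
theorem IsRot.sum_five {v : V} {z : ℤ → V} {g : ℤ → F} (h : IsRot D v z g) (h5 : D.deg v = 5)
    (φ : F → ℤ) : ∑ f ∈ univ.filter (fun f => Von D f v), φ f =
      φ (g 0) + φ (g 1) + φ (g 2) + φ (g 3) + φ (g 4) := by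
  have hne : ∀ i j : ℤ, 0 ≤ i → i < 5 → 0 ≤ j → j < 5 → i ≠ j → g i ≠ g j := by
    intro i j h1 h2 h3 h4 hij hg
    rw [h.geq, h5] at hg
    omega
  have himg : univ.filter (fun f => Von D f v) = {g 0, g 1, g 2, g 3, g 4} := by
    ext f
    simp only [mem_filter, mem_univ, true_and, mem_insert, mem_singleton]
    constructor
    · intro hf
      obtain ⟨i, rfl⟩ := h.von f hf
      have : g i = g (i % 5) := by
        rw [h.geq, h5]
        omega
      rw [this]
      have h1 : 0 ≤ i % 5 := by omega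
      have h2 : i % 5 < 5 := by omega
      generalize i % 5 = k at h1 h2
      interval_cases k <;> simp
    · rintro (rfl | rfl | rfl | rfl | rfl)
      · exact ⟨_, h.on1 D 0⟩
      · exact ⟨_, h.on1 D 1⟩
      · exact ⟨_, h.on1 D 2⟩
      · exact ⟨_, h.on1 D 3⟩
      · exact ⟨_, h.on1 D 4⟩
  rw [himg, sum_insert, sum_insert, sum_insert, sum_insert, sum_singleton]
  · ring
  · simp only [mem_singleton]
    exact hne 3 4 (by omega) (by omega) (by omega) (by omega) (by omega)
  · simp only [mem_insert, mem_singleton, not_or]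
    exact ⟨hne 2 3 (by omega) (by omega) (by omega) (by omega) (by omega),
      hne 2 4 (by omega) (by omega) (by omega) (by omega) (by omega)⟩
  · simp only [mem_insert, mem_singleton, not_or]
    exact ⟨hne 1 2 (by omega) (by omega) (by omega) (by omega) (by omega),
      hne 1 3 (by omega) (by omega) (by omega) (by omega) (by omega),
      hne 1 4 (by omega) (by omega) (by omega) (by omega) (by omega)⟩
  · simp only [mem_insert, mem_singleton, not_or]
    exact ⟨hne 0 1 (by omega) (by omega) (by omega) (by omega) (by omega),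
      hne 0 2 (by omega) (by omega) (by omega) (by omega) (by omega),
      hne 0 3 (by omega) (by omega) (by omega) (by omega) (by omega),
      hne 0 4 (by omega) (by omega) (by omega) (by omega) (by omega)⟩

end U5Dis
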