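import Pool.Agent.Helper98.U5.NeedyMain

/-!
# Section 7: everything is near a positive object; counting
-/

set_option linter.unusedSectionVars false

namespace U5Dis

open Finset Classical Pool.Agent.Helper1.PG

variable {V F : Type} [Fintype V] [Fintype F] {Γ : SimpleGraph V}

/-- flat vertex -/
def Flat (D : PlaneData Γ F) (o : V) (a d : V → ℕ) (v : V) : Prop :=
  v ≠ o ∧ a v = 0 ∧ d v = 6 ∧ ∀ f, Von D f v → D.len f = 3

/-- `v` is joined to a vertex which is not flat by a walk of length at most `k` avoiding `o` -/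
def NFk (D : PlaneData Γ F) (o : V) (a d : V → ℕ) : ℕ → V → Prop
  | 0 => fun v => ¬ Flat D o a d v
  | k + 1 => fun v => NFk D o a d k v ∨ ∃ w, w ≠ o ∧ Γ.Adj v w ∧ NFk D o a d k w

/-- the sources: positive vertices and vertices with `2 ≤ a` -/
def Src (D : PlaneData Γ F) (o : V) (a d : V → ℕ) (v : V) : Prop :=
  PosV D o a d v ∨ 2 ≤ a v

section

variable {D : PlaneData Γ F} {o : V} {a d : V → ℕ} (H : DC D o a d)

include H in
/-- 7.2 -/
theorem near_face {v : V} (hv : v ≠ o) {f : F} (hf : Von D f v) (h3 : D.len f ≠ 3) :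
    Bk D o a d (PosV D o a d) 3 v := by
  have hl := D.three_le_len f
  by_cases hp : 1 ≤ finF D o a d f
  · exact Bk_mono (Nat.zero_le 3) ⟨hv, Or.inr ⟨f, hp, hf⟩⟩
  · have h0 : finF D o a d f ≤ 0 := by omega
    obtain ⟨w, hw, hwn⟩ := exists_needy (D := D) (o := o) (a := a) (d := d)
      (show 4 ≤ D.len f by omega) h0
    exact Or.inr ⟨w, (needy_main H hwn).2, hv, Or.inr ⟨f, (len_le f).2 h0, hw, hf⟩⟩

include H in
/-- 7.3 -/
theorem near_R {v : V} (hv : v ≠ o) (ha : a v = 1) (hd : d v = 5)
    (hT : ∀ f, Von D f v → D.len f = 3) : Bk D o a d (PosV D o a d) 1 v := by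
  have hdeg : D.deg v = 5 := by
    have := H.deg_eq v hv
    rw [if_pos (by omega)] at this
    omega
  have hvo : Γ.Adj v o := (H.adj_o v hv).2 (by omega)
  -- rotation starting at o
  obtain ⟨j, hj⟩ := (D.adj_iff v o).1 hvo
  have hon : D.on (D.fc v j) v o := by rw [← hj, D.on_iff]; exact Or.inl rfl
  obtain ⟨z, g, hr, hz0, hg0⟩ := exists_rot D hon
  have hne : ∀ i j : ℤ, ¬ (5 : ℤ) ∣ i - j → z i ≠ z j := by
    intro i j h h'
    rw [hr.zeq, hdeg] at h'
    exact h h'
  have hgne : ∀ i j : ℤ, ¬ (5 : ℤ) ∣ i - j → g i ≠ g j := by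
    intro i j h h'
    rw [hr.geq, hdeg] at h'
    exact h h'
  have hzo : ∀ i : ℤ, ¬ (5 : ℤ) ∣ i → z i ≠ o := by
    intro i h
    rw [← hz0]
    exact hne i 0 (by simpa using h)
  have hTi : ∀ i, D.len (g i) = 3 := fun i => hT _ ⟨_, hr.on1 D i⟩
  have hout := H.outI v (z 1) (z 2) (z 3) (g 1) (g 2) hv (hzo 1 (by omega)) (hzo 2 (by omega))
    (hzo 3 (by omega)) (hgne 1 2 (by omega)) (hr.on1 D 1)
    (by have := hr.on2 D 1; norm_num at this; exact this) (hr.on1 D 2)
    (by have := hr.on2 D 2; norm_num at this; exact this) (hne 1 2 (by omega))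
    (hne 2 3 (by omega)) (hTi 1) (hTi 2) hd (by omega)
  have h6 : 6 ≤ d (z 4) := by
    rcases hout with ⟨-, h1⟩ | ⟨-, h1, -⟩ | ⟨h1, -⟩
    · exact h1 _ (hzo 4 (by omega)) (hr.vadj D 4) (hne 4 1 (by omega)) (hne 4 2 (by omega))
        (hne 4 3 (by omega))
    · exact h1 _ (hzo 4 (by omega)) (hr.vadj D 4) (hne 4 1 (by omega)) (hne 4 2 (by omega))
        (hne 4 3 (by omega))
    · omega
  have hz5 : z 5 = o := by
    rw [← hz0, hr.zeq, hdeg]; norm_num
  have ha4 : 1 ≤ a (z 4) := by
    rw [← H.adj_o _ (hzo 4 (by omega))]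
    have h1 := hr.on2 D 4
    norm_num at h1
    have h2 := tri_adj D (hTi 4) (hr.on1 D 4) h1 (hne 4 5 (by omega))
    rw [hz5] at h2
    exact D.on_adj _ _ _ h2
  exact Bk_adj (k := 0) (w := z 4)
    ⟨hzo 4 (by omega), Or.inl (posV_of H (hzo 4 (by omega)) (Or.inl ⟨ha4, h6⟩))⟩ hv
    (hr.vadj D 4).symm

include H in
theorem near_nonflat {v : V} (hv : v ≠ o) (hnf : ¬ Flat D o a d v) :
    Bk D o a d (Src D o a d) 3 v := by
  have h5 := H.five v hv
  have up : Bk D o a d (PosV D o a d) 3 v → Bk D o a d (Src D o a d) 3 v :=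
    Bk_imp (fun w hw => Or.inl hw)
  by_cases ha2 : 2 ≤ a v
  · exact Bk_mono (Nat.zero_le 3) ⟨hv, Or.inl (Or.inr ha2)⟩
  · by_cases ha1 : a v = 1
    · by_cases h6 : 6 ≤ d v
      · exact up (Bk_mono (Nat.zero_le 3) ⟨hv, Or.inl (posV_of H hv (Or.inl ⟨by omega, h6⟩))⟩)
      · by_cases hT : ∀ f, Von D f v → D.len f = 3
        · exact up (Bk_mono (by omega) (near_R H hv ha1 (by omega) hT))
        · push Not at hT
          obtain ⟨f, hf, hl⟩ := hT
          exact up (near_face H hv hf hl)
    · have ha0 : a v = 0 := by omega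
      by_cases h7 : 7 ≤ d v
      · exact up (Bk_mono (Nat.zero_le 3) ⟨hv, Or.inl (posV_of H hv (Or.inr h7))⟩)
      · by_cases h6 : d v = 6
        · by_cases hT : ∀ f, Von D f v → D.len f = 3
          · exact absurd ⟨hv, ha0, h6, hT⟩ hnf
          · push Not at hT
            obtain ⟨f, hf, hl⟩ := hT
            exact up (near_face H hv hf hl)
        · exact up (Bk_mono (by omega) (needy_main H ⟨hv, ha0, by omega⟩).2)

include H in
theorem near_all {k : ℕ} : ∀ {v : V}, v ≠ o → NFk D o a d k v →
    Bk D o a d (Src D o a d) (3 + k) v := by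
  induction k with
  | zero => intro v hv h; exact near_nonflat H hv h
  | succ k ih =>
    intro v hv h
    rcases h with h | ⟨w, hw, hadj, h⟩
    · exact Bk_mono (by omega) (ih hv h)
    · exact Bk_adj (ih hw h) hv hadj.symm

include H in
theorem deg_le_six {v : V} (hv : v ≠ o) (hp : ¬ PosV D o a d v) : D.deg v ≤ 6 := by
  have h1 := (deg_le H hv).1
  by_contra h
  apply hp
  exact posV_of H hv (Or.inr (by omega))

include H in
theorem finV_nonneg {v : V} (hv : v ≠ o) : 0 ≤ finV D o a d v := by
  have h5 := H.five v hv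
  by_cases ha : 1 ≤ a v
  · exact (finV_R H hv ha).1
  · by_cases h6 : 6 ≤ d v
    · exact (finV_deep H hv (by omega) h6).1
    · exact (needy_main H ⟨hv, by omega, by omega⟩).1

include H in
theorem posV_deg {v : V} (h : PosV D o a d v) : (D.deg v : ℤ) + 1 ≤ 6 * finV D o a d v := by
  obtain ⟨hv, hp⟩ := h
  have h5 := H.five v hv
  by_cases ha : 1 ≤ a v
  · by_cases h6 : 6 ≤ d v
    · exact (finV_R H hv ha).2 h6
    · exfalso
      have hd : d v = 5 := by omega
      have hn : ¬ Needy o a d v := not_needy_of_a ha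
      unfold finV chg at hp
      rw [if_pos ha, sum_phi_zero hn, if_neg (not_type0 hn), t0_zero H (by omega), hd] at hp
      norm_num at hp
  · by_cases h7 : 7 ≤ d v
    · exact (finV_deep H hv (by omega) (by omega)).2 h7
    · by_cases h6 : d v = 6
      · exfalso
        have hn : ¬ Needy o a d v := not_needy_of_d (by omega)
        unfold finV chg at hp
        rw [if_neg ha, sum_phi_zero hn, if_neg (not_type0 hn), t0_zero H (by omega), h6] at hp
        norm_num at hp
      · have hn : Needy o a d v := ⟨hv, by omega, by omega⟩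
        rw [needy_deg H hn]
        push_cast
        omega

/-- number of vertices in one step -/
theorem card_step (w : V) : (univ.filter (fun v => Step D o w v)).card ≤ 7 * D.deg w := by
  have hsub : univ.filter (fun v => Step D o w v) ⊆
      univ.filter (fun v => Γ.Adj w v) ∪
        ((univ.filter (fun f => Von D f w)).filter (fun f => D.len f ≤ 6)).biUnion
          (fun f => univ.filter (fun v => Von D f v)) := by
    intro v hv
    simp only [mem_filter, mem_univ, true_and] at hv
    rw [mem_union]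
    rcases hv.2 with h | ⟨f, h1, h2, h3⟩
    · left; simpa using h
    · right
      rw [mem_biUnion]
      exact ⟨f, by simp [h1, h2], by simp [h3]⟩
  refine le_trans (card_le_card hsub) (le_trans (card_union_le _ _) ?_)
  rw [card_nbrs D]
  have h1 : (((univ.filter (fun f => Von D f w)).filter (fun f => D.len f ≤ 6)).biUnion
          (fun f => univ.filter (fun v => Von D f v))).card ≤ D.deg w * 6 := by
    refine le_trans card_biUnion_le ?_
    have h2 : ∀ f ∈ (univ.filter (fun f => Von D f w)).filter (fun f => D.len f ≤ 6),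
        (univ.filter (fun v => Von D f v)).card ≤ 6 := by
      intro f hf
      rw [mem_filter] at hf
      rw [card_face_verts D]
      exact hf.2
    refine le_trans (sum_le_sum h2) ?_
    rw [sum_const, smul_eq_mul]
    refine Nat.mul_le_mul_right _ ?_
    rw [← card_faces_at D w]
    exact card_le_card (filter_subset _ _)
  omega

/-- growth of the near sets -/
theorem card_Bk {P1 : V → Prop} (hP : ∀ v, v ≠ o → ¬ P1 v → D.deg v ≤ 6) (k : ℕ) :
    (univ.filter (fun v => Bk D o a d P1 k v)).card ≤
      50 ^ k * (∑ v ∈ univ.filter (fun v => v ≠ o ∧ P1 v), (D.deg v + 1) +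
        ∑ f ∈ univ.filter (fun f => 1 ≤ finF D o a d f), D.len f) := by
  set M := ∑ v ∈ univ.filter (fun v => v ≠ o ∧ P1 v), (D.deg v + 1) +
        ∑ f ∈ univ.filter (fun f => 1 ≤ finF D o a d f), D.len f with hM
  induction k with
  | zero =>
    rw [pow_zero, one_mul]
    have hsub : univ.filter (fun v => Bk D o a d P1 0 v) ⊆
        univ.filter (fun v => v ≠ o ∧ P1 v) ∪
          (univ.filter (fun f => 1 ≤ finF D o a d f)).biUnion
            (fun f => univ.filter (fun v => Von D f v)) := by
      intro v hv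
      rw [mem_filter] at hv
      obtain ⟨-, h1, h2⟩ := hv
      rw [mem_union]
      rcases h2 with h2 | ⟨f, h2, h3⟩
      · left; simp [h1, h2]
      · right
        rw [mem_biUnion]
        exact ⟨f, by simp [h2], by simp [h3]⟩
    refine le_trans (card_le_card hsub) (le_trans (card_union_le _ _) ?_)
    rw [hM]
    refine Nat.add_le_add ?_ ?_
    · rw [card_eq_sum_ones]
      exact sum_le_sum (fun v _ => by omega)
    · refine le_trans card_biUnion_le ?_
      apply sum_le_sum
      intro f _
      rw [card_face_verts D]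
  | succ k ih =>
    set B := univ.filter (fun v => Bk D o a d P1 k v) with hB
    have hsub : univ.filter (fun v => Bk D o a d P1 (k + 1) v) ⊆
        B ∪ B.biUnion (fun w => univ.filter (fun v => Step D o w v)) := by
      intro v hv
      rw [mem_filter] at hv
      rw [mem_union]
      rcases hv.2 with h | ⟨w, h1, h2⟩
      · left; rw [hB, mem_filter]; exact ⟨mem_univ _, h⟩
      · right
        rw [mem_biUnion]
        exact ⟨w, by rw [hB, mem_filter]; exact ⟨mem_univ _, h1⟩, by simp [h2]⟩
    refine le_trans (card_le_card hsub) (le_trans (card_union_le _ _) ?_)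
    have h1 : (B.biUnion (fun w => univ.filter (fun v => Step D o w v))).card ≤
        ∑ w ∈ B, 7 * D.deg w :=
      le_trans card_biUnion_le (sum_le_sum (fun w _ => card_step (D := D) w))
    have h2 : ∑ w ∈ B, 7 * D.deg w ≤ 42 * B.card + 7 * M := by
      have h3 : ∀ w ∈ B, 7 * D.deg w ≤ 42 + 7 * (if (w ≠ o ∧ P1 w) then D.deg w + 1 else 0) := by
        intro w hw
        rw [hB, mem_filter] at hw
        have hwo := Bk_ne hw.2
        by_cases hp : P1 w
        · rw [if_pos ⟨hwo, hp⟩]; omega
        · rw [if_neg (fun h => hp h.2)]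
          have := hP w hwo hp
          omega
      refine le_trans (sum_le_sum h3) ?_
      rw [sum_add_distrib, sum_const, smul_eq_mul, ← mul_sum]
      have h4 : ∑ w ∈ B, (if (w ≠ o ∧ P1 w) then D.deg w + 1 else 0) ≤
          ∑ v ∈ univ.filter (fun v => v ≠ o ∧ P1 v), (D.deg v + 1) :=
        calc ∑ w ∈ B, (if (w ≠ o ∧ P1 w) then D.deg w + 1 else 0) ≤
              ∑ w : V, (if (w ≠ o ∧ P1 w) then D.deg w + 1 else 0) :=
              sum_le_sum_of_subset (subset_univ B)
          _ = ∑ v ∈ univ.filter (fun v => v ≠ o ∧ P1 v), (D.deg v + 1) :=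
              (sum_filter (fun v => v ≠ o ∧ P1 v) (fun v => D.deg v + 1)).symm
      have h5 : ∑ v ∈ univ.filter (fun v => v ≠ o ∧ P1 v), (D.deg v + 1) ≤ M := by
        rw [hM]; omega
      omega
    have h6 : M ≤ 50 ^ k * M := Nat.le_mul_of_pos_left M (by positivity)
    calc B.card + (B.biUnion (fun w => univ.filter (fun v => Step D o w v))).card
        ≤ B.card + (42 * B.card + 7 * M) := by omega
      _ = 43 * B.card + 7 * M := by ring
      _ ≤ 43 * (50 ^ k * M) + 7 * (50 ^ k * M) := by
          have := Nat.mul_le_mul_left 43 ih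
          omega
      _ = 50 ^ (k + 1) * M := by ring

/-- total final charge -/
noncomputable def Tot (D : PlaneData Γ F) (o : V) (a d : V → ℕ) : ℤ :=
  ∑ v ∈ univ.filter (fun v => v ≠ o), finV D o a d v + ∑ f, finF D o a d f

/-- the excess of the faces -/
noncomputable def tau (D : PlaneData Γ F) : ℤ := ∑ f, ((D.len f : ℤ) - 3)

include H in
/-- conservation of charge -/
theorem tot_eq : Tot D o a d = ∑ v ∈ univ.filter (fun v => v ≠ o), chg a d v + 10 * tau D := by
  unfold Tot tau
  have h1 : ∑ f, finF D o a d f = 10 * ∑ f, ((D.len f : ℤ) - 3) -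
      ∑ v, ∑ f ∈ univ.filter (fun f => Von D f v), (phi D o a d v f : ℤ) := by
    rw [sum_corners D (fun v f => (phi D o a d v f : ℤ)), mul_sum, ← sum_sub_distrib]
    rfl
  have h2 : ∑ v, ∑ f ∈ univ.filter (fun f => Von D f v), (phi D o a d v f : ℤ) =
      ∑ v ∈ univ.filter (fun v => v ≠ o), ∑ f ∈ univ.filter (fun f => Von D f v),
        (phi D o a d v f : ℤ) := by
    rw [sum_filter]
    apply sum_congr rfl
    intro v _
    by_cases hv : v = o
    · rw [if_neg (by simp [hv]), hv]
      exact sum_phi_zero not_needy_o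
    · rw [if_pos hv]
  have h3 : ∑ v ∈ univ.filter (fun v => v ≠ o), (2 * (t0 D o a d v : ℤ)) =
      ∑ v ∈ univ.filter (fun v => v ≠ o), (if Type0 D o a d v then (10 : ℤ) else 0) := by
    have h4 : ∀ v, (t0 D o a d v : ℤ) =
        ∑ w, if (Γ.Adj v w ∧ Type0 D o a d w) then (1 : ℤ) else 0 := by
      intro v
      unfold t0
      rw [card_filter]
      push_cast
      rfl
    simp_rw [h4]
    rw [← mul_sum, sum_comm]
    have h5 : ∀ w, ∑ v ∈ univ.filter (fun v => v ≠ o),
        (if (Γ.Adj v w ∧ Type0 D o a d w) then (1 : ℤ) else 0) =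
        if Type0 D o a d w then 5 else 0 := by
      intro w
      by_cases hw : Type0 D o a d w
      · rw [if_pos hw]
        have h6 : (univ.filter (fun v => v ≠ o)).filter (fun v => Γ.Adj v w ∧ Type0 D o a d w) =
            univ.filter (fun v => Γ.Adj w v) := by
          ext v
          simp only [mem_filter, mem_univ, true_and]
          constructor
          · rintro ⟨-, h, -⟩; exact h.symm
          · intro h; exact ⟨needy_nbr H hw.1 h, h.symm, hw⟩
        rw [← sum_filter, h6, sum_const, card_nbrs D, needy_deg H hw.1]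
        norm_num
      · rw [if_neg hw]
        apply sum_eq_zero
        intro v _
        rw [if_neg (fun h => hw h.2)]
    rw [sum_congr rfl (fun w _ => h5 w), mul_sum, sum_filter]
    apply sum_congr rfl
    intro w _
    by_cases hwo : w = o
    · rw [if_neg (fun h => h.1.1 hwo), if_neg (by simp [hwo])]
      rfl
    · rw [if_pos hwo]
      split_ifs <;> norm_num
  have h4 : ∑ v ∈ univ.filter (fun v => v ≠ o), finV D o a d v =
      ∑ v ∈ univ.filter (fun v => v ≠ o), chg a d v +
      ∑ v ∈ univ.filter (fun v => v ≠ o), ∑ f ∈ univ.filter (fun f => Von D f v),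
        (phi D o a d v f : ℤ) -
      ∑ v ∈ univ.filter (fun v => v ≠ o), (2 * (t0 D o a d v : ℤ)) +
      ∑ v ∈ univ.filter (fun v => v ≠ o), (if Type0 D o a d v then (10 : ℤ) else 0) := by
    rw [← sum_add_distrib, ← sum_sub_distrib, ← sum_add_distrib]
    rfl
  rw [h1, h2, h4, h3]
  ring

end

end U5Dis
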