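import Mathlib

/-!
# Connected sets, components of complements and fillings in a finite graph
-/

set_option linter.unusedSectionVars false

namespace U5Fin

open Finset Classical

variable {V : Type*} [Fintype V]

/-- The graph `G` restricted to the edges inside `S`. -/
def res (G : SimpleGraph V) (S : Finset V) : SimpleGraph V where
  Adj x y := G.Adj x y ∧ x ∈ S ∧ y ∈ S
  symm := ⟨fun _ _ h => ⟨h.1.symm, h.2.2, h.2.1⟩⟩
  loopless := ⟨fun _ h => G.loopless.irrefl _ h.1⟩

/-- `S` is nonempty and connected in `G`. -/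
def SConn (G : SimpleGraph V) (S : Finset V) : Prop :=
  S.Nonempty ∧ ∀ x ∈ S, ∀ y ∈ S, (res G S).Reachable x y

/-- The neighbours of `S` outside `S`. -/
noncomputable def nbr (G : SimpleGraph V) (S : Finset V) : Finset V :=
  univ.filter (fun y => y ∉ S ∧ ∃ x ∈ S, G.Adj x y)

/-- Twice the number of edges meeting `S`. -/
noncomputable def e2 (G : SimpleGraph V) (S : Finset V) : ℕ :=
  ((univ : Finset (V × V)).filter (fun p => G.Adj p.1 p.2 ∧ (p.1 ∈ S ∨ p.2 ∈ S))).card

theorem res_mono {G : SimpleGraph V} {S T : Finset V} (h : S ⊆ T) : res G S ≤ res G T := by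
  intro x y hxy
  exact ⟨hxy.1, h hxy.2.1, h hxy.2.2⟩

theorem res_mem {G : SimpleGraph V} {S : Finset V} {x y : V} (h : (res G S).Reachable x y)
    (hx : x ∈ S) : y ∈ S := by
  obtain ⟨p⟩ := h
  induction p with
  | nil => exact hx
  | cons hadj p ih => exact ih hadj.2.2

theorem reach_res_comp {G H : SimpleGraph V} (hHG : H ≤ G) (C : Finset V) (x0 : V)
    (hC : ∀ z, z ∈ C ↔ H.Reachable x0 z) {u v : V} (hu : H.Reachable x0 u)
    (huv : H.Reachable u v) : (res G C).Reachable u v := by
  obtain ⟨p⟩ := huv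
  induction p with
  | nil => exact SimpleGraph.Reachable.refl _
  | @cons a b c hadj p ih =>
    have hb : H.Reachable x0 b := hu.trans hadj.reachable
    have hab : (res G C).Adj a b := ⟨hHG hadj, (hC a).2 hu, (hC b).2 hb⟩
    exact hab.reachable.trans (ih hb)

/-- the component of `x` in the complement of `K` -/
noncomputable def comp (G : SimpleGraph V) (K : Finset V) (x : V) : Finset V :=
  univ.filter (fun y => (res G Kᶜ).Reachable x y)

theorem mem_comp {G : SimpleGraph V} {K : Finset V} {x y : V} :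
    y ∈ comp G K x ↔ (res G Kᶜ).Reachable x y := by
  simp [comp]

theorem res_le (G : SimpleGraph V) (S : Finset V) : res G S ≤ G := fun _ _ h => h.1

theorem self_mem_comp (G : SimpleGraph V) (K : Finset V) (x : V) : x ∈ comp G K x :=
  mem_comp.2 (SimpleGraph.Reachable.refl _)

theorem comp_conn (G : SimpleGraph V) (K : Finset V) (x : V) : SConn G (comp G K x) := by
  refine ⟨⟨x, self_mem_comp G K x⟩, fun y hy z hz => ?_⟩
  rw [mem_comp] at hy hz
  exact reach_res_comp (res_le G _) _ x (fun z => mem_comp) hy (hy.symm.trans hz)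

theorem comp_disj {G : SimpleGraph V} {K : Finset V} {x y : V} (hx : x ∉ K)
    (hy : y ∈ comp G K x) : y ∉ K := by
  have := res_mem (mem_comp.1 hy) (mem_compl.2 hx)
  exact mem_compl.1 this

theorem comp_closed {G : SimpleGraph V} {K : Finset V} {x y z : V} (hx : x ∉ K)
    (hy : y ∈ comp G K x) (hz : z ∉ K) (h : G.Adj y z) : z ∈ comp G K x := by
  have hyK := comp_disj hx hy
  rw [mem_comp] at hy ⊢
  have : (res G Kᶜ).Adj y z := ⟨h, mem_compl.2 hyK, mem_compl.2 hz⟩
  exact hy.trans this.reachable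

/-- A set containing a connected set `K`, closed under adjacency off `K`, is connected. -/
theorem conn_of_closed {G : SimpleGraph V} (hG : SConn G univ) {K S : Finset V}
    (hK : SConn G K) (hKS : K ⊆ S)
    (hcl : ∀ x ∈ S, x ∉ K → ∀ y, y ∉ K → G.Adj x y → y ∈ S) : SConn G S := by
  obtain ⟨k0, hk0⟩ := hK.1
  have key : ∀ x, (res G univ).Reachable x k0 → x ∈ S →
      ∃ k ∈ K, (res G S).Reachable x k := by
    rintro x ⟨p⟩
    induction p with
    | nil => intro _; exact ⟨_, hk0, SimpleGraph.Reachable.refl _⟩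
    | @cons a b c hadj p ih =>
      intro ha
      by_cases haK : a ∈ K
      · exact ⟨a, haK, SimpleGraph.Reachable.refl _⟩
      · by_cases hbK : b ∈ K
        · have : (res G S).Adj a b := ⟨hadj.1, ha, hKS hbK⟩
          exact ⟨b, hbK, this.reachable⟩
        · have hbS := hcl a ha haK b hbK hadj.1
          obtain ⟨k, hk, hr⟩ := ih hk0 hbS
          have : (res G S).Adj a b := ⟨hadj.1, ha, hbS⟩
          exact ⟨k, hk, this.reachable.trans hr⟩
  refine ⟨⟨k0, hKS hk0⟩, fun x hx y hy => ?_⟩
  obtain ⟨k, hk, h1⟩ := key x (hG.2 x (mem_univ _) k0 (mem_univ _)) hx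
  obtain ⟨k', hk', h2⟩ := key y (hG.2 y (mem_univ _) k0 (mem_univ _)) hy
  exact h1.trans (((hK.2 k hk k' hk').mono (res_mono hKS)).trans h2.symm)

/-- filling of `K` seen from `z0` -/
noncomputable def fill (G : SimpleGraph V) (z0 : V) (K : Finset V) : Finset V :=
  (comp G K z0)ᶜ

section fillsec

variable {G : SimpleGraph V} (hG : SConn G univ) {B : Finset V} {z0 : V} (hz0 : z0 ∉ B)
  (hB : SConn G Bᶜ) {K : Finset V} (hKB : K ⊆ B) (hK : SConn G K)

include hz0 hB hKB in
theorem compl_sub_comp : Bᶜ ⊆ comp G K z0 := by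
  intro y hy
  rw [mem_comp]
  exact (hB.2 z0 (mem_compl.2 hz0) y hy).mono (res_mono (compl_subset_compl.2 hKB))

include hz0 hB hKB in
theorem fill_sub : fill G z0 K ⊆ B := by
  intro y hy
  by_contra h
  exact (mem_compl.1 hy) (compl_sub_comp hz0 hB hKB (mem_compl.2 h))

include hz0 hKB in
theorem sub_fill : K ⊆ fill G z0 K := by
  intro y hy
  rw [fill, mem_compl]
  intro h
  exact comp_disj (fun h' => hz0 (hKB h')) h hy

include hz0 hKB in
theorem fill_bdry {x y : V} (hx : x ∈ fill G z0 K) (hy : y ∉ fill G z0 K) (h : G.Adj x y) :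
    x ∈ K := by
  by_contra hxK
  rw [fill, mem_compl, not_not] at hy
  rw [fill, mem_compl] at hx
  exact hx (comp_closed (fun h' => hz0 (hKB h')) hy hxK h.symm)

include hz0 hKB in
theorem nbr_fill : nbr G (fill G z0 K) ⊆ nbr G K := by
  intro y hy
  simp only [nbr, mem_filter, mem_univ, true_and] at hy ⊢
  obtain ⟨hy1, x, hx, hxy⟩ := hy
  exact ⟨fun h => hy1 (sub_fill hz0 hKB h), x, fill_bdry hz0 hKB hx hy1 hxy, hxy⟩

include hG hz0 hKB hK in
theorem fill_conn : SConn G (fill G z0 K) := by
  refine conn_of_closed hG hK (sub_fill hz0 hKB) ?_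
  intro x hx hxK y _ hxy
  by_contra hyf
  exact hxK (fill_bdry hz0 hKB hx hyf hxy)

theorem fill_compl_conn : SConn G (fill G z0 K)ᶜ := by
  rw [fill, compl_compl]
  exact comp_conn G K z0

include hz0 hB hKB hK in
theorem inner_comp_sub {x : V} (hx : x ∈ fill G z0 K) (hxK : x ∉ K) :
    comp G K x ⊂ B := by
  obtain ⟨k, hk⟩ := hK.1
  rw [ssubset_iff_of_subset]
  · exact ⟨k, hKB hk, fun h => comp_disj hxK h hk⟩
  · intro y hy
    by_contra hyB
    have h1 : y ∈ comp G K z0 := compl_sub_comp hz0 hB hKB (mem_compl.2 hyB)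
    rw [fill, mem_compl] at hx
    rw [mem_comp] at h1 hy hx
    exact hx (h1.trans hy.symm)

include hG hK in
theorem inner_comp_compl {x : V} (hxK : x ∉ K) : SConn G (comp G K x)ᶜ := by
  refine conn_of_closed hG hK ?_ ?_
  · intro k hk
    rw [mem_compl]
    exact fun h => comp_disj hxK h hk
  · intro u hu huK v hvK huv
    rw [mem_compl] at hu ⊢
    intro hv
    exact hu (comp_closed hxK hv huK huv.symm)

theorem nbr_comp {x : V} (hxK : x ∉ K) : nbr G (comp G K x) ⊆ K := by
  intro y hy
  simp only [nbr, mem_filter, mem_univ, true_and] at hy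
  obtain ⟨hy1, u, hu, huy⟩ := hy
  by_contra hyK
  exact hy1 (comp_closed hxK hu hyK huy)

include hG hK in
/-- every component of the complement of `K` is adjacent to `K` -/
theorem comp_adj {x : V} (hxK : x ∉ K) : ∃ k ∈ K, ∃ y, G.Adj k y ∧ y ∉ K ∧ x ∈ comp G K y := by
  obtain ⟨k0, hk0⟩ := hK.1
  have key : ∀ u, (res G univ).Reachable u k0 → u ∈ comp G K x →
      ∃ k ∈ K, ∃ y, G.Adj k y ∧ y ∉ K ∧ x ∈ comp G K y := by
    rintro u ⟨p⟩
    induction p with
    | nil => intro h; exact absurd hk0 (comp_disj hxK h)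
    | @cons a b c hadj p ih =>
      intro ha
      by_cases hb : b ∈ K
      · exact ⟨b, hb, a, hadj.1.symm, comp_disj hxK ha, mem_comp.2 (mem_comp.1 ha).symm⟩
      · exact ih hk0 (comp_closed hxK ha hb hadj.1)
  exact key x (hG.2 x (mem_univ _) k0 (mem_univ _)) (self_mem_comp G K x)

end fillsec

/-- Fillings of disjoint connected sets are nested or disjoint. -/
theorem fill_laminar {G : SimpleGraph V} (hG : SConn G univ) {B : Finset V} {z0 : V}
    (hz0 : z0 ∉ B) {K K' : Finset V} (hKB : K ⊆ B)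
    (hK : SConn G K) (hKB' : K' ⊆ B) (hK' : SConn G K') (hd : Disjoint K K') :
    fill G z0 K ⊆ fill G z0 K' ∨ fill G z0 K' ⊆ fill G z0 K ∨
      Disjoint (fill G z0 K) (fill G z0 K') := by
  -- if K' meets the filling of K then it is nested
  have nest : ∀ K K' : Finset V, K ⊆ B → K' ⊆ B → SConn G K' → Disjoint K K' →
      (∃ x ∈ K', x ∈ fill G z0 K) → fill G z0 K' ⊆ fill G z0 K := by
    intro K K' hKB hKB' hK' hd ⟨x, hx', hx⟩
    have hdisj : ∀ y ∈ K', y ∉ comp G K z0 := by
      intro y hy hyc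
      have h1 : (res G Kᶜ).Reachable y x := by
        refine (hK'.2 y hy x hx').mono (res_mono ?_)
        intro w hw
        rw [mem_compl]
        exact fun h => (disjoint_left.1 hd) h hw
      rw [fill, mem_compl, mem_comp] at hx
      rw [mem_comp] at hyc
      exact hx (hyc.trans h1)
    intro y hy
    rw [fill, mem_compl] at hy ⊢
    intro hyc
    apply hy
    rw [mem_comp] at hyc ⊢
    have h2 := reach_res_comp (res_le G _) (comp G K z0) z0 (fun z => mem_comp)
      (SimpleGraph.Reachable.refl _) hyc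
    refine h2.mono (res_mono ?_)
    intro w hw
    rw [mem_compl]
    exact fun h => hdisj w h hw
  by_cases h1 : ∃ x ∈ K', x ∈ fill G z0 K
  · right; left
    exact nest K K' hKB hKB' hK' hd h1
  by_cases h2 : ∃ x ∈ K, x ∈ fill G z0 K'
  · left
    exact nest K' K hKB' hKB hK hd.symm h2
  right; right
  push Not at h1 h2
  rw [disjoint_left]
  intro y hy hy'
  obtain ⟨k, hk⟩ := hK.1
  -- the filling of K is connected and avoids K'
  have hc := fill_conn hG hz0 hKB hK
  have h3 : (res G K'ᶜ).Reachable k y := by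
    refine (hc.2 k (sub_fill hz0 hKB hk) y hy).mono (res_mono ?_)
    intro w hw
    rw [mem_compl]
    exact fun h => h1 w h hw
  have h4 := h2 k hk
  rw [fill, mem_compl, not_not, mem_comp] at h4
  rw [fill, mem_compl, mem_comp] at hy'
  exact hy' (h4.trans h3)

end U5Fin
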