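import Pool.Agent.Helper98.U5.StarContract
import Pool.Agent.Helper98.U5.Fill

/-!
# Global finish: large sparse minor closed graphs contain bounded connected sets with connected
complement which meet few edges
-/

set_option linter.unusedSectionVars false

namespace U5Fin

open Finset Classical

theorem connLab_id {V : Type*} [Fintype V] (G : SimpleGraph V) : ConnLab G id := by
  intro x y hxy
  simp only [id] at hxy
  rw [hxy]

theorem pairs_le {V : Type*} [Fintype V] {G : SimpleGraph V} (hG : MinorSparse G)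
    (S : Finset V) :
    ((univ : Finset (V × V)).filter (fun p => G.Adj p.1 p.2 ∧ p.1 ∈ S ∧ p.2 ∈ S)).card ≤
      6 * S.card := by
  refine le_trans (card_le_card ?_) (hG id (connLab_id G) S)
  intro p hp
  simp only [mem_filter, mem_univ, true_and, mem_product] at hp ⊢
  exact ⟨hp.2, hp.1.ne, p.1, p.2, rfl, rfl, hp.1⟩

theorem e2_le {V : Type*} [Fintype V] {G : SimpleGraph V} (hG : MinorSparse G)
    (B : Finset V) : e2 G B ≤ 6 * (B.card + (nbr G B).card) := by
  have h1 : e2 G B ≤ 6 * (B ∪ nbr G B).card := by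
    refine le_trans (card_le_card ?_) (pairs_le hG (B ∪ nbr G B))
    intro p hp
    simp only [mem_filter, mem_univ, true_and, mem_union] at hp ⊢
    refine ⟨hp.1, ?_, ?_⟩
    · by_cases h : p.1 ∈ B
      · exact Or.inl h
      · right
        simp only [nbr, mem_filter, mem_univ, true_and]
        exact ⟨h, p.2, hp.2.resolve_left h, hp.1.symm⟩
    · by_cases h : p.2 ∈ B
      · exact Or.inl h
      · right
        simp only [nbr, mem_filter, mem_univ, true_and]
        exact ⟨h, p.1, hp.2.resolve_right h, hp.1⟩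
  exact le_trans h1 (Nat.mul_le_mul_left _ (card_union_le _ _))

theorem sum_deg_le {V : Type*} [Fintype V] (G : SimpleGraph V) (B : Finset V) :
    ∑ x ∈ B, (univ.filter (fun y => G.Adj x y)).card ≤ e2 G B := by
  have h1 : ∑ x ∈ B, (univ.filter (fun y => G.Adj x y)).card =
      ((B ×ˢ (univ : Finset V)).filter (fun p => G.Adj p.1 p.2)).card := by
    rw [card_filter, sum_product]
    apply sum_congr rfl
    intro x _
    rw [card_filter]
  rw [h1]
  apply card_le_card
  intro p hp
  simp only [mem_filter, mem_univ, true_and, mem_product, and_true] at hp ⊢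
  exact ⟨hp.2, Or.inl hp.1⟩

theorem nbr_card_le {V : Type*} [Fintype V] (G : SimpleGraph V) (K : Finset V) (D : ℕ)
    (hD : ∀ x ∈ K, (univ.filter (fun y => G.Adj x y)).card ≤ D) :
    (nbr G K).card ≤ K.card * D := by
  have h1 : nbr G K ⊆ K.biUnion (fun x => univ.filter (fun y => G.Adj x y)) := by
    intro y hy
    simp only [nbr, mem_filter, mem_univ, true_and] at hy
    obtain ⟨_, x, hx, hxy⟩ := hy
    simp only [mem_biUnion, mem_filter, mem_univ, true_and]
    exact ⟨x, hx, hxy⟩
  refine le_trans (card_le_card h1) (le_trans card_biUnion_le ?_)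
  refine le_trans (sum_le_sum hD) ?_
  rw [sum_const, smul_eq_mul]

/-- A connected set of bounded size whose inner complementary components are bounded has a bounded
filling. -/
theorem fill_card_le {V : Type*} [Fintype V] {G : SimpleGraph V} (hG : SConn G univ)
    {z0 : V} {K : Finset V} (hK : SConn G K) (D N : ℕ)
    (hD : ∀ x ∈ K, (univ.filter (fun y => G.Adj x y)).card ≤ D)
    (hN : ∀ x ∈ fill G z0 K, x ∉ K → (comp G K x).card ≤ N) :
    (fill G z0 K).card ≤ K.card + K.card * (D * N) := by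
  have h1 : fill G z0 K ⊆ K ∪ K.biUnion (fun k =>
      (univ.filter (fun y => G.Adj k y ∧ y ∉ K ∧ y ∈ fill G z0 K)).biUnion
        (fun y => comp G K y)) := by
    intro z hz
    rw [mem_union]
    by_cases hzK : z ∈ K
    · exact Or.inl hzK
    · right
      obtain ⟨k, hk, y, hky, hyK, hzy⟩ := comp_adj hG hK hzK
      simp only [mem_biUnion, mem_filter, mem_univ, true_and]
      refine ⟨k, hk, y, ⟨hky, hyK, ?_⟩, hzy⟩
      rw [fill, mem_compl, mem_comp] at hz ⊢
      intro h
      exact hz (h.trans (mem_comp.1 hzy))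
  refine le_trans (card_le_card h1) (le_trans (card_union_le _ _) ?_)
  refine Nat.add_le_add_left ?_ _
  refine le_trans card_biUnion_le ?_
  have h2 : ∀ k ∈ K, ((univ.filter (fun y => G.Adj k y ∧ y ∉ K ∧ y ∈ fill G z0 K)).biUnion
        (fun y => comp G K y)).card ≤ D * N := by
    intro k hk
    refine le_trans card_biUnion_le ?_
    have h3 : ∀ y ∈ univ.filter (fun y => G.Adj k y ∧ y ∉ K ∧ y ∈ fill G z0 K),
        (comp G K y).card ≤ N := by
      intro y hy
      simp only [mem_filter, mem_univ, true_and] at hy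
      exact hN y hy.2.2 hy.2.1
    refine le_trans (sum_le_sum h3) ?_
    rw [sum_const, smul_eq_mul]
    refine Nat.mul_le_mul_right _ (le_trans (card_le_card ?_) (hD k hk))
    intro y hy
    simp only [mem_filter, mem_univ, true_and] at hy ⊢
    exact hy.1
  refine le_trans (sum_le_sum h2) ?_
  rw [sum_const, smul_eq_mul]

/-- Edge counting for a laminar family. -/
theorem edge_count {V : Type*} [Fintype V] {G : SimpleGraph V} (B : Finset V)
    (M : Finset (Finset V)) (P : V → V → Prop)
    (hMB : ∀ S ∈ M, S ⊆ B)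
    (hdis : ∀ S ∈ M, ∀ T ∈ M, S ≠ T → Disjoint S T)
    (hP : ∀ S ∈ M, ∀ T ∈ M, S ≠ T → ∀ x ∈ S, ∀ y ∈ T, G.Adj x y → P x y) :
    ∑ S ∈ M, e2 G S ≤ e2 G B +
      ((univ : Finset (V × V)).filter (fun p => P p.1 p.2)).card := by
  have h1 : ∀ S : Finset V, e2 G S =
      ∑ p : V × V, if (G.Adj p.1 p.2 ∧ (p.1 ∈ S ∨ p.2 ∈ S)) then 1 else 0 := by
    intro S
    rw [e2, card_filter]
  have h2 : ∑ S ∈ M, e2 G S = ∑ p : V × V,
      (M.filter (fun S => G.Adj p.1 p.2 ∧ (p.1 ∈ S ∨ p.2 ∈ S))).card := by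
    simp_rw [h1]
    rw [sum_comm]
    apply sum_congr rfl
    intro p _
    rw [card_filter]
  rw [h2, h1 B, card_filter, ← sum_add_distrib]
  apply sum_le_sum
  rintro ⟨x, y⟩ -
  simp only
  by_cases hadj : G.Adj x y
  swap
  · have : M.filter (fun S => G.Adj x y ∧ (x ∈ S ∨ y ∈ S)) = ∅ := by
      rw [filter_eq_empty_iff]
      exact fun S _ h => hadj h.1
    rw [this]
    simp
  by_cases hB : x ∈ B ∨ y ∈ B
  swap
  · have : M.filter (fun S => G.Adj x y ∧ (x ∈ S ∨ y ∈ S)) = ∅ := by
      rw [filter_eq_empty_iff]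
      intro S hS h
      exact hB (h.2.imp (fun h => hMB S hS h) (fun h => hMB S hS h))
    rw [this]
    simp
  rw [if_pos ⟨hadj, hB⟩]
  -- each point is in at most one set
  have one : ∀ z : V, (M.filter (fun S => z ∈ S)).card ≤ 1 := by
    intro z
    rw [card_le_one]
    intro S hS T hT
    rw [mem_filter] at hS hT
    by_contra hne
    exact (disjoint_left.1 (hdis S hS.1 T hT.1 hne)) hS.2 hT.2
  by_cases hPxy : P x y
  · rw [if_pos hPxy]
    have hsub : M.filter (fun S => G.Adj x y ∧ (x ∈ S ∨ y ∈ S)) ⊆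
        M.filter (fun S => x ∈ S) ∪ M.filter (fun S => y ∈ S) := by
      intro S hS
      rw [mem_filter] at hS
      rw [mem_union, mem_filter, mem_filter]
      exact hS.2.2.imp (fun h => ⟨hS.1, h⟩) (fun h => ⟨hS.1, h⟩)
    have h3 := card_le_card hsub
    have h4 := card_union_le (M.filter (fun S => x ∈ S)) (M.filter (fun S => y ∈ S))
    have h5 := one x
    have h6 := one y
    omega
  · rw [if_neg hPxy, Nat.add_zero, card_le_one]
    intro S hS T hT
    rw [mem_filter] at hS hT
    by_contra hne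
    have hd := disjoint_left.1 (hdis S hS.1 T hT.1 hne)
    rcases hS.2.2 with hx | hy
    · rcases hT.2.2 with hx' | hy'
      · exact hd hx hx'
      · exact hPxy (hP S hS.1 T hT.1 hne x hx y hy' hadj)
    · rcases hT.2.2 with hx' | hy'
      · exact hPxy (hP T hT.1 S hS.1 (Ne.symm hne) x hx' y hy hadj)
      · exact hd hy hy'

theorem fin (η : ℝ) (hη : 0 < η) (hη1 : η ≤ 1) : ∃ s : ℕ, ∀ (V : Type*) [Fintype V]
    (G : SimpleGraph V),
    MinorSparse G → SConn G univ → (∃ v, SConn G (univ.erase v)) → s ≤ Fintype.card V →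
    ∃ K : Finset V, K.card ≤ s ∧ (nbr G K).card ≤ s ∧ SConn G K ∧ SConn G Kᶜ ∧
      (e2 G K : ℝ) < 2 * (3 + η) * K.card := by
  set D0 : ℕ := ⌈96 / η⌉₊ with hD0
  obtain ⟨s1, hs1⟩ := hyperfinite D0 (η / 12) (by positivity)
  set c0 : ℕ := s1 + 1 with hc0
  set N1 : ℕ := ⌈3 * (c0 : ℝ) / η⌉₊ + 1 with hN1
  have hN1' : 3 * (c0 : ℝ) < η * N1 := by
    have h1 : 3 * (c0 : ℝ) / η ≤ ⌈3 * (c0 : ℝ) / η⌉₊ := Nat.le_ceil _
    have h2 : 3 * (c0 : ℝ) / η < N1 := by
      rw [hN1]; push_cast; linarith
    rw [div_lt_iff₀ hη] at h2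
    linarith
  have hD0' : 96 ≤ η * D0 := by
    have h1 : 96 / η ≤ D0 := Nat.le_ceil _
    rw [div_le_iff₀ hη] at h1
    linarith
  set c1 : ℕ := ⌈7 * (c0 : ℝ) / η⌉₊ with hc1
  have hc1' : 7 * (c0 : ℝ) ≤ η * c1 := by
    have h1 : 7 * (c0 : ℝ) / η ≤ c1 := Nat.le_ceil _
    rw [div_le_iff₀ hη] at h1
    linarith
  refine ⟨(s1 + s1 * (D0 * N1)) + c0 + s1 * D0 + (N1 + 1) + c1, ?_⟩
  set s : ℕ := (s1 + s1 * (D0 * N1)) + c0 + s1 * D0 + (N1 + 1) + c1 with hs
  intro V _ G hMS hG ⟨v, hv⟩ hcard
  by_contra hcon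
  push Not at hcon
  -- the family BB
  set BB : Finset (Finset V) := univ.filter (fun B => SConn G B ∧ SConn G Bᶜ ∧
    (nbr G B).card ≤ c0 ∧ N1 ≤ B.card) with hBB
  have hne : BB.Nonempty := by
    refine ⟨univ.erase v, ?_⟩
    rw [hBB, mem_filter]
    refine ⟨mem_univ _, hv, ?_, ?_, ?_⟩
    · have : (univ.erase v : Finset V)ᶜ = {v} := by
        ext x; simp
      rw [this]
      refine ⟨⟨v, mem_singleton_self v⟩, fun x hx y hy => ?_⟩
      rw [mem_singleton] at hx hy
      rw [hx, hy]
    · have h1 : nbr G (univ.erase v) ⊆ {v} := by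
        intro y hy
        simp only [nbr, mem_filter, mem_univ, true_and, mem_erase, and_true, not_not] at hy
        rw [mem_singleton]
        exact hy.1
      refine le_trans (card_le_card h1) ?_
      rw [card_singleton]
      omega
    · rw [card_erase_of_mem (mem_univ v), card_univ]
      omega
  obtain ⟨B, hBmem, hBmin⟩ := exists_min_image BB (fun B => B.card) hne
  rw [hBB, mem_filter] at hBmem
  obtain ⟨-, hBc, hBcc, hBn, hBN⟩ := hBmem
  obtain ⟨z0, hz0'⟩ := hBcc.1
  have hz0 : z0 ∉ B := mem_compl.1 hz0'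
  have he2B : (e2 G B : ℝ) ≤ 6 * (B.card + c0) := by
    have h1 := e2_le hMS B
    have h2 : e2 G B ≤ 6 * (B.card + c0) := le_trans h1 (by omega)
    exact_mod_cast h2
  -- B is large
  have hBbig : s < B.card := by
    by_contra hle
    push Not at hle
    have h1 := hcon B hle (by omega) hBc hBcc
    have h2 : (N1 : ℝ) ≤ B.card := by exact_mod_cast hBN
    nlinarith
  -- hubs
  set Hb : Finset V := B.filter (fun x => D0 < (univ.filter (fun y => G.Adj x y)).card) with hHb
  set U : Finset V := B \ Hb with hU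
  have hUB : U ⊆ B := sdiff_subset
  have hcardU : U.card + Hb.card = B.card := card_sdiff_add_card_eq_card (filter_subset _ _)
  have hUdeg : ∀ x ∈ U, (univ.filter (fun y => G.Adj x y)).card ≤ D0 := by
    intro x hx
    rw [hU, mem_sdiff, hHb, mem_filter] at hx
    by_contra h
    exact hx.2 ⟨hx.1, not_le.1 h⟩
  have hHbcard : (D0 : ℝ) * Hb.card ≤ 6 * (B.card + c0) := by
    have h1 : D0 * Hb.card ≤ e2 G B := by
      calc D0 * Hb.card = ∑ x ∈ Hb, D0 := by rw [sum_const, smul_eq_mul, mul_comm]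
        _ ≤ ∑ x ∈ Hb, (univ.filter (fun y => G.Adj x y)).card := by
            apply sum_le_sum
            intro x hx
            rw [hHb, mem_filter] at hx
            exact hx.2.le
        _ ≤ ∑ x ∈ B, (univ.filter (fun y => G.Adj x y)).card :=
            sum_le_sum_of_subset (filter_subset _ _)
        _ ≤ e2 G B := sum_deg_le G B
    have h2 : (D0 : ℝ) * Hb.card ≤ e2 G B := by exact_mod_cast h1
    linarith
  -- the restricted graph and its clusters
  set G' : SimpleGraph V := res G U with hG'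
  have hMS' : MinorSparse G' := hMS.mono (res_le G U)
  have hdeg' : ∀ x, (univ.filter (fun y => G'.Adj x y)).card ≤ D0 := by
    intro x
    by_cases hx : x ∈ U
    · refine le_trans (card_le_card ?_) (hUdeg x hx)
      intro y hy
      simp only [mem_filter, mem_univ, true_and] at hy ⊢
      exact hy.1
    · have : univ.filter (fun y => G'.Adj x y) = ∅ := by
        rw [filter_eq_empty_iff]
        exact fun y _ h => hx h.2.1
      rw [this]
      simp
  obtain ⟨l, hl, hls, hlc⟩ := hs1 V G' hMS' hdeg'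
  have hcross : (cross G' l : ℝ) ≤ η / 2 * U.card := by
    have h1 : cross G' id ≤ 6 * U.card := by
      refine le_trans (card_le_card ?_) (pairs_le hMS U)
      intro p hp
      simp only [mem_filter, mem_univ, true_and] at hp ⊢
      exact ⟨hp.1.1, hp.1.2⟩
    have h2 : (cross G' id : ℝ) ≤ 6 * U.card := by exact_mod_cast h1
    calc (cross G' l : ℝ) ≤ η / 12 * cross G' id := hlc
      _ ≤ η / 12 * (6 * U.card) := by
          apply mul_le_mul_of_nonneg_left h2; positivity
      _ = η / 2 * U.card := by ring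
  set Kx : V → Finset V := fun x => univ.filter (fun y => l y = l x) with hKx
  have hKmem : ∀ x y, y ∈ Kx x ↔ l y = l x := by
    intro x y; simp [hKx]
  have hKreach : ∀ x z, z ∈ Kx x ↔ (within G' l).Reachable x z := by
    intro x z
    rw [hKmem]
    constructor
    · intro h; exact hl x z h.symm
    · rintro ⟨p⟩
      induction p with
      | nil => rfl
      | cons hadj p ih => rw [ih, hadj.2]
  have hKU : ∀ x ∈ U, Kx x ⊆ U := by
    intro x hx y hy
    rw [hKreach] at hy
    obtain ⟨p⟩ := hy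
    induction p with
    | nil => exact hx
    | cons hadj p ih => exact ih hadj.1.2.2
  have hKconn : ∀ x, SConn G (Kx x) := by
    intro x
    refine ⟨⟨x, (hKmem x x).2 rfl⟩, fun y hy z hz => ?_⟩
    rw [hKreach] at hy hz
    exact reach_res_comp (show within G' l ≤ G from fun a b h => h.1.1) (Kx x) x (hKreach x) hy
      (hy.symm.trans hz)
  have hKB : ∀ x ∈ U, Kx x ⊆ B := fun x hx => (hKU x hx).trans hUB
  have hKcard : ∀ x, (Kx x).card ≤ s1 := fun x => hls (l x)
  -- inner components are small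
  have hinner : ∀ x ∈ U, ∀ y ∈ fill G z0 (Kx x), y ∉ Kx x → (comp G (Kx x) y).card ≤ N1 := by
    intro x hx y hy hyK
    by_contra hlarge
    push Not at hlarge
    have hsub := inner_comp_sub hz0 hBcc (hKB x hx) (hKconn x) hy hyK
    have hmem : comp G (Kx x) y ∈ BB := by
      rw [hBB, mem_filter]
      refine ⟨mem_univ _, comp_conn G _ y, inner_comp_compl hG (hKconn x) hyK, ?_, hlarge.le⟩
      refine le_trans (card_le_card (nbr_comp hyK)) ?_
      have := hKcard x
      omega
    have h1 := hBmin _ hmem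
    have h2 := card_lt_card hsub
    omega
  -- the fillings
  set F : V → Finset V := fun x => fill G z0 (Kx x) with hF
  have hFcard : ∀ x ∈ U, (F x).card ≤ s := by
    intro x hx
    have h1 := fill_card_le hG (z0 := z0) (hKconn x) D0 N1
      (fun y hy => hUdeg y (hKU x hx hy)) (hinner x hx)
    have h2 := hKcard x
    have h3 : (Kx x).card * (D0 * N1) ≤ s1 * (D0 * N1) := Nat.mul_le_mul_right _ h2
    simp only [hF]
    omega
  have hFnbr : ∀ x ∈ U, (nbr G (F x)).card ≤ s := by
    intro x hx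
    have h1 := card_le_card (nbr_fill (G := G) hz0 (hKB x hx))
    have h2 := nbr_card_le G (Kx x) D0 (fun y hy => hUdeg y (hKU x hx hy))
    have h3 : (Kx x).card * D0 ≤ s1 * D0 := Nat.mul_le_mul_right _ (hKcard x)
    simp only [hF]
    omega
  have hFT : ∀ x ∈ U, 2 * (3 + η) * ((F x).card : ℝ) ≤ e2 G (F x) := by
    intro x hx
    exact hcon (F x) (hFcard x hx) (hFnbr x hx) (fill_conn hG hz0 (hKB x hx) (hKconn x))
      fill_compl_conn
  have hFeq : ∀ x y, l x = l y → F x = F y := by
    intro x y h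
    simp only [hF, hKx, h]
  set FF : Finset (Finset V) := U.image F with hFF
  set M : Finset (Finset V) := FF.filter (fun S => Maximal (· ∈ FF) S) with hM
  have hMF : ∀ S ∈ M, ∃ x ∈ U, F x = S ∧ Maximal (· ∈ FF) S := by
    intro S hS
    rw [hM, mem_filter, hFF, mem_image] at hS
    obtain ⟨⟨x, hx, h⟩, hm⟩ := hS
    exact ⟨x, hx, h, hm⟩
  have hdis : ∀ S ∈ M, ∀ T ∈ M, S ≠ T → Disjoint S T := by
    intro S hS T hT hne
    obtain ⟨x, hx, rfl, hmx⟩ := hMF S hS
    obtain ⟨y, hy, rfl, hmy⟩ := hMF T hT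
    have hlxy : l x ≠ l y := fun h => hne (hFeq x y h)
    have hd : Disjoint (Kx x) (Kx y) := by
      rw [disjoint_left]
      intro w hw hw'
      rw [hKmem] at hw hw'
      exact hlxy (hw.symm.trans hw')
    rcases fill_laminar hG hz0 (hKB x hx) (hKconn x) (hKB y hy) (hKconn y) hd with h | h | h
    · exact absurd (subset_antisymm h (hmx.2 hmy.1 h)) hne
    · exact absurd (subset_antisymm (hmy.2 hmx.1 h) h) hne
    · exact h
  have hcount := edge_count (G := G) B M (fun x y => G'.Adj x y ∧ l x ≠ l y)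
    (by
      intro S hS
      obtain ⟨x, hx, rfl, -⟩ := hMF S hS
      exact fill_sub hz0 hBcc (hKB x hx))
    hdis
    (by
      intro S hS T hT hne a ha b hb hab
      have hd := disjoint_left.1 (hdis S hS T hT hne)
      obtain ⟨x, hx, rfl, -⟩ := hMF S hS
      obtain ⟨y, hy, rfl, -⟩ := hMF T hT
      have ha' : a ∈ Kx x := fill_bdry hz0 (hKB x hx) ha (fun h => hd h hb) hab
      have hb' : b ∈ Kx y := fill_bdry hz0 (hKB y hy) hb (fun h => hd ha h) hab.symm
      refine ⟨⟨hab, hKU x hx ha', hKU y hy hb'⟩, ?_⟩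
      rw [hKmem] at ha' hb'
      rw [ha', hb']
      exact fun h => hne (hFeq x y h))
  have hcov : U.card ≤ ∑ S ∈ M, S.card := by
    have h1 : U ⊆ M.biUnion id := by
      intro x hx
      have hxF : F x ∈ FF := mem_image_of_mem F hx
      obtain ⟨S, hS, hmS⟩ := exists_le_maximal FF hxF
      simp only [mem_biUnion, id]
      refine ⟨S, ?_, hS (sub_fill hz0 (hKB x hx) ((hKmem x x).2 rfl))⟩
      rw [hM, mem_filter]
      exact ⟨hmS.1, hmS⟩
    exact le_trans (card_le_card h1) card_biUnion_le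
  -- final computation
  have hsum : 2 * (3 + η) * (U.card : ℝ) ≤ (e2 G B : ℝ) + cross G' l := by
    have h1 : (U.card : ℝ) ≤ ∑ S ∈ M, (S.card : ℝ) := by exact_mod_cast hcov
    have h2 : ∑ S ∈ M, 2 * (3 + η) * (S.card : ℝ) ≤ ∑ S ∈ M, (e2 G S : ℝ) := by
      apply sum_le_sum
      intro S hS
      obtain ⟨x, hx, rfl, -⟩ := hMF S hS
      exact hFT x hx
    have h3 : ∑ S ∈ M, (e2 G S : ℝ) ≤ (e2 G B : ℝ) + cross G' l := by
      have : ∑ S ∈ M, e2 G S ≤ e2 G B + cross G' l := by
        unfold cross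
        convert hcount using 3
        ext p
        simp only [mem_filter]
      exact_mod_cast this
    rw [← mul_sum] at h2
    have h4 : 0 ≤ 2 * (3 + η) := by linarith
    calc 2 * (3 + η) * (U.card : ℝ) ≤ 2 * (3 + η) * ∑ S ∈ M, (S.card : ℝ) :=
          mul_le_mul_of_nonneg_left h1 h4
      _ ≤ ∑ S ∈ M, (e2 G S : ℝ) := h2
      _ ≤ _ := h3
  have hbR : (U.card : ℝ) + Hb.card = B.card := by exact_mod_cast hcardU
  have hsB : (c1 : ℝ) < B.card := by
    have : c1 < B.card := by omega
    exact_mod_cast this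
  have hh0 : (0 : ℝ) ≤ Hb.card := Nat.cast_nonneg _
  have hu0 : (0 : ℝ) ≤ U.card := Nat.cast_nonneg _
  have hc00 : (0 : ℝ) ≤ c0 := Nat.cast_nonneg _
  -- number of hubs
  have hhub : 96 * (Hb.card : ℝ) ≤ 6 * η * (B.card + c0) := by
    have h1 : 96 * (Hb.card : ℝ) ≤ η * D0 * Hb.card := mul_le_mul_of_nonneg_right hD0' hh0
    have h2 : η * (D0 * Hb.card) ≤ η * (6 * (B.card + c0)) :=
      mul_le_mul_of_nonneg_left hHbcard hη.le
    linarith
  have h5 : 2 * (3 + η) * (U.card : ℝ) ≤ 6 * (B.card + c0) + η / 2 * U.card := by linarith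
  have h6 : η * (c1 : ℝ) < η * B.card := mul_lt_mul_of_pos_left hsB hη
  have h7 : η * (c0 : ℝ) ≤ c0 := by nlinarith
  have h8 : η * (Hb.card : ℝ) ≤ Hb.card := by nlinarith
  have h9 : (U.card : ℝ) = B.card - Hb.card := by linarith
  rw [h9] at h5
  nlinarith

end U5Fin
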