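import Mathlib

/-!
# Face weights (module T-J, pure part)

`wN x y` is the weight (times ten) which a needy vertex gets from a face with at least four edges:
`10`, `5`, `4` if none, one, both of its two neighbours on the face are needy.
-/

namespace U5Dis

open Finset Classical

/-- weight of a needy corner whose two neighbours are needy iff `x`, `y` -/
noncomputable def wN (x y : Prop) : ℕ := if x then (if y then 4 else 5) else (if y then 5 else 10)

theorem wN_comm (x y : Prop) : wN x y = wN y x := by
  unfold wN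
  split_ifs <;> rfl

theorem wN_le (x y : Prop) : wN x y ≤ 10 := by
  unfold wN
  split_ifs <;> omega

theorem wN_ge (x y : Prop) : 4 ≤ wN x y := by
  unfold wN
  split_ifs <;> omega

theorem wN_ge_five {x y : Prop} (h : ¬ x ∨ ¬ y) : 5 ≤ wN x y := by
  unfold wN
  split_ifs with h1 h2 h2
  · exact absurd h (by simp [h1, h2])
  · omega
  · omega
  · omega

theorem wN_le_five {x y : Prop} (h : x ∨ y) : wN x y ≤ 5 := by
  unfold wN
  split_ifs with h1 h2 h2
  · omega
  · omega
  · omega
  · exact absurd h (by simp [h1, h2])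

theorem wN_ten {x y : Prop} (h1 : ¬ x) (h2 : ¬ y) : wN x y = 10 := by
  unfold wN
  rw [if_neg h1, if_neg h2]

variable {n : ℕ} [NeZero n]

/-- weight given at the corner `i` of a cyclic face -/
noncomputable def wC (b : ZMod n → Prop) (i : ZMod n) : ℕ :=
  if b i then wN (b (i - 1)) (b (i + 1)) else 0

theorem sum_shift (g : ZMod n → ℕ) (c : ZMod n) : ∑ i, g (i + c) = ∑ i, g i :=
  Fintype.sum_equiv (Equiv.addRight c) _ _ (fun _ => rfl)

/-- general bound: half of the length -/
theorem sum_wC_le (b : ZMod n → Prop) : ∑ i, wC b i ≤ 5 * n := by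
  have h1 : ∀ i, 2 * wC b i ≤ (if b i then 10 else 0) +
      5 * (if ¬ b (i + (-1)) then 1 else 0) + 5 * (if ¬ b (i + 1) then 1 else 0) := by
    intro i
    unfold wC wN
    rw [sub_eq_add_neg]
    by_cases h0 : b i <;> by_cases h1 : b (i + (-1)) <;> by_cases h2 : b (i + 1) <;>
      simp [h0, h1, h2]
  have h2 : 2 * ∑ i, wC b i ≤ ∑ i, ((if b i then 10 else 0) +
      5 * (if ¬ b (i + (-1)) then 1 else 0) + 5 * (if ¬ b (i + 1) then 1 else 0)) := by
    rw [mul_sum]
    exact sum_le_sum (fun i _ => h1 i)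
  rw [sum_add_distrib, sum_add_distrib, ← mul_sum, ← mul_sum,
    sum_shift (fun i => if ¬ b i then 1 else 0) (-1),
    sum_shift (fun i => if ¬ b i then 1 else 0) 1] at h2
  have h3 : ∑ i : ZMod n, (if b i then 10 else 0) + 10 * ∑ i : ZMod n, (if ¬ b i then 1 else 0) =
      10 * n := by
    rw [mul_sum, ← sum_add_distrib]
    have : ∀ i : ZMod n, (if b i then 10 else 0) + 10 * (if ¬ b i then 1 else 0) = 10 := by
      intro i
      by_cases h : b i <;> simp [h]
    rw [sum_congr rfl (fun i _ => this i), sum_const, card_univ, ZMod.card, smul_eq_mul, mul_comm]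
  omega

/-- faces through the marked vertex -/
theorem sum_wC_marked (hn : 3 ≤ n) (b : ZMod n → Prop) (o : ZMod n) (h0 : ¬ b o)
    (h1 : ¬ b (o - 1)) (h2 : ¬ b (o + 1)) :
    ∑ i, wC b i ≤ 10 * (n - 3) ∧
      ((∃ j, b j ∧ b (j + 1)) → ∑ i, wC b i + 10 ≤ 10 * (n - 3)) := by
  have hne1 : o ≠ o - 1 := by
    intro h
    have h' : (1 : ZMod n) = 0 := by
      have := sub_eq_self.mp h.symm
      exact this
    have : ((1 : ℕ) : ZMod n) = 0 := by simpa using h'
    rw [ZMod.natCast_eq_zero_iff] at this
    exact absurd (Nat.le_of_dvd one_pos this) (by omega)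
  have hne2 : o ≠ o + 1 := by
    intro h
    have h' : (1 : ZMod n) = 0 := by
      have := left_eq_add.mp h
      exact this
    have : ((1 : ℕ) : ZMod n) = 0 := by simpa using h'
    rw [ZMod.natCast_eq_zero_iff] at this
    exact absurd (Nat.le_of_dvd one_pos this) (by omega)
  have hne3 : o - 1 ≠ o + 1 := by
    intro h
    have h' : (2 : ZMod n) = 0 := by
      have h4 : o + 1 - (o - 1) = 0 := by rw [h]; ring
      have h5 : o + 1 - (o - 1) = 2 := by ring
      rw [← h5, h4]
    have : ((2 : ℕ) : ZMod n) = 0 := by simpa using h'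
    rw [ZMod.natCast_eq_zero_iff] at this
    exact absurd (Nat.le_of_dvd two_pos this) (by omega)
  set N : Finset (ZMod n) := univ.filter (fun i => b i) with hN
  have hcard : N.card + 3 ≤ n := by
    have hd : Disjoint N {o, o - 1, o + 1} := by
      rw [disjoint_left]
      intro x hx hx'
      rw [hN, mem_filter] at hx
      simp only [mem_insert, mem_singleton] at hx'
      rcases hx' with rfl | rfl | rfl
      · exact h0 hx.2
      · exact h1 hx.2
      · exact h2 hx.2
    have h3 : ({o, o - 1, o + 1} : Finset (ZMod n)).card = 3 := by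
      rw [card_insert_of_notMem, card_insert_of_notMem, card_singleton]
      · rw [mem_singleton]; exact hne3
      · rw [mem_insert, mem_singleton, not_or]; exact ⟨hne1, hne2⟩
    have h4 := card_le_univ (N ∪ {o, o - 1, o + 1})
    rw [card_union_of_disjoint hd, h3, ZMod.card] at h4
    exact h4
  have hsum : ∑ i, wC b i = ∑ i ∈ N, wN (b (i - 1)) (b (i + 1)) := by
    rw [hN, sum_filter]
    rfl
  have hle : ∑ i, wC b i ≤ 10 * N.card := by
    rw [hsum]
    calc ∑ i ∈ N, wN (b (i - 1)) (b (i + 1)) ≤ ∑ i ∈ N, 10 := sum_le_sum (fun i _ => wN_le _ _)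
      _ = 10 * N.card := by rw [sum_const, smul_eq_mul, mul_comm]
  refine ⟨by omega, ?_⟩
  rintro ⟨j, hj, hj1⟩
  have hjN : j ∈ N := by rw [hN, mem_filter]; exact ⟨mem_univ _, hj⟩
  have hne : j + 1 ≠ j := by
    intro h
    have h' : (1 : ZMod n) = 0 := by
      have := add_eq_left.mp h
      exact this
    have : ((1 : ℕ) : ZMod n) = 0 := by simpa using h'
    rw [ZMod.natCast_eq_zero_iff] at this
    exact absurd (Nat.le_of_dvd one_pos this) (by omega)
  have hj1N : j + 1 ∈ N.erase j := by
    rw [mem_erase]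
    refine ⟨hne, ?_⟩
    rw [hN, mem_filter]
    exact ⟨mem_univ _, hj1⟩
  have e1 := add_sum_erase N (fun i => wN (b (i - 1)) (b (i + 1))) hjN
  have e2 := add_sum_erase (N.erase j) (fun i => wN (b (i - 1)) (b (i + 1))) hj1N
  have e3 : ∑ i ∈ (N.erase j).erase (j + 1), wN (b (i - 1)) (b (i + 1)) ≤
      10 * ((N.erase j).erase (j + 1)).card := by
    calc ∑ i ∈ (N.erase j).erase (j + 1), wN (b (i - 1)) (b (i + 1)) ≤
          ∑ i ∈ (N.erase j).erase (j + 1), 10 := sum_le_sum (fun i _ => wN_le _ _)
      _ = _ := by rw [sum_const, smul_eq_mul, mul_comm]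
  rw [card_erase_of_mem hj1N, card_erase_of_mem hjN] at e3
  have e4 : wN (b (j - 1)) (b (j + 1)) ≤ 5 := wN_le_five (Or.inr hj1)
  have e5 : wN (b (j + 1 - 1)) (b (j + 1 + 1)) ≤ 5 := by
    apply wN_le_five
    left
    rwa [add_sub_cancel_right]
  have e6 : 2 ≤ N.card := by
    have := card_pos.mpr ⟨_, hj1N⟩
    rw [card_erase_of_mem hjN] at this
    omega
  rw [hsum]
  omega

theorem four_aux : ∀ b : ZMod 4 → Bool, (∀ i, ¬ (b i = true ∧ b (i + 2) = true)) →
    (∑ i, if b i = true then (if b (i - 1) = true then (if b (i + 1) = true then 4 else 5) else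
      (if b (i + 1) = true then 5 else 10)) else 0) ≤ 10 := by
  decide

theorem five_aux : ∀ b : ZMod 5 → Bool,
    (∑ i, if b i = true then (if b (i - 1) = true then (if b (i + 1) = true then 4 else 5) else
      (if b (i + 1) = true then 5 else 10)) else 0) ≤ 20 := by
  decide

/-- faces of length four not through the marked vertex -/
theorem sum_wC_four (hn : n = 4) (b : ZMod n → Prop) (h : ∀ i, ¬ (b i ∧ b (i + 2))) :
    ∑ i, wC b i ≤ 10 := by
  subst hn
  have := four_aux (fun i => decide (b i)) (by simpa using h)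
  simpa [wC, wN] using this

/-- faces of length five -/
theorem sum_wC_five (hn : n = 5) (b : ZMod n → Prop) :
    ∑ i, wC b i ≤ 20 := by
  subst hn
  have := five_aux (fun i => decide (b i))
  simpa [wC, wN] using this

end U5Dis
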