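import Pool.Agent.Helper98.U5.Corner
import Pool.Agent.Helper98.U5.Weights

/-!
# Discharging: hypotheses, weights and the local analysis at a needy vertex
-/

set_option linter.unusedSectionVars false

namespace U5Dis

open Finset Classical Pool.Agent.Helper1.PG

variable {V F : Type} [Fintype V] [Fintype F] {Γ : SimpleGraph V}

/-- deep vertex of degree five -/
def Needy (o : V) (a d : V → ℕ) (v : V) : Prop := v ≠ o ∧ a v = 0 ∧ d v = 5

/-- outcome (I0), (I5) or (IX) of the reduction at `u` with the pair `x, z` and the middle `y` -/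
def OutI (Γ : SimpleGraph V) (o : V) (a d : V → ℕ) (u x y z : V) : Prop :=
  (7 ≤ d y ∧ ∀ w, w ≠ o → Γ.Adj u w → w ≠ x → w ≠ y → w ≠ z → 6 ≤ d w) ∨
  (d y = 5 ∧ (∀ w, w ≠ o → Γ.Adj u w → w ≠ x → w ≠ y → w ≠ z → 6 ≤ d w) ∧
    (∀ w, w ≠ o → Γ.Adj y w → w ≠ u → w ≠ x → w ≠ z → 6 ≤ d w)) ∨
  (a u = 0 ∧ d y = 5 ∧ a y = 2 ∧ 1 ≤ a x ∧ 1 ≤ a z ∧ a x + a z = 5 ∧
    ∀ w, w ≠ o → Γ.Adj y w → w = u ∨ w = x ∨ w = z)

/-- The hypotheses of the discharging. -/
structure DC (D : PlaneData Γ F) (o : V) (a d : V → ℕ) : Prop where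
  adj_o : ∀ v, v ≠ o → (Γ.Adj v o ↔ 1 ≤ a v)
  deg_eq : ∀ v, v ≠ o → d v + (if 1 ≤ a v then 1 else 0) = D.deg v + a v
  five : ∀ v, v ≠ o → 5 ≤ d v
  outI : ∀ u x y z f g, u ≠ o → x ≠ o → y ≠ o → z ≠ o → f ≠ g → D.on f u x → D.on f u y →
    D.on g u y → D.on g u z → x ≠ y → y ≠ z → D.len f = 3 → D.len g = 3 → d u = 5 → a u ≤ 1 →
    OutI Γ o a d u x y z
  nonadj : ∀ u x y z f g, u ≠ o → x ≠ o → y ≠ o → z ≠ o → f ≠ g → D.on f u x → D.on f u y →
    D.on g u y → D.on g u z → x ≠ y → y ≠ z → D.len f = 3 → D.len g = 3 → d u = 5 → a u = 0 →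
    ¬ Γ.Adj x z
  outIII : ∀ f i, D.len f = 4 → ¬ Von D f o → Needy o a d (D.vx f i) →
    ¬ Needy o a d (D.vx f (i + 2))

/-- weight (times ten) which `f` gives to `v` -/
noncomputable def phi (D : PlaneData Γ F) (o : V) (a d : V → ℕ) (v : V) (f : F) : ℕ :=
  if Needy o a d v ∧ 4 ≤ D.len f then
    (if ∀ w, D.on f v w → Needy o a d w then 4 else
      (if ∀ w, D.on f v w → ¬ Needy o a d w then 10 else 5)) else 0

/-- needy and all faces at `v` are triangles -/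
def Type0 (D : PlaneData Γ F) (o : V) (a d : V → ℕ) (v : V) : Prop :=
  Needy o a d v ∧ ∀ f, Von D f v → D.len f = 3

section

variable {D : PlaneData Γ F} {o : V} {a d : V → ℕ}

theorem phi_pair {v x y : V} {f : F} (h : ∀ w, D.on f v w ↔ w = x ∨ w = y) :
    phi D o a d v f = if Needy o a d v ∧ 4 ≤ D.len f then
      wN (Needy o a d x) (Needy o a d y) else 0 := by
  unfold phi wN
  by_cases h0 : Needy o a d v ∧ 4 ≤ D.len f
  · rw [if_pos h0, if_pos h0]
    have h1 : (∀ w, D.on f v w → Needy o a d w) ↔ (Needy o a d x ∧ Needy o a d y) := by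
      constructor
      · intro h2
        exact ⟨h2 x ((h x).2 (Or.inl rfl)), h2 y ((h y).2 (Or.inr rfl))⟩
      · rintro ⟨h2, h3⟩ w hw
        rcases (h w).1 hw with rfl | rfl
        · exact h2
        · exact h3
    have h1' : (∀ w, D.on f v w → ¬ Needy o a d w) ↔ (¬ Needy o a d x ∧ ¬ Needy o a d y) := by
      constructor
      · intro h2
        exact ⟨h2 x ((h x).2 (Or.inl rfl)), h2 y ((h y).2 (Or.inr rfl))⟩
      · rintro ⟨h2, h3⟩ w hw
        rcases (h w).1 hw with rfl | rfl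
        · exact h2
        · exact h3
    simp only [h1, h1']
    by_cases hx : Needy o a d x <;> by_cases hy : Needy o a d y <;> simp [hx, hy]
  · rw [if_neg h0, if_neg h0]

theorem phi_rot {v : V} {z : ℤ → V} {g : ℤ → F} (h : IsRot D v z g) (i : ℤ) :
    phi D o a d v (g i) = if Needy o a d v ∧ 4 ≤ D.len (g i) then
      wN (Needy o a d (z i)) (Needy o a d (z (i + 1))) else 0 :=
  phi_pair (fun w => h.onz i w)

theorem phi_face (f : F) (i : ZMod (D.len f)) :
    phi D o a d (D.vx f i) f = if 4 ≤ D.len f then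
      wC (fun j => Needy o a d (D.vx f j)) i else 0 := by
  rw [phi_pair (fun w => on_face D f i w)]
  unfold wC
  by_cases h1 : 4 ≤ D.len f <;> by_cases h2 : Needy o a d (D.vx f i) <;> simp [h1, h2]

theorem not_needy_of_a {v : V} (h : 1 ≤ a v) : ¬ Needy o a d v := fun h' => by
  have := h'.2.1; omega

theorem not_needy_of_d {v : V} (h : 6 ≤ d v) : ¬ Needy o a d v := fun h' => by
  have := h'.2.2; omega

theorem not_needy_o : ¬ Needy o a d o := fun h => h.1 rfl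

variable (H : DC D o a d)

include H in
theorem needy_deg {u : V} (hu : Needy o a d u) : D.deg u = 5 := by
  have h1 := H.deg_eq u hu.1
  have h2 := hu.2.1
  have h3 := hu.2.2
  rw [if_neg (by omega)] at h1
  omega

include H in
theorem needy_nbr {u w : V} (hu : Needy o a d u) (h : Γ.Adj u w) : w ≠ o := by
  rintro rfl
  have := (H.adj_o u hu.1).1 h
  have := hu.2.1
  omega

/-- numeric outcome -/
def OutN (dd aa : ℤ → ℕ) (i : ℤ) : Prop :=
  (7 ≤ dd i ∧ 6 ≤ dd (i + 2) ∧ 6 ≤ dd (i + 3)) ∨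
  (dd i = 5 ∧ 6 ≤ dd (i + 2) ∧ 6 ≤ dd (i + 3)) ∨
  (dd i = 5 ∧ aa i = 2 ∧ 1 ≤ aa (i - 1) ∧ 1 ≤ aa (i + 1) ∧ aa (i - 1) + aa (i + 1) = 5)

section rot

variable {u : V} (hu : Needy o a d u) {z : ℤ → V} {g : ℤ → F} (hr : IsRot D u z g)

include H hu hr

theorem zper (i : ℤ) : z (i + 5) = z i := by
  rw [hr.zeq, needy_deg H hu]; simp

theorem gper (i : ℤ) : g (i + 5) = g i := by
  rw [hr.geq, needy_deg H hu]; simp

theorem zne (i j : ℤ) (h : ¬ (5 : ℤ) ∣ i - j) : z i ≠ z j := by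
  intro h'
  rw [hr.zeq, needy_deg H hu] at h'
  exact h h'

theorem gne (i j : ℤ) (h : ¬ (5 : ℤ) ∣ i - j) : g i ≠ g j := by
  intro h'
  rw [hr.geq, needy_deg H hu] at h'
  exact h h'

theorem zno (i : ℤ) : z i ≠ o := needy_nbr H hu (hr.vadj D i)

theorem out_at (i : ℤ) (h1 : D.len (g (i - 1)) = 3) (h2 : D.len (g i) = 3) :
    OutI Γ o a d u (z (i - 1)) (z i) (z (i + 1)) := by
  refine H.outI u _ _ _ (g (i - 1)) (g i) hu.1 (zno H hu hr _) (zno H hu hr _) (zno H hu hr _)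
    (gne H hu hr _ _ (by omega)) (hr.on1 D _) ?_ (hr.on1 D _) (hr.on2 D _)
    (zne H hu hr _ _ (by omega)) (zne H hu hr _ _ (by omega)) h1 h2 hu.2.2 (by
      have := hu.2.1; omega)
  have := hr.on2 D (i - 1)
  rwa [sub_add_cancel] at this

theorem nonadj_at (i : ℤ) (h1 : D.len (g (i - 1)) = 3) (h2 : D.len (g i) = 3) :
    ¬ Γ.Adj (z (i - 1)) (z (i + 1)) := by
  refine H.nonadj u _ (z i) _ (g (i - 1)) (g i) hu.1 (zno H hu hr _) (zno H hu hr _)
    (zno H hu hr _)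
    (gne H hu hr _ _ (by omega)) (hr.on1 D _) ?_ (hr.on1 D _) (hr.on2 D _)
    (zne H hu hr _ _ (by omega)) (zne H hu hr _ _ (by omega)) h1 h2 hu.2.2 hu.2.1
  have := hr.on2 D (i - 1)
  rwa [sub_add_cancel] at this

theorem outN_at (i : ℤ) (h1 : D.len (g (i - 1)) = 3) (h2 : D.len (g i) = 3) :
    OutN (fun j => d (z j)) (fun j => a (z j)) i := by
  have h := out_at H hu hr i h1 h2
  have n1 : z (i + 2) ≠ z (i - 1) := zne H hu hr _ _ (by omega)
  have n2 : z (i + 2) ≠ z i := zne H hu hr _ _ (by omega)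
  have n3 : z (i + 2) ≠ z (i + 1) := zne H hu hr _ _ (by omega)
  have n4 : z (i + 3) ≠ z (i - 1) := zne H hu hr _ _ (by omega)
  have n5 : z (i + 3) ≠ z i := zne H hu hr _ _ (by omega)
  have n6 : z (i + 3) ≠ z (i + 1) := zne H hu hr _ _ (by omega)
  rcases h with ⟨h3, h4⟩ | ⟨h3, h4, -⟩ | ⟨h3, h4, h5, h6, h7, h8, -⟩
  · left
    exact ⟨h3, h4 _ (zno H hu hr _) (hr.vadj D _) n1 n2 n3,
      h4 _ (zno H hu hr _) (hr.vadj D _) n4 n5 n6⟩
  · right; left
    exact ⟨h3, h4 _ (zno H hu hr _) (hr.vadj D _) n1 n2 n3,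
      h4 _ (zno H hu hr _) (hr.vadj D _) n4 n5 n6⟩
  · right; right
    exact ⟨h4, h5, h6, h7, h8⟩

/-- the sum of the weights at a needy vertex -/
theorem sum_phi : ∑ f ∈ univ.filter (fun f => Von D f u), (phi D o a d u f : ℤ) =
    phi D o a d u (g 0) + phi D o a d u (g 1) + phi D o a d u (g 2) + phi D o a d u (g 3) +
      phi D o a d u (g 4) :=
  hr.sum_five D (needy_deg H hu) (fun f => (phi D o a d u f : ℤ))

theorem phi_N (i : ℤ) (h : D.len (g i) ≠ 3) :
    phi D o a d u (g i) = wN (Needy o a d (z i)) (Needy o a d (z (i + 1))) := by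
  rw [phi_rot hr, if_pos]
  refine ⟨hu, ?_⟩
  have := D.three_le_len (g i)
  omega

theorem adj_succ (i : ℤ) (h : D.len (g i) = 3) : D.on (g i) (z i) (z (i + 1)) :=
  tri_adj D h (hr.on1 D i) (hr.on2 D i) (zne H hu hr _ _ (by omega))

end rot

include H in
/-- 6.2: all neighbours of a vertex of type 0 have degree at least seven -/
theorem type0_nbr {u w : V} (hu : Type0 D o a d u) (hw : Γ.Adj u w) : 7 ≤ d w := by
  obtain ⟨z, g, hr⟩ := exists_rot' D u
  have hT : ∀ i, D.len (g i) = 3 := fun i => hu.2 _ ⟨_, hr.on1 D i⟩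
  have hN := fun i => outN_at H hu.1 hr i (hT _) (hT _)
  have hp := fun i => zper H hu.1 hr i
  have key : ∀ i, 0 ≤ i → i < 5 → 7 ≤ d (z i) := by
    have h0 := hN 0
    have h1 := hN 1
    have h2 := hN 2
    have h3 := hN 3
    have h4 := hN 4
    have p0 := hp 0
    have p1 := hp 1
    have p2 := hp 2
    have pm := hp (-1)
    norm_num at p0 p1 p2 pm
    simp only [OutN] at h0 h1 h2 h3 h4
    norm_num at h0 h1 h2 h3 h4
    rw [← pm] at h0
    rw [p0] at h2 h3 h4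
    rw [p1] at h3 h4
    rw [p2] at h4
    intro i hi0 hi5
    interval_cases i <;> omega
  obtain ⟨i, rfl⟩ := (hr.adj w).1 hw
  have h1 : z i = z (i % 5) := by
    rw [hr.zeq, needy_deg H hu.1]; omega
  rw [h1]
  exact key _ (by omega) (by omega)

end

end U5Dis
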