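import Pool.Agent.Helper98.U5.Local

/-!
# Final charges and the local analysis at needy vertices (6.2 - 6.6)
-/

set_option linter.unusedSectionVars false

namespace U5Dis

open Finset Classical Pool.Agent.Helper1.PG

variable {V F : Type} [Fintype V] [Fintype F] {Γ : SimpleGraph V}

/-- number of neighbours of type 0 -/
noncomputable def t0 (D : PlaneData Γ F) (o : V) (a d : V → ℕ) (v : V) : ℕ :=
  (univ.filter (fun w => Γ.Adj v w ∧ Type0 D o a d w)).card

/-- initial charge (times ten) -/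
noncomputable def chg (a d : V → ℕ) (v : V) : ℤ :=
  if 1 ≤ a v then 10 * ((d v : ℤ) - 5) else 10 * ((d v : ℤ) - 6)

/-- final charge of a vertex -/
noncomputable def finV (D : PlaneData Γ F) (o : V) (a d : V → ℕ) (v : V) : ℤ :=
  chg a d v + ∑ f ∈ univ.filter (fun f => Von D f v), (phi D o a d v f : ℤ) -
    2 * (t0 D o a d v : ℤ) + (if Type0 D o a d v then 10 else 0)

/-- final charge of a face -/
noncomputable def finF (D : PlaneData Γ F) (o : V) (a d : V → ℕ) (f : F) : ℤ :=
  10 * ((D.len f : ℤ) - 3) - ∑ v ∈ univ.filter (fun v => Von D f v), (phi D o a d v f : ℤ)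

/-- positive vertex -/
def PosV (D : PlaneData Γ F) (o : V) (a d : V → ℕ) (v : V) : Prop :=
  v ≠ o ∧ 1 ≤ finV D o a d v

/-- one step -/
def Step (D : PlaneData Γ F) (o : V) (w v : V) : Prop :=
  v ≠ o ∧ (Γ.Adj w v ∨ ∃ f, D.len f ≤ 6 ∧ Von D f w ∧ Von D f v)

/-- vertices near the objects in `P1` and near positive faces -/
def Bk (D : PlaneData Γ F) (o : V) (a d : V → ℕ) (P1 : V → Prop) : ℕ → V → Prop
  | 0 => fun v => v ≠ o ∧ (P1 v ∨ ∃ f, 1 ≤ finF D o a d f ∧ Von D f v)
  | k + 1 => fun v => Bk D o a d P1 k v ∨ ∃ w, Bk D o a d P1 k w ∧ Step D o w v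

section

variable {D : PlaneData Γ F} {o : V} {a d : V → ℕ} (H : DC D o a d)

theorem Bk_ne {P1 : V → Prop} : ∀ {k : ℕ} {v : V}, Bk D o a d P1 k v → v ≠ o
  | 0, _, h => h.1
  | _ + 1, _, Or.inl h => Bk_ne h
  | _ + 1, _, Or.inr ⟨_, _, h⟩ => h.1

theorem Bk_mono {P1 : V → Prop} {k l : ℕ} (hkl : k ≤ l) {v : V} (h : Bk D o a d P1 k v) :
    Bk D o a d P1 l v := by
  induction hkl with
  | refl => exact h
  | step _ ih => exact Or.inl ih

theorem Bk_imp {P1 P2 : V → Prop} (himp : ∀ v, P1 v → P2 v) : ∀ {k : ℕ} {v : V},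
    Bk D o a d P1 k v → Bk D o a d P2 k v
  | 0, _, h => ⟨h.1, h.2.imp (himp _) id⟩
  | _ + 1, _, Or.inl h => Or.inl (Bk_imp himp h)
  | _ + 1, _, Or.inr ⟨w, hw, h⟩ => Or.inr ⟨w, Bk_imp himp hw, h⟩

theorem Bk_adj {P1 : V → Prop} {k : ℕ} {w v : V} (h : Bk D o a d P1 k w) (hv : v ≠ o)
    (hadj : Γ.Adj w v) : Bk D o a d P1 (k + 1) v := Or.inr ⟨w, h, hv, Or.inl hadj⟩

theorem sum_phi_zero {v : V} (hv : ¬ Needy o a d v) :
    ∑ f ∈ univ.filter (fun f => Von D f v), (phi D o a d v f : ℤ) = 0 := by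
  apply sum_eq_zero
  intro f _
  unfold phi
  rw [if_neg (fun h => hv h.1)]
  rfl

include H in
theorem t0_zero {v : V} (hd : d v ≤ 6) : t0 D o a d v = 0 := by
  unfold t0
  rw [card_eq_zero, filter_eq_empty_iff]
  rintro w - ⟨h1, h2⟩
  have := type0_nbr H h2 h1.symm
  omega

include H in
theorem t0_le (v : V) : 2 * t0 D o a d v ≤ D.deg v := by
  -- type 0 neighbours are never consecutive
  have hcons : ∀ i : ZMod (D.deg v), ¬ (Type0 D o a d (D.nb v i) ∧ Type0 D o a d (D.nb v (i + 1))) := by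
    rintro i ⟨h1, h2⟩
    have e1 : D.on (D.fc v i) v (D.nb v i) := (on_corner D v i _).2 (Or.inl rfl)
    have e2 : D.on (D.fc v i) v (D.nb v (i + 1)) := (on_corner D v i _).2 (Or.inr rfl)
    have hlen : D.len (D.fc v i) = 3 := h1.2 _ ⟨v, on_symm' D e1⟩
    have hne : D.nb v i ≠ D.nb v (i + 1) := by
      intro h
      have := D.nb_inj v h
      have h3 : (1 : ZMod (D.deg v)) = 0 := by linear_combination -this
      exact zmod_one_ne (D.two_le_deg v) h3
    have e3 := tri_adj D hlen e1 e2 hne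
    have h4 := type0_nbr H h1 (D.on_adj _ _ _ e3)
    have h5 := h2.1.2.2
    omega
  have h1 : t0 D o a d v = ∑ i : ZMod (D.deg v), (if Type0 D o a d (D.nb v i) then 1 else 0) := by
    unfold t0
    rw [← card_filter]
    have : univ.filter (fun w => Γ.Adj v w ∧ Type0 D o a d w) =
        (univ.filter (fun i => Type0 D o a d (D.nb v i))).image (D.nb v) := by
      ext w
      simp only [mem_filter, mem_univ, true_and, mem_image]
      constructor
      · rintro ⟨h1, h2⟩
        obtain ⟨i, rfl⟩ := (D.adj_iff v w).1 h1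
        exact ⟨i, h2, rfl⟩
      · rintro ⟨i, h2, rfl⟩
        exact ⟨(D.adj_iff v _).2 ⟨i, rfl⟩, h2⟩
    rw [this, card_image_of_injective _ (D.nb_inj v)]
  have h2 : ∑ i : ZMod (D.deg v), (if Type0 D o a d (D.nb v (i + 1)) then 1 else 0) =
      ∑ i : ZMod (D.deg v), (if Type0 D o a d (D.nb v i) then 1 else 0) :=
    sum_shift (fun i => if Type0 D o a d (D.nb v i) then 1 else 0) 1
  have h3 : ∑ i : ZMod (D.deg v), ((if Type0 D o a d (D.nb v i) then 1 else 0) +
      (if Type0 D o a d (D.nb v (i + 1)) then 1 else 0)) ≤ ∑ i : ZMod (D.deg v), 1 := by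
    apply sum_le_sum
    intro i _
    have := hcons i
    by_cases h4 : Type0 D o a d (D.nb v i) <;> by_cases h5 : Type0 D o a d (D.nb v (i + 1))
    · exact absurd ⟨h4, h5⟩ this
    · simp [h4, h5]
    · simp [h4, h5]
    · simp [h4, h5]
  rw [sum_add_distrib, h2, sum_const, card_univ, ZMod.card, smul_eq_mul, mul_one] at h3
  omega

theorem not_type0 {v : V} (hv : ¬ Needy o a d v) : ¬ Type0 D o a d v := fun h => hv h.1

include H in
/-- the degree in `Γ` is at most the degree -/
theorem deg_le {v : V} (hv : v ≠ o) : D.deg v ≤ d v ∧ (a v = 0 → D.deg v = d v) := by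
  have h1 := H.deg_eq v hv
  split_ifs at h1 with h2
  · constructor
    · omega
    · intro h; omega
  · constructor <;> omega

include H in
/-- 6.7 -/
theorem finV_R {v : V} (hv : v ≠ o) (ha : 1 ≤ a v) :
    0 ≤ finV D o a d v ∧ (6 ≤ d v → (D.deg v : ℤ) + 1 ≤ 6 * finV D o a d v) := by
  have hn : ¬ Needy o a d v := not_needy_of_a ha
  have h5 := H.five v hv
  have hdeg := (deg_le H hv).1
  have ht := t0_le H v
  unfold finV chg
  rw [if_pos ha, sum_phi_zero hn, if_neg (not_type0 hn)]
  by_cases h6 : d v ≤ 6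
  · rw [t0_zero H h6]
    push_cast
    constructor
    · omega
    · intro h7; omega
  · constructor
    · omega
    · intro _; omega

include H in
theorem finV_deep {v : V} (hv : v ≠ o) (ha : a v = 0) (hd : 6 ≤ d v) :
    0 ≤ finV D o a d v ∧ (7 ≤ d v → (D.deg v : ℤ) + 1 ≤ 6 * finV D o a d v) := by
  have hn : ¬ Needy o a d v := not_needy_of_d hd
  have hdeg := (deg_le H hv).1
  have ht := t0_le H v
  unfold finV chg
  rw [if_neg (by omega), sum_phi_zero hn, if_neg (not_type0 hn)]
  by_cases h6 : d v ≤ 6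
  · rw [t0_zero H h6]
    push_cast
    constructor
    · omega
    · intro h7; omega
  · constructor
    · omega
    · intro _; omega

include H in
theorem posV_of {v : V} (hv : v ≠ o) (h : (1 ≤ a v ∧ 6 ≤ d v) ∨ 7 ≤ d v) :
    PosV D o a d v := by
  refine ⟨hv, ?_⟩
  by_cases ha : 1 ≤ a v
  · have := (finV_R H hv ha).2 (by omega)
    have : (0 : ℤ) ≤ D.deg v := by positivity
    omega
  · have := (finV_deep H hv (by omega) (by omega)).2 (by omega)
    have : (0 : ℤ) ≤ D.deg v := by positivity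
    omega

include H in
theorem finV_needy {u : V} (hu : Needy o a d u) {z : ℤ → V} {g : ℤ → F} (hr : IsRot D u z g) :
    finV D o a d u = -10 + (phi D o a d u (g 0) + phi D o a d u (g 1) + phi D o a d u (g 2) +
      phi D o a d u (g 3) + phi D o a d u (g 4)) + (if Type0 D o a d u then 10 else 0) := by
  unfold finV chg
  rw [sum_phi H hu hr, t0_zero H (by rw [hu.2.2]; omega)]
  rw [if_neg (by rw [hu.2.1]; omega), hu.2.2]
  push_cast
  ring

/-- The faces. -/
theorem finF_eq (f : F) : finF D o a d f = 10 * ((D.len f : ℤ) - 3) -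
    (if 4 ≤ D.len f then ((∑ i, wC (fun j => Needy o a d (D.vx f j)) i : ℕ) : ℤ) else 0) := by
  unfold finF
  rw [← sum_vx D f (fun v => (phi D o a d v f : ℤ))]
  congr 1
  by_cases h : 4 ≤ D.len f
  · rw [if_pos h]
    push_cast
    apply sum_congr rfl
    intro i _
    rw [phi_face, if_pos h]
  · rw [if_neg h]
    apply sum_eq_zero
    intro i _
    rw [phi_face, if_neg h]
    rfl

include H in
theorem nbr_o {v : V} (h : Γ.Adj v o) : ¬ Needy o a d v := by
  by_cases hv : v = o
  · rw [hv]; exact not_needy_o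
  · exact not_needy_of_a ((H.adj_o v hv).1 h)

include H in
theorem marked {f : F} (hf : 4 ≤ D.len f) (ho : Von D f o) :
    0 ≤ finF D o a d f ∧
      ((∃ x y, D.on f x y ∧ Needy o a d x ∧ Needy o a d y) → 1 ≤ finF D o a d f) := by
  obtain ⟨i, hi⟩ := (von_iff_vx D f o).1 ho
  have h1 : ¬ Needy o a d (D.vx f i) := by rw [hi]; exact not_needy_o
  have h2 : ¬ Needy o a d (D.vx f (i - 1)) := by
    apply nbr_o H
    rw [← hi]
    exact D.on_adj f _ _ (on_symm' D ((on_face D f i _).2 (Or.inl rfl)))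
  have h3 : ¬ Needy o a d (D.vx f (i + 1)) := by
    apply nbr_o H
    rw [← hi]
    exact D.on_adj f _ _ (on_symm' D ((on_face D f i _).2 (Or.inr rfl)))
  have h4 := sum_wC_marked (D.three_le_len f) (fun j => Needy o a d (D.vx f j)) i h1 h2 h3
  rw [finF_eq, if_pos hf]
  refine ⟨by omega, ?_⟩
  rintro ⟨x, y, hxy, hx, hy⟩
  have h5 : ∃ j, Needy o a d (D.vx f j) ∧ Needy o a d (D.vx f (j + 1)) := by
    obtain ⟨j, ⟨rfl, rfl⟩ | ⟨rfl, rfl⟩⟩ := (D.on_vx f x y).1 hxy
    · exact ⟨j, hx, hy⟩
    · exact ⟨j, hy, hx⟩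
  have h6 := h4.2 h5
  omega

include H in
/-- 6.1 -/
theorem finF_nonneg (f : F) : 0 ≤ finF D o a d f := by
  have h3 := D.three_le_len f
  by_cases h4 : 4 ≤ D.len f
  · by_cases ho : Von D f o
    · exact (marked H h4 ho).1
    · rw [finF_eq, if_pos h4]
      rcases Nat.lt_or_ge 5 (D.len f) with h5 | h5
      · have := sum_wC_le (fun j => Needy o a d (D.vx f j))
        omega
      · rcases Nat.lt_or_ge 4 (D.len f) with h6 | h6
        · have := sum_wC_five (show D.len f = 5 by omega) (fun j => Needy o a d (D.vx f j))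
          omega
        · have := sum_wC_four (show D.len f = 4 by omega) (fun j => Needy o a d (D.vx f j))
            (fun i hi => H.outIII f i (by omega) ho hi.1 hi.2)
          omega
  · rw [finF_eq, if_neg h4]
    omega

/-- positive faces are short compared with their charge; the others are short -/
theorem len_le (f : F) : (1 ≤ finF D o a d f → (D.len f : ℤ) ≤ 6 * finF D o a d f) ∧
    (finF D o a d f ≤ 0 → D.len f ≤ 6) := by
  have h3 := D.three_le_len f
  rw [finF_eq]
  by_cases h4 : 4 ≤ D.len f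
  · rw [if_pos h4]
    have := sum_wC_le (fun j => Needy o a d (D.vx f j))
    constructor <;> omega
  · rw [if_neg h4]
    constructor <;> omega

/-- a face with at least four edges which is not positive has a needy vertex -/
theorem exists_needy {f : F} (h4 : 4 ≤ D.len f) (h : finF D o a d f ≤ 0) :
    ∃ v, Von D f v ∧ Needy o a d v := by
  by_contra hcon
  push Not at hcon
  rw [finF_eq, if_pos h4] at h
  have : ∑ i, wC (fun j => Needy o a d (D.vx f j)) i = 0 := by
    apply sum_eq_zero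
    intro i _
    unfold wC
    rw [if_neg]
    exact hcon _ ((von_iff_vx D f _).2 ⟨i, rfl⟩)
  rw [this] at h
  push_cast at h
  omega

include H in
/-- (3.4) at a vertex of degree three in `Γ` -/
theorem three_faces {v x y : V} {t f : F} (hv : v ≠ o) (hdeg : D.deg v = 3) (ha : 1 ≤ a v)
    (hx : x ≠ o) (hy : y ≠ o) (hxy : x ≠ y) (h1 : D.on t v x) (h2 : D.on t v y)
    (h3 : D.on f v x) (hft : f ≠ t) : Von D f o := by
  obtain ⟨z, g, hr, hz0, hg0⟩ := exists_rot D h1
  subst hz0 hg0
  have hz1 : y = z 1 := by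
    rcases (hr.onz 0 y).1 h2 with h | h
    · exact absurd h.symm hxy
    · simpa using h
  have ho : ∃ i, z i = o := (hr.adj o).1 ((H.adj_o v hv).2 ha)
  obtain ⟨i, hi⟩ := ho
  have hi1 : z i = z (-1) := by
    have e1 : ¬ (3 : ℤ) ∣ i - 0 := by
      intro h
      apply hx
      rw [← hi, hr.zeq, hdeg]
      push_cast
      omega
    have e2 : ¬ (3 : ℤ) ∣ i - 1 := by
      intro h
      apply hy
      rw [hz1, ← hi, hr.zeq, hdeg]
      push_cast
      omega
    rw [hr.zeq, hdeg]
    push_cast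
    omega
  rcases hr.faces D 0 f h3 with h | h
  · exact absurd h hft
  · have h5 : D.on f v o := by
      rw [h, hr.onz]
      left
      rw [← hi, hi1]
      norm_num
    exact ⟨v, on_symm' D h5⟩

end

end U5Dis
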