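import Pool.Agent.Helper98.U5.Needy

/-!
# Needy vertices: nonnegative final charge and a positive object within distance two
-/

set_option linter.unusedSectionVars false
set_option linter.unusedSimpArgs false
set_option linter.unusedTactic false
set_option linter.unreachableTactic false
set_option linter.unnecessarySeqFocus false
set_option linter.unusedVariables false

namespace U5Dis

open Finset Classical Pool.Agent.Helper1.PG

variable {V F : Type} [Fintype V] [Fintype F] {Γ : SimpleGraph V}

/-- patterns of the triangular corners -/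
theorem pattern (T : ℤ → Prop) (hp : ∀ i, T (i + 5) ↔ T i) :
    (T 0 ∧ T 1 ∧ T 2 ∧ T 3 ∧ T 4) ∨
    (∃ s, ¬ T s ∧ T (s + 1) ∧ T (s + 2) ∧ T (s + 3) ∧ T (s + 4)) ∨
    (∃ s, ¬ T s ∧ ¬ T (s + 1) ∧ T (s + 2) ∧ T (s + 3) ∧ T (s + 4)) ∨
    (∃ s, T s ∧ ¬ T (s + 1) ∧ T (s + 2) ∧ ¬ T (s + 3) ∧ T (s + 4)) ∨
    (3 ≤ (if T 0 then 0 else 1) + (if T 1 then 0 else 1) + (if T 2 then 0 else 1) +
      (if T 3 then 0 else 1) + (if T 4 then 0 else 1)) := by
  have h5 : T 5 ↔ T 0 := hp 0
  have h6 : T 6 ↔ T 1 := hp 1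
  have h7 : T 7 ↔ T 2 := hp 2
  have h8 : T 8 ↔ T 3 := hp 3
  by_cases c0 : T 0 <;> by_cases c1 : T 1 <;> by_cases c2 : T 2 <;> by_cases c3 : T 3 <;>
    by_cases c4 : T 4 <;>
  first
    | exact Or.inl ⟨c0, c1, c2, c3, c4⟩
    | (right; right; right; right; simp only [c0, c1, c2, c3, c4, if_true, if_false]; norm_num; done)
    | (right; left; refine ⟨0, ?_⟩; norm_num; simp only [c0, c1, c2, c3, c4, h5, h6, h7, h8]; simp; done)
    | (right; left; refine ⟨1, ?_⟩; norm_num; simp only [c0, c1, c2, c3, c4, h5, h6, h7, h8]; simp; done)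
    | (right; left; refine ⟨2, ?_⟩; norm_num; simp only [c0, c1, c2, c3, c4, h5, h6, h7, h8]; simp; done)
    | (right; left; refine ⟨3, ?_⟩; norm_num; simp only [c0, c1, c2, c3, c4, h5, h6, h7, h8]; simp; done)
    | (right; left; refine ⟨4, ?_⟩; norm_num; simp only [c0, c1, c2, c3, c4, h5, h6, h7, h8]; simp; done)
    | (right; right; left; refine ⟨0, ?_⟩; norm_num; simp only [c0, c1, c2, c3, c4, h5, h6, h7, h8]; simp; done)
    | (right; right; left; refine ⟨1, ?_⟩; norm_num; simp only [c0, c1, c2, c3, c4, h5, h6, h7, h8]; simp; done)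
    | (right; right; left; refine ⟨2, ?_⟩; norm_num; simp only [c0, c1, c2, c3, c4, h5, h6, h7, h8]; simp; done)
    | (right; right; left; refine ⟨3, ?_⟩; norm_num; simp only [c0, c1, c2, c3, c4, h5, h6, h7, h8]; simp; done)
    | (right; right; left; refine ⟨4, ?_⟩; norm_num; simp only [c0, c1, c2, c3, c4, h5, h6, h7, h8]; simp; done)
    | (right; right; right; left; refine ⟨0, ?_⟩; norm_num; simp only [c0, c1, c2, c3, c4, h5, h6, h7, h8]; simp; done)
    | (right; right; right; left; refine ⟨1, ?_⟩; norm_num; simp only [c0, c1, c2, c3, c4, h5, h6, h7, h8]; simp; done)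
    | (right; right; right; left; refine ⟨2, ?_⟩; norm_num; simp only [c0, c1, c2, c3, c4, h5, h6, h7, h8]; simp; done)
    | (right; right; right; left; refine ⟨3, ?_⟩; norm_num; simp only [c0, c1, c2, c3, c4, h5, h6, h7, h8]; simp; done)
    | (right; right; right; left; refine ⟨4, ?_⟩; norm_num; simp only [c0, c1, c2, c3, c4, h5, h6, h7, h8]; simp; done)

section

variable {D : PlaneData Γ F} {o : V} {a d : V → ℕ} (H : DC D o a d)

include H in
/-- lower bounds for the weights at a needy vertex -/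
theorem phi_ge {u : V} (hu : Needy o a d u) {z : ℤ → V} {g : ℤ → F} (hr : IsRot D u z g) (i : ℤ) :
    4 * (if D.len (g i) = 3 then 0 else 1) ≤ phi D o a d u (g i) := by
  by_cases h : D.len (g i) = 3
  · rw [if_pos h]; omega
  · rw [if_neg h, phi_N H hu hr i h]
    have := wN_ge (Needy o a d (z i)) (Needy o a d (z (i + 1)))
    omega

include H in
/-- three corners which are no triangles -/
theorem three_N {u : V} (hu : Needy o a d u) {z : ℤ → V} {g : ℤ → F} (hr : IsRot D u z g)
    (h : 3 ≤ (if D.len (g 0) = 3 then 0 else 1) + (if D.len (g 1) = 3 then 0 else 1) +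
      (if D.len (g 2) = 3 then 0 else 1) +
      (if D.len (g 3) = 3 then 0 else 1) + (if D.len (g 4) = 3 then 0 else 1)) :
    PosV D o a d u := by
  refine ⟨hu.1, ?_⟩
  rw [finV_needy H hu hr]
  have h0 := phi_ge H hu hr 0
  have h1 := phi_ge H hu hr 1
  have h2 := phi_ge H hu hr 2
  have h3 := phi_ge H hu hr 3
  have h4 := phi_ge H hu hr 4
  split_ifs <;> omega

/-- upper bound for `a` at a neighbour with three known neighbours -/
theorem deg_three {v x y : V} (H : DC D o a d) (hv : v ≠ o) (ha : 1 ≤ a v) (hd : d v = 5)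
    (hx : Γ.Adj v x) (hy : Γ.Adj v y) (hxy : x ≠ y) (hxo : x ≠ o) (hyo : y ≠ o) :
    a v ≤ 3 ∧ (a v = 3 → D.deg v = 3) := by
  have h1 := H.deg_eq v hv
  rw [if_pos ha, hd] at h1
  have h2 : 3 ≤ D.deg v := by
    rw [← card_nbrs D v]
    have h3 : ({x, y, o} : Finset V) ⊆ univ.filter (fun w => Γ.Adj v w) := by
      intro w hw
      simp only [mem_insert, mem_singleton] at hw
      rw [mem_filter]
      refine ⟨mem_univ _, ?_⟩
      rcases hw with rfl | rfl | rfl
      · exact hx
      · exact hy
      · exact (H.adj_o v hv).2 ha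
    have h4 : ({x, y, o} : Finset V).card = 3 := by
      rw [card_insert_of_notMem, card_insert_of_notMem, card_singleton]
      · rw [mem_singleton]; exact hyo
      · rw [mem_insert, mem_singleton, not_or]; exact ⟨hxy, hxo⟩
    rw [← h4]
    exact card_le_card h3
  constructor
  · omega
  · intro h; omega

include H in
/-- a face through `o` with two consecutive needy vertices -/
theorem marked_pos {f : F} {u v w : V} (h4 : D.len f ≠ 3) (ho : Von D f o) (hu : Needy o a d u)
    (hv : Needy o a d v) (h : D.on f u v) (hw : Von D f w) :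
    ∃ f, 1 ≤ finF D o a d f ∧ Von D f w := by
  have h3 := D.three_le_len f
  exact ⟨f, (marked H (by omega) ho).2 ⟨u, v, h, hu, hv⟩, hw⟩

include H in
/-- case (B) of 6.5 -/
theorem lemB {u : V} (hu : Needy o a d u) {z : ℤ → V} {g : ℤ → F} (hr : IsRot D u z g)
    (hT4 : D.len (g (-1)) = 3) (hT0 : D.len (g 0) = 3) (hN1 : D.len (g 1) ≠ 3)
    (hd0 : d (z 0) = 5) (hn1 : Needy o a d (z 1)) (hn4 : Needy o a d (z (-1))) :
    Bk D o a d (PosV D o a d) 1 (z 1) := by
  -- rotation at z 1 starting from u and the triangle (u, z 0, z 1)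
  have e1 : D.on (g 0) (z 1) u := on_symm' D (hr.on2 D 0)
  obtain ⟨y, h, hs, hy0, hh0⟩ := exists_rot D e1
  have hy1 : y 1 = z 0 := by
    have e2 : D.on (g 0) (z 1) (z 0) := on_symm' D (adj_succ H hu hr 0 hT0)
    have e3 := hs.onz 0 (z 0)
    rw [hh0] at e3
    rcases e3.1 e2 with h1 | h1
    · rw [hy0] at h1
      exact absurd h1 (hr.vadj D 0).ne'
    · rw [h1]; norm_num
  -- the other face at the edge (z 1, u)
  have hh4 : h (-1) = g 1 := by
    have e4 : D.on (g 1) (z 1) (y 0) := by rw [hy0]; exact on_symm' D (hr.on1 D 1)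
    rcases hs.faces D 0 (g 1) e4 with h1 | h1
    · rw [hh0] at h1
      exact absurd h1 (gne H hu hr 1 0 (by omega))
    · rw [h1]; norm_num
  have hz5 := zper H hn1 hs
  have hg5 := gper H hn1 hs
  have hN4' : D.len (h 4) ≠ 3 := by
    have := hg5 (-1)
    norm_num at this
    rw [this, hh4]; exact hN1
  have hT0' : D.len (h 0) = 3 := by rw [hh0]; exact hT0
  have hz1o : z 1 ≠ o := hn1.1
  have pos1 : PosV D o a d (z 1) → Bk D o a d (PosV D o a d) 1 (z 1) := fun hp =>
    Bk_mono (Nat.zero_le 1) ⟨hz1o, Or.inl hp⟩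
  have posn : ∀ w, Γ.Adj (z 1) w → PosV D o a d w → Bk D o a d (PosV D o a d) 1 (z 1) :=
    fun w hw hp => Bk_adj (k := 0) (w := w) ⟨hp.1, Or.inl hp⟩ hz1o hw.symm
  have posf : (∃ f, 1 ≤ finF D o a d f ∧ Von D f (z 1)) →
      Bk D o a d (PosV D o a d) 1 (z 1) := fun hf =>
    Bk_mono (Nat.zero_le 1) ⟨hz1o, Or.inr hf⟩
  by_cases hT1 : D.len (h 1) = 3
  · -- impossible
    exfalso
    have ho := out_at H hn1 hs 1 (by norm_num; exact hT0') hT1
    norm_num at ho
    rw [hy0, hy1] at ho
    have hadj : Γ.Adj (z 0) (z (-1)) := by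
      have := adj_succ H hu hr (-1) hT4
      norm_num at this
      exact (D.on_adj _ _ _ this).symm
    have hne1 : z (-1) ≠ z 1 := zne H hu hr _ _ (by omega)
    have hne2 : z (-1) ≠ u := (hr.vadj D _).ne'
    rcases ho with ⟨h1, -⟩ | ⟨-, -, h3⟩ | ⟨-, -, -, h4, -⟩
    · omega
    · by_cases h5 : z (-1) = y 2
      · have h6 : Γ.Adj (z 1) (z (-1)) := by rw [h5]; exact hs.vadj D 2
        have h7 := nonadj_at H hu hr 0 (by norm_num; exact hT4) hT0
        norm_num at h7
        exact h7 h6.symm
      · have h6 := h3 _ hn4.1 hadj hne1 hne2 h5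
        have := hn4.2.2
        omega
    · have := hu.2.1
      omega
  · by_cases hT23 : D.len (h 2) = 3 ∧ D.len (h 3) = 3
    · obtain ⟨hT2, hT3⟩ := hT23
      have ho := out_at H hn1 hs 3 (by norm_num; exact hT2) hT3
      norm_num at ho
      have hny0 : ∀ j : ℤ, 0 < j → j < 5 → u ≠ y j := by
        intro j h1 h2
        rw [← hy0]
        exact zne H hn1 hs _ _ (by omega)
      have hadju : Γ.Adj (z 1) u := D.on_adj _ _ _ e1
      rcases ho with ⟨-, h1⟩ | ⟨-, h1, -⟩ | ⟨-, h4, h5, h6, h7, h8, -⟩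
      · have := h1 u hu.1 hadju (hny0 2 (by omega) (by omega)) (hny0 3 (by omega) (by omega))
          (hny0 4 (by omega) (by omega))
        have := hu.2.2
        omega
      · have := h1 u hu.1 hadju (hny0 2 (by omega) (by omega)) (hny0 3 (by omega) (by omega))
          (hny0 4 (by omega) (by omega))
        have := hu.2.2
        omega
      · -- (IX)
        have hy5 : y 5 = u := by have := hz5 0; norm_num at this; rw [this, hy0]
        have hn4' : ¬ Needy o a d (y 4) := not_needy_of_a h7
        have hn2' : ¬ Needy o a d (y 2) := not_needy_of_a h6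
        have w4 : phi D o a d (z 1) (h 4) = wN (Needy o a d (y 4)) (Needy o a d (y 5)) := by
          have := phi_N H hn1 hs 4 hN4'
          norm_num at this
          exact this
        have w1 : phi D o a d (z 1) (h 1) = wN (Needy o a d (y 1)) (Needy o a d (y 2)) := by
          have := phi_N H hn1 hs 1 hT1
          norm_num at this
          exact this
        have w4' := wN_ge_five (Or.inl hn4' : ¬ Needy o a d (y 4) ∨ ¬ Needy o a d (y 5))
        by_cases hn0 : Needy o a d (z 0)
        · by_cases hd2 : 6 ≤ d (y 2)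
          · exact posn _ (hs.vadj D 2) (posV_of H (zno H hn1 hs _) (Or.inl ⟨h6, hd2⟩))
          by_cases hd4 : 6 ≤ d (y 4)
          · exact posn _ (hs.vadj D 4) (posV_of H (zno H hn1 hs _) (Or.inl ⟨h7, hd4⟩))
          have hd2' : d (y 2) = 5 := by have := H.five _ (zno H hn1 hs 2); omega
          have hd4' : d (y 4) = 5 := by have := H.five _ (zno H hn1 hs 4); omega
          have hon2 : D.on (h 2) (y 2) (y 3) := by
            have := adj_succ H hn1 hs 2 hT2
            norm_num at this
            exact this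
          have hon3 : D.on (h 3) (y 3) (y 4) := by
            have := adj_succ H hn1 hs 3 hT3
            norm_num at this
            exact this
          have h13 : z 1 ≠ y 3 := (hs.vadj D 3).ne
          have b2 := deg_three H (zno H hn1 hs 2) h6 hd2' (hs.vadj D 2).symm
            (D.on_adj _ _ _ hon2) h13 hz1o (zno H hn1 hs 3)
          have b4 := deg_three H (zno H hn1 hs 4) h7 hd4' (hs.vadj D 4).symm
            (D.on_adj _ _ _ hon3).symm h13 hz1o (zno H hn1 hs 3)
          rcases Nat.lt_or_ge (a (y 2)) 3 with hlt | hge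
          · -- a (y 4) = 3
            have hdeg := b4.2 (by omega)
            have hvon : Von D (h 4) o := by
              refine three_faces H (t := h 3) (v := y 4) (x := z 1) (y := y 3)
                (zno H hn1 hs 4) hdeg h7 hz1o (zno H hn1 hs 3) h13 ?_ (on_symm' D hon3) ?_
                (gne H hn1 hs _ _ (by omega))
              · have := hs.on2 D 3
                norm_num at this
                exact on_symm' D this
              · exact on_symm' D (hs.on1 D 4)
            refine posf (marked_pos H hN4' hvon hn1 hu ?_ ⟨_, hs.on1 D 4⟩)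
            have := hs.on2 D 4
            norm_num at this
            rw [hy5] at this
            exact this
          · have hdeg := b2.2 (by omega)
            have hvon : Von D (h 1) o := by
              refine three_faces H (t := h 2) (v := y 2) (x := z 1) (y := y 3)
                (zno H hn1 hs 2) hdeg h6 hz1o (zno H hn1 hs 3) h13 ?_ hon2 ?_
                (gne H hn1 hs _ _ (by omega))
              · exact on_symm' D (hs.on1 D 2)
              · have := hs.on2 D 1
                norm_num at this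
                exact on_symm' D this
            refine posf (marked_pos H hT1 hvon hn1 hn0 ?_ ⟨_, hs.on1 D 1⟩)
            have := hs.on1 D 1
            rw [hy1] at this
            exact this
        · apply pos1
          refine ⟨hz1o, ?_⟩
          rw [finV_needy H hn1 hs, w4, w1]
          rw [hy1, wN_ten hn0 hn2']
          split_ifs <;> omega
    · apply pos1
      apply three_N H hn1 hs
      rw [if_neg hT1, if_neg hN4', if_pos hT0']
      by_cases h2 : D.len (h 2) = 3
      · have h3 : D.len (h 3) ≠ 3 := fun h3 => hT23 ⟨h2, h3⟩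
        rw [if_neg h3]
        split_ifs <;> omega
      · rw [if_neg h2]
        split_ifs <;> omega

include H in
/-- 6.3: exactly one corner is not a triangle -/
theorem case_one {u : V} (hu : Needy o a d u) {z : ℤ → V} {g : ℤ → F} (hr : IsRot D u z g)
    (h0 : D.len (g 0) ≠ 3) (h1 : D.len (g 1) = 3) (h2 : D.len (g 2) = 3) (h3 : D.len (g 3) = 3)
    (h4 : D.len (g 4) = 3) :
    0 ≤ finV D o a d u ∧ Bk D o a d (PosV D o a d) 1 u := by
  have o2 := outN_at H hu hr 2 (by norm_num; exact h1) h2
  have o3 := outN_at H hu hr 3 (by norm_num; exact h2) h3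
  have o4 := outN_at H hu hr 4 (by norm_num; exact h3) h4
  have p0 := zper H hu hr 0
  have p1 := zper H hu hr 1
  have p2 := zper H hu hr 2
  have f0 := H.five _ (zno H hu hr 0)
  have f1 := H.five _ (zno H hu hr 1)
  simp only [OutN] at o2 o3 o4
  norm_num at o2 o3 o4 p0 p1 p2
  rw [p0] at o2 o3 o4
  rw [p1] at o3 o4
  rw [p2] at o4
  have key : 6 ≤ d (z 1) ∧ 6 ≤ d (z 0) ∧ (7 ≤ d (z 2) ∨ (1 ≤ a (z 1) ∧ 6 ≤ d (z 1))) := by
    clear f0 f1
    rcases o2 with o2 | o2 | o2 <;> rcases o3 with o3 | o3 | o3 <;> rcases o4 with o4 | o4 | o4 <;>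
      omega
  constructor
  · rw [finV_needy H hu hr, phi_N H hu hr 0 h0]
    norm_num
    rw [wN_ten (not_needy_of_d key.2.1) (not_needy_of_d key.1)]
    split_ifs <;> omega
  · rcases key.2.2 with h5 | h5
    · exact Bk_adj (k := 0) (w := z 2)
        ⟨zno H hu hr 2, Or.inl (posV_of H (zno H hu hr 2) (Or.inr h5))⟩ hu.1 (hr.vadj D 2).symm
    · exact Bk_adj (k := 0) (w := z 1)
        ⟨zno H hu hr 1, Or.inl (posV_of H (zno H hu hr 1) (Or.inl h5))⟩ hu.1 (hr.vadj D 1).symm

include H in
/-- 6.4: exactly two adjacent corners are not triangles -/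
theorem case_two_adj {u : V} (hu : Needy o a d u) {z : ℤ → V} {g : ℤ → F} (hr : IsRot D u z g)
    (h0 : D.len (g 0) ≠ 3) (h1 : D.len (g 1) ≠ 3) (h2 : D.len (g 2) = 3) (h3 : D.len (g 3) = 3)
    (h4 : D.len (g 4) = 3) :
    0 ≤ finV D o a d u ∧ Bk D o a d (PosV D o a d) 1 u := by
  have o3 := outN_at H hu hr 3 (by norm_num; exact h2) h3
  have o4 := outN_at H hu hr 4 (by norm_num; exact h3) h4
  have p0 := zper H hu hr 0
  have p1 := zper H hu hr 1
  have p2 := zper H hu hr 2
  simp only [OutN] at o3 o4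
  norm_num at o3 o4 p0 p1 p2
  rw [p0] at o3 o4
  rw [p1] at o3 o4
  rw [p2] at o4
  have key : (6 ≤ d (z 0) ∧ 6 ≤ d (z 1)) ∨ (6 ≤ d (z 1) ∧ 6 ≤ d (z 2)) ∨
      (a (z 2) = 3 ∧ a (z 0) = 3 ∧ d (z 3) = 5 ∧ a (z 3) = 2) := by
    rcases o3 with o3 | o3 | o3 <;> rcases o4 with o4 | o4 | o4 <;> omega
  have w0 := phi_N H hu hr 0 h0
  have w1 := phi_N H hu hr 1 h1
  norm_num at w0 w1
  have b0 := wN_ge (Needy o a d (z 0)) (Needy o a d (z 1))
  have b1 := wN_ge (Needy o a d (z 1)) (Needy o a d (z 2))
  have hfin := finV_needy H hu hr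
  rw [w0, w1] at hfin
  have posu : 1 ≤ finV D o a d u →
      0 ≤ finV D o a d u ∧ Bk D o a d (PosV D o a d) 1 u := fun hp =>
    ⟨by omega, Bk_mono (Nat.zero_le 1) ⟨hu.1, Or.inl ⟨hu.1, hp⟩⟩⟩
  rcases key with ⟨k0, k1⟩ | ⟨k1, k2⟩ | ⟨k2, k0, k3, k4⟩
  · apply posu
    rw [wN_ten (not_needy_of_d k0) (not_needy_of_d k1)] at hfin
    have := wN_ge_five (Or.inl (not_needy_of_d k1) : ¬ Needy o a d (z 1) ∨ ¬ Needy o a d (z 2))
    split_ifs at hfin <;> omega
  · apply posu
    rw [wN_ten (not_needy_of_d k1) (not_needy_of_d k2)] at hfin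
    have := wN_ge_five (Or.inr (not_needy_of_d k1) : ¬ Needy o a d (z 0) ∨ ¬ Needy o a d (z 1))
    split_ifs at hfin <;> omega
  · have n0 : ¬ Needy o a d (z 0) := not_needy_of_a (by omega)
    have n2 : ¬ Needy o a d (z 2) := not_needy_of_a (by omega)
    have c0 := wN_ge_five (Or.inl n0 : ¬ Needy o a d (z 0) ∨ ¬ Needy o a d (z 1))
    have c1 := wN_ge_five (Or.inr n2 : ¬ Needy o a d (z 1) ∨ ¬ Needy o a d (z 2))
    by_cases n1 : Needy o a d (z 1)
    · refine ⟨by split_ifs at hfin <;> omega, ?_⟩
      by_cases hd2 : 6 ≤ d (z 2)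
      · exact Bk_adj (k := 0) (w := z 2)
          ⟨zno H hu hr 2, Or.inl (posV_of H (zno H hu hr 2) (Or.inl ⟨by omega, hd2⟩))⟩ hu.1
          (hr.vadj D 2).symm
      · have hd2' : d (z 2) = 5 := by have := H.five _ (zno H hu hr 2); omega
        have hon2 : D.on (g 2) (z 2) (z 3) := by
          have := adj_succ H hu hr 2 h2
          norm_num at this
          exact this
        have hu3 : u ≠ z 3 := (hr.vadj D 3).ne
        have b2 := deg_three H (zno H hu hr 2) (by omega) hd2' (hr.vadj D 2).symm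
          (D.on_adj _ _ _ hon2) hu3 hu.1 (zno H hu hr 3)
        have hvon : Von D (g 1) o := by
          refine three_faces H (t := g 2) (v := z 2) (x := u) (y := z 3)
            (zno H hu hr 2) (b2.2 k2) (by omega) hu.1 (zno H hu hr 3) hu3
            (on_symm' D (hr.on1 D 2)) hon2 ?_ (gne H hu hr _ _ (by omega))
          have := hr.on2 D 1
          norm_num at this
          exact on_symm' D this
        exact Bk_mono (Nat.zero_le 1) ⟨hu.1, Or.inr (marked_pos H h1 hvon hu n1 (hr.on1 D 1)
          ⟨_, hr.on1 D 1⟩)⟩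
    · apply posu
      rw [wN_ten n0 n1, wN_ten n1 n2] at hfin
      split_ifs at hfin <;> omega

include H in
/-- 6.5: exactly two corners are not triangles, not adjacent -/
theorem case_two_non {u : V} (hu : Needy o a d u) {z : ℤ → V} {g : ℤ → F} (hr : IsRot D u z g)
    (h0 : D.len (g 0) = 3) (h1 : D.len (g 1) ≠ 3) (h2 : D.len (g 2) = 3) (h3 : D.len (g 3) ≠ 3)
    (h4 : D.len (g 4) = 3) :
    0 ≤ finV D o a d u ∧ Bk D o a d (PosV D o a d) 2 u := by
  have hm1 : D.len (g (-1)) = 3 := by
    have := gper H hu hr (-1)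
    norm_num at this
    rw [← this]; exact h4
  have pm1 : z 4 = z (-1) := by
    have := zper H hu hr (-1)
    norm_num at this
    exact this
  have o0 := outN_at H hu hr 0 (by norm_num; exact hm1) h0
  simp only [OutN] at o0
  norm_num at o0
  have w1 := phi_N H hu hr 1 h1
  have w3 := phi_N H hu hr 3 h3
  norm_num at w1 w3
  have b1 := wN_ge (Needy o a d (z 1)) (Needy o a d (z 2))
  have b3 := wN_ge (Needy o a d (z 3)) (Needy o a d (z 4))
  have hfin := finV_needy H hu hr
  rw [w1, w3] at hfin
  have posu : 1 ≤ finV D o a d u →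
      0 ≤ finV D o a d u ∧ Bk D o a d (PosV D o a d) 2 u := fun hp =>
    ⟨by omega, Bk_mono (Nat.zero_le 2) ⟨hu.1, Or.inl ⟨hu.1, hp⟩⟩⟩
  rcases o0 with ⟨k0, k2, k3⟩ | ⟨k0, k2, k3⟩ | ⟨k0, k1, k2, k3, k4⟩
  · -- (A)
    have c1 := wN_ge_five (Or.inr (not_needy_of_d k2) : ¬ Needy o a d (z 1) ∨ ¬ Needy o a d (z 2))
    have c3 := wN_ge_five (Or.inl (not_needy_of_d k3) : ¬ Needy o a d (z 3) ∨ ¬ Needy o a d (z 4))
    refine ⟨by split_ifs at hfin <;> omega, ?_⟩
    exact Bk_mono (show 1 ≤ 2 by omega) (Bk_adj (k := 0) (w := z 0)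
      ⟨zno H hu hr 0, Or.inl (posV_of H (zno H hu hr 0) (Or.inr k0))⟩ hu.1 (hr.vadj D 0).symm)
  · -- (B)
    have c1 := wN_ge_five (Or.inr (not_needy_of_d k2) : ¬ Needy o a d (z 1) ∨ ¬ Needy o a d (z 2))
    have c3 := wN_ge_five (Or.inl (not_needy_of_d k3) : ¬ Needy o a d (z 3) ∨ ¬ Needy o a d (z 4))
    by_cases n1 : Needy o a d (z 1)
    · by_cases n4 : Needy o a d (z 4)
      · refine ⟨by split_ifs at hfin <;> omega, ?_⟩
        have hB := lemB H hu hr hm1 h0 h1 k0 n1 (by rw [← pm1]; exact n4)
        exact Bk_adj hB hu.1 (hr.vadj D 1).symm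
      · apply posu
        rw [wN_ten (not_needy_of_d k3) n4] at hfin
        split_ifs at hfin <;> omega
    · apply posu
      rw [wN_ten n1 (not_needy_of_d k2)] at hfin
      split_ifs at hfin <;> omega
  · -- (C)
    rw [← pm1] at k2 k4
    have n1 : ¬ Needy o a d (z 1) := not_needy_of_a k3
    have n4 : ¬ Needy o a d (z 4) := not_needy_of_a k2
    have c1 := wN_ge_five (Or.inl n1 : ¬ Needy o a d (z 1) ∨ ¬ Needy o a d (z 2))
    have c3 := wN_ge_five (Or.inr n4 : ¬ Needy o a d (z 3) ∨ ¬ Needy o a d (z 4))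
    by_cases n2 : Needy o a d (z 2)
    · by_cases n3 : Needy o a d (z 3)
      · refine ⟨by split_ifs at hfin <;> omega, ?_⟩
        by_cases hd1 : 6 ≤ d (z 1)
        · exact Bk_mono (show 1 ≤ 2 by omega) (Bk_adj (k := 0) (w := z 1)
            ⟨zno H hu hr 1, Or.inl (posV_of H (zno H hu hr 1) (Or.inl ⟨k3, hd1⟩))⟩ hu.1
            (hr.vadj D 1).symm)
        by_cases hd4 : 6 ≤ d (z 4)
        · exact Bk_mono (show 1 ≤ 2 by omega) (Bk_adj (k := 0) (w := z 4)
            ⟨zno H hu hr 4, Or.inl (posV_of H (zno H hu hr 4) (Or.inl ⟨k2, hd4⟩))⟩ hu.1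
            (hr.vadj D 4).symm)
        have hd1' : d (z 1) = 5 := by have := H.five _ (zno H hu hr 1); omega
        have hd4' : d (z 4) = 5 := by have := H.five _ (zno H hu hr 4); omega
        have hu0 : u ≠ z 0 := (hr.vadj D 0).ne
        have z5 : z 5 = z 0 := by have := zper H hu hr 0; norm_num at this; exact this
        have hon1 : D.on (g 0) (z 1) (z 0) := by
          have := adj_succ H hu hr 0 h0
          norm_num at this
          exact on_symm' D this
        have hon4 : D.on (g 4) (z 4) (z 0) := by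
          have := adj_succ H hu hr 4 h4
          norm_num at this
          rw [z5] at this
          exact this
        have b1' := deg_three H (zno H hu hr 1) k3 hd1' (hr.vadj D 1).symm
          (D.on_adj _ _ _ hon1) hu0 hu.1 (zno H hu hr 0)
        have b4' := deg_three H (zno H hu hr 4) k2 hd4' (hr.vadj D 4).symm
          (D.on_adj _ _ _ hon4) hu0 hu.1 (zno H hu hr 0)
        rcases Nat.lt_or_ge (a (z 1)) 3 with hlt | hge
        · -- a (z 4) = 3
          have hvon : Von D (g 3) o := by
            refine three_faces H (t := g 4) (v := z 4) (x := u) (y := z 0)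
              (zno H hu hr 4) (b4'.2 (by omega)) k2 hu.1 (zno H hu hr 0) hu0
              (on_symm' D (hr.on1 D 4)) hon4 ?_ (gne H hu hr _ _ (by omega))
            have := hr.on2 D 3
            norm_num at this
            exact on_symm' D this
          exact Bk_mono (Nat.zero_le 2) ⟨hu.1, Or.inr (marked_pos H h3 hvon hu n3 (hr.on1 D 3)
            ⟨_, hr.on1 D 3⟩)⟩
        · have hvon : Von D (g 1) o := by
            refine three_faces H (t := g 0) (v := z 1) (x := u) (y := z 0)
              (zno H hu hr 1) (b1'.2 (by omega)) k3 hu.1 (zno H hu hr 0) hu0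
              ?_ hon1 (on_symm' D (hr.on1 D 1)) (gne H hu hr _ _ (by omega))
            have := hr.on2 D 0
            norm_num at this
            exact on_symm' D this
          refine Bk_mono (Nat.zero_le 2) ⟨hu.1, Or.inr (marked_pos H h1 hvon hu n2 ?_
            ⟨_, hr.on1 D 1⟩)⟩
          have := hr.on2 D 1
          norm_num at this
          exact this
      · apply posu
        rw [wN_ten n3 n4] at hfin
        split_ifs at hfin <;> omega
    · apply posu
      rw [wN_ten n1 n2] at hfin
      split_ifs at hfin <;> omega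

include H in
/-- 6.2 - 6.6 -/
theorem needy_main {u : V} (hu : Needy o a d u) :
    0 ≤ finV D o a d u ∧ Bk D o a d (PosV D o a d) 2 u := by
  obtain ⟨z, g, hr⟩ := exists_rot' D u
  have hg5 := gper H hu hr
  rcases pattern (fun i => D.len (g i) = 3) (fun i => by simp only [hg5 i]) with
    ⟨h0, h1, h2, h3, h4⟩ | ⟨s, h0, h1, h2, h3, h4⟩ | ⟨s, h0, h1, h2, h3, h4⟩ |
    ⟨s, h0, h1, h2, h3, h4⟩ | h
  · -- all triangles
    have hT : Type0 D o a d u := by
      refine ⟨hu, fun f hf => ?_⟩
      obtain ⟨i, rfl⟩ := hr.von f hf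
      have : g i = g (i % 5) := by
        rw [hr.geq, needy_deg H hu]; omega
      rw [this]
      have e1 : 0 ≤ i % 5 := by omega
      have e2 : i % 5 < 5 := by omega
      generalize i % 5 = k at e1 e2
      interval_cases k
      · exact h0
      · exact h1
      · exact h2
      · exact h3
      · exact h4
    constructor
    · rw [finV_needy H hu hr, if_pos hT]
      omega
    · have := type0_nbr H hT (hr.vadj D 0)
      exact Bk_mono (show 1 ≤ 2 by omega) (Bk_adj (k := 0) (w := z 0)
        ⟨zno H hu hr 0, Or.inl (posV_of H (zno H hu hr 0) (Or.inr this))⟩ hu.1 (hr.vadj D 0).symm)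
  · have hs := hr.shift D s
    have := case_one H hu hs (by simpa using h0) (by simpa [add_comm] using h1)
      (by simpa [add_comm] using h2) (by simpa [add_comm] using h3) (by simpa [add_comm] using h4)
    exact ⟨this.1, Bk_mono (by omega) this.2⟩
  · have hs := hr.shift D s
    have := case_two_adj H hu hs (by simpa using h0) (by simpa [add_comm] using h1)
      (by simpa [add_comm] using h2) (by simpa [add_comm] using h3) (by simpa [add_comm] using h4)
    exact ⟨this.1, Bk_mono (by omega) this.2⟩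
  · have hs := hr.shift D s
    exact case_two_non H hu hs (by simpa using h0) (by simpa [add_comm] using h1)
      (by simpa [add_comm] using h2) (by simpa [add_comm] using h3) (by simpa [add_comm] using h4)
  · have := three_N H hu hr (by convert h)
    exact ⟨by have := this.2; omega, Bk_mono (Nat.zero_le 2) ⟨hu.1, Or.inl this⟩⟩

end

end U5Dis
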