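import Mathlib

/-!
# Star contraction: sparse minor-closed graphs of bounded degree are hyperfinite
-/

set_option linter.unusedSectionVars false

namespace U5Fin

open Finset Classical

variable {V : Type*} [Fintype V]

/-- The graph with only those edges of `G` whose ends have the same label. -/
def within (G : SimpleGraph V) (l : V → V) : SimpleGraph V where
  Adj x y := G.Adj x y ∧ l x = l y
  symm := ⟨fun _ _ h => ⟨h.1.symm, h.2.symm⟩⟩
  loopless := ⟨fun _ h => G.loopless.irrefl _ h.1⟩

/-- All fibres of the labelling are connected in `G`. -/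
def ConnLab (G : SimpleGraph V) (l : V → V) : Prop :=
  ∀ x y, l x = l y → (within G l).Reachable x y

/-- Adjacency of labels. -/
def LAdj (G : SimpleGraph V) (l : V → V) (a b : V) : Prop :=
  a ≠ b ∧ ∃ x y, l x = a ∧ l y = b ∧ G.Adj x y

/-- Every minor of `G` has at most three times as many edges as vertices. -/
def MinorSparse (G : SimpleGraph V) : Prop :=
  ∀ l : V → V, ConnLab G l → ∀ S : Finset V,
    ((S ×ˢ S).filter (fun p => LAdj G l p.1 p.2)).card ≤ 6 * S.card

/-- weight between two labels -/
noncomputable def wt (G : SimpleGraph V) (l : V → V) (a b : V) : ℕ :=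
  ((univ : Finset (V × V)).filter (fun p => G.Adj p.1 p.2 ∧ l p.1 = a ∧ l p.2 = b ∧ a ≠ b)).card

/-- number of ordered crossing pairs -/
noncomputable def cross (G : SimpleGraph V) (l : V → V) : ℕ :=
  ((univ : Finset (V × V)).filter (fun p => G.Adj p.1 p.2 ∧ l p.1 ≠ l p.2)).card

theorem within_mono {G H : SimpleGraph V} (h : H ≤ G) (l : V → V) : within H l ≤ within G l := by
  intro x y hxy
  exact ⟨h hxy.1, hxy.2⟩

theorem MinorSparse.mono {G H : SimpleGraph V} (hG : MinorSparse G) (h : H ≤ G) :
    MinorSparse H := by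
  intro l hl S
  have hl' : ConnLab G l := fun x y hxy => (hl x y hxy).mono (within_mono h l)
  refine le_trans (card_le_card ?_) (hG l hl' S)
  intro p hp
  simp only [mem_filter] at hp ⊢
  obtain ⟨h1, h2, x, y, hx, hy, hxy⟩ := hp
  exact ⟨h1, h2, x, y, hx, hy, h hxy⟩

theorem wt_eq_zero {G : SimpleGraph V} {l : V → V} {a b : V} (h : ¬ LAdj G l a b) :
    wt G l a b = 0 := by
  unfold wt
  rw [card_eq_zero, filter_eq_empty_iff]
  rintro p - ⟨h1, h2, h3, h4⟩
  exact h ⟨h4, p.1, p.2, h2, h3, h1⟩

theorem wt_symm (G : SimpleGraph V) (l : V → V) (a b : V) : wt G l a b = wt G l b a := by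
  unfold wt
  apply card_bij (fun p _ => (p.2, p.1))
  · intro p hp
    simp only [mem_filter, mem_univ, true_and] at hp ⊢
    exact ⟨hp.1.symm, hp.2.2.1, hp.2.1, hp.2.2.2.symm⟩
  · intro p _ q _ h
    simp only [Prod.mk.injEq] at h
    exact Prod.ext h.2 h.1
  · intro p hp
    simp only [mem_filter, mem_univ, true_and] at hp
    refine ⟨(p.2, p.1), ?_, rfl⟩
    simp only [mem_filter, mem_univ, true_and]
    exact ⟨hp.1.symm, hp.2.2.1, hp.2.1, hp.2.2.2.symm⟩

theorem cross_eq_sum (G : SimpleGraph V) (l : V → V) :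
    cross G l = ∑ a : V, ∑ b : V, wt G l a b := by
  have h1 : cross G l = ∑ q : V × V, wt G l q.1 q.2 := by
    unfold cross
    rw [card_eq_sum_card_fiberwise (f := fun p : V × V => (l p.1, l p.2)) (t := univ)
      (by intro p _; simp)]
    apply sum_congr rfl
    intro q _
    unfold wt
    congr 1
    ext p
    simp only [mem_filter, mem_univ, true_and]
    constructor
    · rintro ⟨⟨h1, h2⟩, h3⟩
      rw [← h3]
      exact ⟨h1, rfl, rfl, h2⟩
    · rintro ⟨h1, h2, h3, h4⟩
      refine ⟨⟨h1, ?_⟩, Prod.ext h2 h3⟩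
      rw [h2, h3]
      exact h4
  rw [h1, Fintype.sum_prod_type]

/-- degeneracy: the total weight is controlled by the maximal weights at the vertices -/
theorem weight_le (A : V → V → Prop) (w : V → V → ℕ) (hw : ∀ a b, w a b = w b a)
    (h0 : ∀ a b, ¬ A a b → w a b = 0)
    (hA : ∀ S : Finset V, ((S ×ˢ S).filter (fun p => A p.1 p.2)).card ≤ 6 * S.card)
    (m : V → ℕ) (hm : ∀ a b, w a b ≤ m a) (S : Finset V) :
    ∑ a ∈ S, ∑ b ∈ S, w a b ≤ 12 * ∑ a ∈ S, m a := by
  induction S using Finset.strongInduction with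
  | H S ih =>
    rcases S.eq_empty_or_nonempty with rfl | hS
    · simp
    · -- a vertex of small degree
      have hdeg : ∃ a ∈ S, (S.filter (fun b => A a b)).card ≤ 6 := by
        by_contra hcon
        push Not at hcon
        have h1 : ((S ×ˢ S).filter (fun p => A p.1 p.2)).card =
            ∑ a ∈ S, (S.filter (fun b => A a b)).card := by
          rw [card_filter, sum_product]
          apply sum_congr rfl
          intro a _
          rw [card_filter]
        have h2 : ∑ a ∈ S, 7 ≤ ∑ a ∈ S, (S.filter (fun b => A a b)).card :=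
          sum_le_sum (fun a ha => hcon a ha)
        have h3 := hA S
        rw [h1] at h3
        rw [sum_const, smul_eq_mul] at h2
        have h4 : 0 < S.card := card_pos.mpr hS
        omega
      obtain ⟨a, haS, ha⟩ := hdeg
      have hlt : S.erase a ⊂ S := erase_ssubset haS
      have hI := ih _ hlt
      have e1 : ∑ x ∈ S, m x = m a + ∑ x ∈ S.erase a, m x := (add_sum_erase S m haS).symm
      have e2 : ∑ x ∈ S, ∑ b ∈ S, w x b =
          ∑ b ∈ S, w a b + ∑ x ∈ S.erase a, ∑ b ∈ S, w x b :=
        (add_sum_erase S (fun x => ∑ b ∈ S, w x b) haS).symm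
      have e3 : ∑ x ∈ S.erase a, ∑ b ∈ S, w x b =
          ∑ x ∈ S.erase a, w x a + ∑ x ∈ S.erase a, ∑ b ∈ S.erase a, w x b := by
        rw [← sum_add_distrib]
        apply sum_congr rfl
        intro x _
        exact (add_sum_erase S (fun b => w x b) haS).symm
      have e4 : ∑ x ∈ S.erase a, w x a ≤ ∑ b ∈ S, w a b := by
        calc ∑ x ∈ S.erase a, w x a = ∑ x ∈ S.erase a, w a x :=
              sum_congr rfl (fun x _ => hw x a)
          _ ≤ ∑ b ∈ S, w a b := sum_le_sum_of_subset (erase_subset a S)
      have e5 : ∑ b ∈ S, w a b ≤ 6 * m a := by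
        calc ∑ b ∈ S, w a b = ∑ b ∈ S.filter (fun b => A a b), w a b := by
              rw [sum_filter]
              apply sum_congr rfl
              intro b _
              by_cases h : A a b
              · rw [if_pos h]
              · rw [if_neg h, h0 a b h]
          _ ≤ ∑ b ∈ S.filter (fun b => A a b), m a := sum_le_sum (fun b _ => hm a b)
          _ = (S.filter (fun b => A a b)).card * m a := by rw [sum_const, smul_eq_mul]
          _ ≤ 6 * m a := Nat.mul_le_mul_right _ ha
      rw [e1, e2, e3]
      nlinarith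

theorem card_split {a b : V} (hab : a ≠ b) :
    4 * ((univ : Finset (Finset V)).filter (fun R => a ∈ R ∧ b ∉ R)).card =
      2 ^ Fintype.card V := by
  have h1 : (univ : Finset (Finset V)).filter (fun R => a ∈ R ∧ b ∉ R) =
      (((univ : Finset V) \ {a, b}).powerset).image (fun R => insert a R) := by
    ext R
    simp only [mem_filter, mem_univ, true_and, mem_image, mem_powerset]
    constructor
    · rintro ⟨ha, hb⟩
      refine ⟨R.erase a, ?_, insert_erase ha⟩
      intro x hx
      rw [mem_erase] at hx
      simp only [mem_sdiff, mem_univ, true_and, mem_insert, mem_singleton, not_or]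
      refine ⟨hx.1, ?_⟩
      rintro rfl
      exact hb hx.2
    · rintro ⟨T, hT, rfl⟩
      refine ⟨mem_insert_self _ _, ?_⟩
      rw [mem_insert, not_or]
      refine ⟨hab.symm, ?_⟩
      intro hb
      have := hT hb
      simp at this
  have h2 : ((((univ : Finset V) \ {a, b}).powerset).image (fun R => insert a R)).card =
      (((univ : Finset V) \ {a, b}).powerset).card := by
    apply card_image_of_injOn
    intro R hR T hT hRT
    simp only [coe_powerset, Set.mem_preimage, Set.mem_powerset_iff, coe_subset] at hR hT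
    have haR : a ∉ R := fun h => by have := hR h; simp at this
    have haT : a ∉ T := fun h => by have := hT h; simp at this
    have : (insert a R).erase a = (insert a T).erase a := by
      simp only at hRT
      rw [hRT]
    rwa [erase_insert haR, erase_insert haT] at this
  rw [h1, h2, card_powerset, card_sdiff_of_subset (subset_univ _), card_pair hab, card_univ]
  have h3 : 2 ≤ Fintype.card V := by
    have : ({a, b} : Finset V).card ≤ Fintype.card V := card_le_univ _
    rwa [card_pair hab] at this
  obtain ⟨k, hk⟩ := Nat.exists_eq_add_of_le h3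
  rw [hk, show 2 + k - 2 = k by omega, pow_add]
  norm_num

/-- averaging over the two-colourings -/
theorem exists_red (p : V → V) (m : V → ℕ) (hm : ∀ a, p a = a → m a = 0) :
    ∃ R : Finset V, ∑ a : V, m a ≤ 4 * ∑ a ∈ univ.filter (fun a => a ∈ R ∧ p a ∉ R), m a := by
  by_contra hcon
  push Not at hcon
  have h1 : ∑ R : Finset V, 4 * ∑ a ∈ univ.filter (fun a => a ∈ R ∧ p a ∉ R), m a <
      ∑ R : Finset V, ∑ a : V, m a :=
    sum_lt_sum_of_nonempty univ_nonempty (fun R _ => hcon R)
  have h2 : ∑ R : Finset V, ∑ a : V, m a = 2 ^ Fintype.card V * ∑ a : V, m a := by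
    rw [sum_const, smul_eq_mul, card_univ, Fintype.card_finset]
  have h3 : ∑ R : Finset V, 4 * ∑ a ∈ univ.filter (fun a => a ∈ R ∧ p a ∉ R), m a =
      ∑ a : V, m a * (4 * ((univ : Finset (Finset V)).filter
        (fun R => a ∈ R ∧ p a ∉ R)).card) := by
    simp_rw [sum_filter, card_filter, mul_sum]
    rw [sum_comm]
    apply sum_congr rfl
    intro a _
    apply sum_congr rfl
    intro R _
    split_ifs <;> ring
  have h4 : ∀ a : V, m a * (4 * ((univ : Finset (Finset V)).filter
        (fun R => a ∈ R ∧ p a ∉ R)).card) = 2 ^ Fintype.card V * m a := by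
    intro a
    by_cases hpa : p a = a
    · rw [hm a hpa]
      simp
    · rw [card_split (Ne.symm hpa)]
      ring
  rw [h3, h2, mul_sum] at h1
  simp_rw [h4] at h1
  exact lt_irrefl _ h1


/-- One round of star contraction. -/
theorem step (G : SimpleGraph V) (hG : MinorSparse G) (D s : ℕ)
    (hD : ∀ x, (univ.filter (fun y => G.Adj x y)).card ≤ D)
    (l : V → V) (hl : ConnLab G l)
    (hs : ∀ a, (univ.filter (fun x => l x = a)).card ≤ s) :
    ∃ l' : V → V, ConnLab G l' ∧
      (∀ a, (univ.filter (fun x => l' x = a)).card ≤ s + s * (D * s)) ∧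
      48 * cross G l' ≤ 47 * cross G l := by
  -- heaviest neighbours
  have hp : ∀ a : V, ∃ b : V, ∀ c : V, wt G l a c ≤ wt G l a b := by
    intro a
    obtain ⟨b, -, hb⟩ := exists_max_image (univ : Finset V) (fun b => wt G l a b) ⟨a, mem_univ a⟩
    exact ⟨b, fun c => hb c (mem_univ c)⟩
  choose p hp using hp
  set m : V → ℕ := fun a => wt G l a (p a) with hmdef
  have hm0 : ∀ a, p a = a → m a = 0 := by
    intro a ha
    simp only [hmdef, ha]
    exact wt_eq_zero (fun h => h.1 rfl)
  obtain ⟨R, hR⟩ := exists_red p m hm0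
  have hW : cross G l ≤ 12 * ∑ a : V, m a := by
    rw [cross_eq_sum]
    exact weight_le (LAdj G l) (wt G l) (wt_symm G l) (fun a b h => wt_eq_zero h)
      (hG l hl) m hp univ
  -- the new labelling
  set g : V → V := fun a => if a ∈ R ∧ p a ∉ R ∧ 0 < m a then p a else a with hg
  have hgp : ∀ a, (a ∈ R ∧ p a ∉ R ∧ 0 < m a) → g a = p a := fun a h => by
    simp only [hg]; rw [if_pos h]
  have hgn : ∀ a, ¬ (a ∈ R ∧ p a ∉ R ∧ 0 < m a) → g a = a := fun a h => by
    simp only [hg]; rw [if_neg h]
  have hgR : ∀ b, b ∉ R → g b = b := fun b hb => hgn b (fun h => hb h.1)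
  have hmono : within G l ≤ within G (fun x => g (l x)) := by
    intro x y hxy
    exact ⟨hxy.1, by simp only [hxy.2]⟩
  have hadj : ∀ a, 0 < m a → ∃ x y, l x = a ∧ l y = p a ∧ G.Adj x y := by
    intro a ha
    by_contra hcon
    have : wt G l a (p a) = 0 := wt_eq_zero (fun h => hcon h.2)
    simp only [hmdef] at ha
    omega
  -- every vertex is joined to all vertices with the label of the centre
  have hcen : ∀ x, (∃ z, l z = g (l x)) ∧
      ∀ z, l z = g (l x) → (within G (fun x => g (l x))).Reachable x z := by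
    intro x
    by_cases h : l x ∈ R ∧ p (l x) ∉ R ∧ 0 < m (l x)
    · obtain ⟨x', y', h1, h2, h3⟩ := hadj _ h.2.2
      rw [hgp _ h]
      refine ⟨⟨y', h2⟩, fun z hz => ?_⟩
      have r1 : (within G (fun x => g (l x))).Reachable x x' := (hl x x' h1.symm).mono hmono
      have r2 : (within G (fun x => g (l x))).Adj x' y' := by
        refine ⟨h3, ?_⟩
        simp only
        rw [h1, h2, hgp _ h, hgR _ h.2.1]
      have r3 : (within G (fun x => g (l x))).Reachable y' z :=
        (hl y' z (by rw [h2, hz])).mono hmono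
      exact r1.trans (r2.reachable.trans r3)
    · rw [hgn _ h]
      exact ⟨⟨x, rfl⟩, fun z hz => (hl x z hz.symm).mono hmono⟩
  refine ⟨fun x => g (l x), ?_, ?_, ?_⟩
  · intro x y hxy
    simp only at hxy
    obtain ⟨⟨z, hz⟩, hx⟩ := hcen x
    obtain ⟨-, hy⟩ := hcen y
    exact (hx z hz).trans (hy z (by rw [hz, hxy])).symm
  · intro c
    have hsub : univ.filter (fun x => g (l x) = c) ⊆
        univ.filter (fun x => l x = c) ∪
          (univ.filter (fun x => l x = c)).biUnion (fun y =>
            (univ.filter (fun x => G.Adj y x)).biUnion (fun x' =>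
              univ.filter (fun x => l x = l x'))) := by
      intro x hx
      simp only [mem_filter, mem_univ, true_and] at hx
      simp only [mem_union, mem_filter, mem_univ, true_and, mem_biUnion]
      by_cases h : l x ∈ R ∧ p (l x) ∉ R ∧ 0 < m (l x)
      · right
        obtain ⟨x', y', h1, h2, h3⟩ := hadj _ h.2.2
        rw [hgp _ h] at hx
        exact ⟨y', by rw [h2, hx], x', h3.symm, h1.symm⟩
      · left
        rwa [hgn _ h] at hx
    refine le_trans (card_le_card hsub) (le_trans (card_union_le _ _) ?_)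
    refine Nat.add_le_add (hs c) ?_
    refine le_trans card_biUnion_le ?_
    have h1 : ∀ y ∈ univ.filter (fun x => l x = c),
        ((univ.filter (fun x => G.Adj y x)).biUnion (fun x' =>
              univ.filter (fun x => l x = l x'))).card ≤ D * s := by
      intro y _
      refine le_trans card_biUnion_le ?_
      refine le_trans (sum_le_sum (fun x' _ => hs (l x'))) ?_
      rw [sum_const, smul_eq_mul]
      exact Nat.mul_le_mul_right _ (hD y)
    refine le_trans (sum_le_sum h1) ?_
    rw [sum_const, smul_eq_mul]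
    exact Nat.mul_le_mul_right _ (hs c)
  · -- the weight has decreased
    have hdec : cross G (fun x => g (l x)) +
        ∑ a ∈ univ.filter (fun a => a ∈ R ∧ p a ∉ R), m a ≤ cross G l := by
      have h1 : ∑ a ∈ univ.filter (fun a => a ∈ R ∧ p a ∉ R), m a =
          ((univ.filter (fun a => a ∈ R ∧ p a ∉ R)).biUnion (fun a =>
            (univ : Finset (V × V)).filter
              (fun q => G.Adj q.1 q.2 ∧ l q.1 = a ∧ l q.2 = p a ∧ a ≠ p a))).card := by
        rw [card_biUnion]
        · rfl
        · intro a _ b _ hab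
          simp only [Function.onFun]
          rw [disjoint_left]
          intro q hq1 hq2
          simp only [mem_filter, mem_univ, true_and] at hq1 hq2
          exact hab (hq1.2.1.symm.trans hq2.2.1)
      rw [h1]
      unfold cross
      rw [← card_union_of_disjoint]
      · apply card_le_card
        intro q hq
        simp only [mem_union, mem_filter, mem_univ, true_and, mem_biUnion] at hq ⊢
        rcases hq with hq | ⟨a, ha, hq⟩
        · exact ⟨hq.1, fun h => hq.2 (by rw [h])⟩
        · refine ⟨hq.1, ?_⟩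
          rw [hq.2.1, hq.2.2.1]
          exact hq.2.2.2
      · rw [disjoint_left]
        intro q hq1 hq2
        simp only [mem_filter, mem_univ, true_and, mem_biUnion] at hq1 hq2
        obtain ⟨a, ha, hq⟩ := hq2
        apply hq1.2
        have hma : 0 < m a := by
          simp only [hmdef, wt]
          rw [card_pos]
          exact ⟨q, by simp only [mem_filter, mem_univ, true_and]; exact hq⟩
        rw [hq.2.1, hq.2.2.1, hgp a ⟨ha.1, ha.2, hma⟩, hgR _ ha.2]
    omega

/-- Iterated star contraction. -/
theorem iterate (D : ℕ) (j : ℕ) : ∃ s : ℕ, ∀ (V : Type*) [Fintype V] (G : SimpleGraph V),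
    MinorSparse G → (∀ x, (univ.filter (fun y => G.Adj x y)).card ≤ D) →
    ∃ l : V → V, ConnLab G l ∧ (∀ a, (univ.filter (fun x => l x = a)).card ≤ s) ∧
      48 ^ j * cross G l ≤ 47 ^ j * cross G id := by
  induction j with
  | zero =>
    refine ⟨1, fun V _ G _ _ => ⟨id, ?_, ?_, by simp⟩⟩
    · intro x y hxy
      simp only [id] at hxy
      rw [hxy]
    · intro a
      rw [card_le_one]
      intro x hx y hy
      simp only [mem_filter, mem_univ, true_and, id] at hx hy
      rw [hx, hy]
  | succ j ih =>
    obtain ⟨s, hs⟩ := ih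
    refine ⟨s + s * (D * s), fun V _ G hG hD => ?_⟩
    obtain ⟨l, hl, hls, hlc⟩ := hs V G hG hD
    obtain ⟨l', hl', hls', hlc'⟩ := step G hG D s hD l hl hls
    refine ⟨l', hl', hls', ?_⟩
    calc 48 ^ (j + 1) * cross G l' = 48 ^ j * (48 * cross G l') := by ring
      _ ≤ 48 ^ j * (47 * cross G l) := Nat.mul_le_mul_left _ hlc'
      _ = 47 * (48 ^ j * cross G l) := by ring
      _ ≤ 47 * (47 ^ j * cross G id) := Nat.mul_le_mul_left _ hlc
      _ = 47 ^ (j + 1) * cross G id := by ring

/-- Hyperfiniteness of sparse minor closed graphs of bounded degree. -/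
theorem hyperfinite (D : ℕ) (δ : ℝ) (hδ : 0 < δ) : ∃ s : ℕ, ∀ (V : Type*) [Fintype V]
    (G : SimpleGraph V),
    MinorSparse G → (∀ x, (univ.filter (fun y => G.Adj x y)).card ≤ D) →
    ∃ l : V → V, ConnLab G l ∧ (∀ a, (univ.filter (fun x => l x = a)).card ≤ s) ∧
      (cross G l : ℝ) ≤ δ * cross G id := by
  obtain ⟨j, hj⟩ := exists_pow_lt_of_lt_one hδ (show (47 / 48 : ℝ) < 1 by norm_num)
  obtain ⟨s, hs⟩ := iterate D j
  refine ⟨s, fun V _ G hG hD => ?_⟩
  obtain ⟨l, hl, hls, hlc⟩ := hs V G hG hD
  refine ⟨l, hl, hls, ?_⟩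
  have h1 : (48 : ℝ) ^ j * cross G l ≤ 47 ^ j * cross G id := by exact_mod_cast hlc
  have h2 : (0 : ℝ) < 48 ^ j := by positivity
  have h3 : (cross G l : ℝ) ≤ (47 / 48) ^ j * cross G id := by
    rw [div_pow, div_mul_eq_mul_div, le_div_iff₀ h2, mul_comm]
    exact h1
  refine le_trans h3 ?_
  exact mul_le_mul_of_nonneg_right hj.le (Nat.cast_nonneg _)

end U5Fin
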